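import Pool.Agent.H30.Sparse

/-!
Asymptotics of divergent trajectories.
-/

set_option autoImplicit false

namespace Pool.Agent.H30

open Finset Filter

/-- The trajectory of `n₀` is divergent. -/
def Div (n₀ : ℤ) : Prop := Tendsto (fun k : ℕ => |T^[k] n₀|) atTop atTop

lemma Div.inj {n₀ : ℤ} (h : Div n₀) (i j : ℕ) (hij : T^[i] n₀ = T^[j] n₀) : i = j := by
  wlog hlt : i < j generalizing i j
  · rcases Nat.lt_trichotomy i j with h1 | h1 | h1
    · exact this i j hij h1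
    · exact h1
    · exact (this j i hij.symm h1).symm
  exfalso
  set p := j - i with hp
  have hp0 : 0 < p := by omega
  have hper : Function.IsPeriodicPt T p (T^[i] n₀) := by
    unfold Function.IsPeriodicPt Function.IsFixedPt
    rw [← Function.iterate_add_apply, hp]
    rw [show j - i + i = j by omega, hij]
  have hq : ∀ q : ℕ, T^[p * q + i] n₀ = T^[i] n₀ := by
    intro q
    rw [Function.iterate_add_apply]
    exact hper.mul_const q
  have h1 := (tendsto_atTop.mp h (|T^[i] n₀| + 1))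
  rw [eventually_atTop] at h1
  obtain ⟨a, ha⟩ := h1
  have h2 := ha (p * a + i) (by nlinarith)
  rw [hq a] at h2
  linarith

lemma T_pos {n : ℤ} (h : 0 < n) : 0 < T n := by
  unfold T; split_ifs <;> omega

lemma T_neg {n : ℤ} (h : n < 0) : T n < 0 := by
  unfold T; split_ifs <;> omega

lemma iter_pos {n : ℤ} (h : 0 < n) (k : ℕ) : 0 < T^[k] n := by
  induction k with
  | zero => simpa using h
  | succ k ih => rw [Function.iterate_succ_apply']; exact T_pos ih

lemma iter_neg {n : ℤ} (h : n < 0) (k : ℕ) : T^[k] n < 0 := by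
  induction k with
  | zero => simpa using h
  | succ k ih => rw [Function.iterate_succ_apply']; exact T_neg ih

lemma T_zero : T 0 = 0 := by unfold T; simp

lemma Div.ne_zero {n₀ : ℤ} (h : Div n₀) : n₀ ≠ 0 := by
  rintro rfl
  have h1 : ∀ k, T^[k] 0 = 0 := by
    intro k
    induction k with
    | zero => rfl
    | succ k ih => rw [Function.iterate_succ_apply', ih, T_zero]
  have := Div.inj h 0 1 (by rw [h1, h1])
  omega

lemma Div.iter_ne_zero {n₀ : ℤ} (h : Div n₀) (k : ℕ) : T^[k] n₀ ≠ 0 := by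
  rcases lt_or_gt_of_ne h.ne_zero with h1 | h1
  · exact (iter_neg h1 k).ne
  · exact (iter_pos h1 k).ne'

/-- Tail sums of reciprocals. -/
lemma sum_inv_le : ∃ C₁ : ℝ, 0 < C₁ ∧ ∀ n₀ : ℤ, Div n₀ → ∀ (k N M : ℕ), 1 ≤ M →
    (∀ j, k ≤ j → M ≤ (T^[j] n₀).natAbs) →
    ∑ j ∈ Ico k N, (1:ℝ) / ((T^[j] n₀).natAbs : ℝ) ≤ C₁ * (M:ℝ) ^ (th - 1) := by
  obtain ⟨K, hK, hsp⟩ := sparse
  have hth := th_pos
  have hth1 := th_lt_one
  set ρ : ℝ := (2:ℝ) ^ (th - 1) with hρ
  have hρ0 : 0 < ρ := Real.rpow_pos_of_pos (by norm_num) _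
  have hρ1 : ρ < 1 := Real.rpow_lt_one_of_one_lt_of_neg (by norm_num) (by linarith)
  refine ⟨K * 4 ^ th * (1 - ρ)⁻¹, by have : 0 < 1 - ρ := by linarith
                                     positivity, ?_⟩
  intro n₀ hdiv k N M hM hlow
  have hMpos : (0:ℝ) < M := by exact_mod_cast hM
  -- dyadic level
  set g : ℕ → ℕ := fun j => Nat.log 2 ((T^[j] n₀).natAbs / M) with hg
  set J := Ico k N with hJ
  set I := (J.sup g) + 1 with hI
  have hmaps : ∀ j ∈ J, g j ∈ range I := by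
    intro j hj
    rw [mem_range, hI]
    exact Nat.lt_succ_of_le (le_sup (f := g) hj)
  rw [← sum_fiberwise_of_maps_to hmaps]
  -- each fiber
  have hfib : ∀ i ∈ range I, ∑ j ∈ J with g j = i, (1:ℝ) / ((T^[j] n₀).natAbs : ℝ) ≤
      K * 4 ^ th * (M:ℝ) ^ (th - 1) * ρ ^ i := by
    intro i _
    have hlev : ∀ j ∈ J.filter (fun j => g j = i), 2 ^ i * M ≤ (T^[j] n₀).natAbs ∧
        (T^[j] n₀).natAbs < 2 ^ (i+1) * M := by
      intro j hj
      rw [mem_filter] at hj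
      obtain ⟨hj1, hj2⟩ := hj
      have hkj : k ≤ j := (mem_Ico.mp hj1).1
      have h0 := hlow j hkj
      have h1 : (T^[j] n₀).natAbs / M ≠ 0 := by
        have := Nat.div_pos h0 (by omega)
        omega
      have h2 := Nat.pow_log_le_self 2 h1
      have h3 := Nat.lt_pow_succ_log_self (b := 2) (by norm_num) ((T^[j] n₀).natAbs / M)
      have h4 : Nat.log 2 ((T^[j] n₀).natAbs / M) = i := hj2
      rw [h4] at h2 h3
      constructor
      · exact (Nat.le_div_iff_mul_le (by omega)).mp h2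
      · exact (Nat.div_lt_iff_lt_mul (by omega)).mp h3
    have hcard : (((J.filter (fun j => g j = i)).card : ℕ) : ℝ) ≤
        K * ((2 * (2 ^ (i+1) * M) : ℕ) : ℝ) ^ th := by
      refine le_trans ?_ (hsp n₀ N (fun a _ b _ hab => hdiv.inj a b hab)
        (-((2 ^ (i+1) * M : ℕ) : ℤ)) (2 * (2 ^ (i+1) * M)) (by
          have : 0 < 2 ^ (i+1) * M := by positivity
          omega))
      norm_cast
      apply card_le_card
      intro j hj
      have h5 := hlev j hj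
      rw [mem_filter, mem_Ico] at hj
      rw [mem_vis]
      push_cast
      have h6 : ((T^[j] n₀).natAbs : ℤ) < 2 ^ (i+1) * M := by exact_mod_cast h5.2
      rw [Int.natCast_natAbs, abs_lt] at h6
      refine ⟨hj.1.2, by linarith, by linarith⟩
    calc ∑ j ∈ J with g j = i, (1:ℝ) / ((T^[j] n₀).natAbs : ℝ)
        ≤ ∑ j ∈ J with g j = i, (1:ℝ) / (2 ^ i * M) := by
          refine sum_le_sum (fun j hj => ?_)
          have h5 := (hlev j hj).1
          have h5' : ((2:ℝ) ^ i * M) ≤ ((T^[j] n₀).natAbs : ℝ) := by exact_mod_cast h5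
          exact one_div_le_one_div_of_le (by positivity) h5'
      _ = ((J.filter (fun j => g j = i)).card : ℝ) * (1 / (2 ^ i * M)) := by
          rw [sum_const, nsmul_eq_mul]
      _ ≤ K * ((2 * (2 ^ (i+1) * M) : ℕ) : ℝ) ^ th * (1 / (2 ^ i * M)) := by
          apply mul_le_mul_of_nonneg_right hcard; positivity
      _ = K * 4 ^ th * (M:ℝ) ^ (th - 1) * ρ ^ i := by
          have e1 : (((2 * (2 ^ (i+1) * M) : ℕ)) : ℝ) = 4 * ((2:ℝ) ^ i * M) := by
            push_cast; ring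
          rw [e1, Real.mul_rpow (by norm_num) (by positivity)]
          have e2 : ρ ^ i = ((2:ℝ) ^ i) ^ (th - 1) := by
            rw [hρ, ← Real.rpow_natCast, ← Real.rpow_mul (by norm_num), ← Real.rpow_natCast,
              ← Real.rpow_mul (by norm_num)]
            ring_nf
          have e3 : ((2:ℝ) ^ i * M) ^ th * (1 / (2 ^ i * M)) = ((2:ℝ) ^ i * M) ^ (th - 1) := by
            rw [Real.rpow_sub (by positivity), Real.rpow_one]; ring
          rw [e2]
          calc K * (4 ^ th * ((2:ℝ) ^ i * M) ^ th) * (1 / (2 ^ i * M))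
              = K * 4 ^ th * (((2:ℝ) ^ i * M) ^ th * (1 / (2 ^ i * M))) := by ring
            _ = K * 4 ^ th * ((2:ℝ) ^ i * M) ^ (th - 1) := by rw [e3]
            _ = K * 4 ^ th * (((2:ℝ) ^ i) ^ (th - 1) * (M:ℝ) ^ (th - 1)) := by
                rw [Real.mul_rpow (by positivity) (by positivity)]
            _ = _ := by ring
  calc ∑ i ∈ range I, ∑ j ∈ J with g j = i, (1:ℝ) / ((T^[j] n₀).natAbs : ℝ)
      ≤ ∑ i ∈ range I, K * 4 ^ th * (M:ℝ) ^ (th - 1) * ρ ^ i := sum_le_sum hfib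
    _ = K * 4 ^ th * (M:ℝ) ^ (th - 1) * ∑ i ∈ range I, ρ ^ i := by rw [mul_sum]
    _ ≤ K * 4 ^ th * (M:ℝ) ^ (th - 1) * (1 - ρ)⁻¹ := by
        apply mul_le_mul_of_nonneg_left _ (by positivity)
        rw [← tsum_geometric_of_lt_one hρ0.le hρ1]
        exact Summable.sum_le_tsum _ (fun i _ => by positivity)
          (summable_geometric_of_lt_one hρ0.le hρ1)
    _ = _ := by ring

/-- normalised iterates `2^k T^k(n₀) / 3^{S_k}` -/
noncomputable def u (n₀ : ℤ) (k : ℕ) : ℝ := 2 ^ k * (T^[k] n₀ : ℝ) / 3 ^ (S k n₀)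

lemma u_succ (n₀ : ℤ) (k : ℕ) (h : T^[k] n₀ ≠ 0) :
    u n₀ (k+1) = u n₀ k * (1 + (bit k n₀ : ℝ) / (3 * (T^[k] n₀ : ℝ))) := by
  have hx : (T^[k] n₀ : ℝ) ≠ 0 := by exact_mod_cast h
  have h2 := two_mul_T (T^[k] n₀)
  have h2' : 2 * (T (T^[k] n₀) : ℝ) = 3 ^ (bit k n₀) * (T^[k] n₀ : ℝ) + (bit k n₀ : ℝ) := by
    have : bit k n₀ = par (T^[k] n₀) := rfl
    rw [this]; exact_mod_cast h2
  unfold u
  rw [Function.iterate_succ_apply', S_succ]
  rcases Nat.le_one_iff_eq_zero_or_eq_one.mp (bit_le_one k n₀) with hb | hb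
  · rw [hb] at h2' ⊢
    simp only [pow_zero, one_mul, Nat.cast_zero, add_zero, zero_div, mul_one] at h2' ⊢
    rw [pow_succ, mul_assoc, h2']
  · rw [hb] at h2' ⊢
    simp only [pow_one, Nat.cast_one] at h2' ⊢
    rw [pow_succ, mul_assoc, h2', pow_succ]
    field_simp

lemma abs_log_factor {x : ℝ} (hx : 1 ≤ |x|) (b : ℕ) (hb : b ≤ 1) :
    0 < 1 + (b:ℝ) / (3 * x) ∧ |Real.log (1 + (b:ℝ) / (3 * x))| ≤ 1 / 2 * (1 / |x|) := by
  have hx0 : x ≠ 0 := by intro h; rw [h] at hx; simp at hx; linarith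
  have hxp : 0 < |x| := by linarith
  set ε := (b:ℝ) / (3 * x) with hε
  have hb' : (b:ℝ) ≤ 1 := by exact_mod_cast hb
  have hb0 : (0:ℝ) ≤ b := by positivity
  have habs : |ε| ≤ 1 / 3 * (1 / |x|) := by
    rw [hε, abs_div, abs_mul, abs_of_nonneg hb0, abs_of_pos (show (0:ℝ) < 3 by norm_num)]
    rw [div_le_iff₀ (by positivity)]
    field_simp
    exact hb'
  have h13 : 1 / |x| ≤ 1 := by rw [div_le_one hxp]; exact hx
  have habs' : |ε| ≤ 1 / 3 := by linarith
  have h1 := abs_le.mp habs'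
  have hpos : 0 < 1 + ε := by linarith
  refine ⟨hpos, ?_⟩
  have hup := Real.log_le_sub_one_of_pos hpos
  have hlo := Real.one_sub_inv_le_log_of_pos hpos
  have h32 : |ε| * (3/2) ≤ 1 / 2 * (1 / |x|) := by linarith
  have hlo' : -(|ε| * (3/2)) ≤ 1 - (1 + ε)⁻¹ := by
    have e : 1 - (1 + ε)⁻¹ = ε / (1 + ε) := by field_simp; ring
    rw [e, le_div_iff₀ hpos]
    have h3 := neg_abs_le ε
    have h4 := abs_nonneg ε
    nlinarith
  rw [abs_le]
  constructor
  · linarith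
  · have := le_abs_self ε
    have := abs_nonneg ε
    linarith

lemma u_sign_pos {n₀ : ℤ} (h : 0 < n₀) (k : ℕ) : 0 < u n₀ k := by
  unfold u
  have : (0:ℝ) < T^[k] n₀ := by exact_mod_cast iter_pos h k
  positivity

lemma u_sign_neg {n₀ : ℤ} (h : n₀ < 0) (k : ℕ) : u n₀ k < 0 := by
  unfold u
  have : (T^[k] n₀ : ℝ) < 0 := by exact_mod_cast iter_neg h k
  apply div_neg_of_neg_of_pos _ (by positivity)
  exact mul_neg_of_pos_of_neg (by positivity) this

lemma one_le_abs_iter {n₀ : ℤ} (h : Div n₀) (k : ℕ) : 1 ≤ |(T^[k] n₀ : ℝ)| := by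
  have := Int.one_le_abs (h.iter_ne_zero k)
  exact_mod_cast this

lemma abs_exp_sub_one_le' (t : ℝ) : |Real.exp t - 1| ≤ |t| * Real.exp |t| := by
  have h1 := Real.add_one_le_exp t
  have h2 := Real.add_one_le_exp (-t)
  have h3 : Real.exp t * Real.exp (-t) = 1 := by rw [← Real.exp_add]; simp
  have h4 := Real.exp_pos t
  rcases le_or_gt 0 t with h | h
  · rw [abs_of_nonneg h, abs_le]
    constructor
    · nlinarith
    · nlinarith
  · rw [abs_of_neg h, abs_le]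
    have h5 : 1 ≤ Real.exp (-t) := Real.one_le_exp (by linarith)
    constructor
    · nlinarith
    · nlinarith

/-- Main asymptotic statement. -/
theorem asym : ∃ C₀ : ℝ, 0 < C₀ ∧ ∀ n₀ : ℤ, Div n₀ → ∃ L : ℝ, L ≠ 0 ∧
    Tendsto (u n₀) atTop (nhds L) ∧
    ∀ (k M : ℕ), 1 ≤ M → (∀ j, k ≤ j → M ≤ (T^[j] n₀).natAbs) →
      |u n₀ k / L - 1| ≤ C₀ * (M:ℝ) ^ (th - 1) := by
  obtain ⟨C₁, hC₁, hsum⟩ := sum_inv_le
  refine ⟨C₁ * Real.exp C₁, by positivity, ?_⟩
  intro n₀ hdiv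
  have hth1 := th_lt_one
  have hun : ∀ k, u n₀ k ≠ 0 := by
    intro k
    rcases lt_or_gt_of_ne hdiv.ne_zero with h | h
    · exact (u_sign_neg h k).ne
    · exact (u_sign_pos h k).ne'
  -- log increments
  have hinc : ∀ p q, p ≤ q → |Real.log (u n₀ q) - Real.log (u n₀ p)| ≤
      ∑ j ∈ Ico p q, 1 / 2 * ((1:ℝ) / ((T^[j] n₀).natAbs : ℝ)) := by
    intro p q hpq
    induction q, hpq using Nat.le_induction with
    | base => simp
    | succ q hpq ih =>
      rw [sum_Ico_succ_top hpq]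
      have h1 := u_succ n₀ q (hdiv.iter_ne_zero q)
      have h2 := abs_log_factor (one_le_abs_iter hdiv q) (bit q n₀) (bit_le_one q n₀)
      have h3 : Real.log (u n₀ (q+1)) = Real.log (u n₀ q) +
          Real.log (1 + (bit q n₀ : ℝ) / (3 * (T^[q] n₀ : ℝ))) := by
        rw [h1, Real.log_mul (hun q) h2.1.ne']
      have h4 : ((T^[q] n₀).natAbs : ℝ) = |(T^[q] n₀ : ℝ)| := by
        rw [Nat.cast_natAbs, Int.cast_abs]
      rw [h3, h4]
      calc |Real.log (u n₀ q) + Real.log (1 + (bit q n₀ : ℝ) / (3 * (T^[q] n₀ : ℝ))) -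
            Real.log (u n₀ p)|
          = |(Real.log (u n₀ q) - Real.log (u n₀ p)) +
            Real.log (1 + (bit q n₀ : ℝ) / (3 * (T^[q] n₀ : ℝ)))| := by ring_nf
        _ ≤ |Real.log (u n₀ q) - Real.log (u n₀ p)| +
            |Real.log (1 + (bit q n₀ : ℝ) / (3 * (T^[q] n₀ : ℝ)))| := abs_add_le _ _
        _ ≤ _ := add_le_add ih h2.2
  have hinc' : ∀ (k M q : ℕ), 1 ≤ M → (∀ j, k ≤ j → M ≤ (T^[j] n₀).natAbs) → k ≤ q →
      |Real.log (u n₀ q) - Real.log (u n₀ k)| ≤ 1 / 2 * (C₁ * (M:ℝ) ^ (th - 1)) := by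
    intro k M q hM hlow hkq
    refine le_trans (hinc k q hkq) ?_
    rw [← mul_sum]
    exact mul_le_mul_of_nonneg_left (hsum n₀ hdiv k q M hM hlow) (by norm_num)
  -- eventually large
  have hlarge : ∀ M : ℕ, ∃ k, ∀ j, k ≤ j → M ≤ (T^[j] n₀).natAbs := by
    intro M
    have := tendsto_atTop.mp hdiv (M:ℤ)
    rw [eventually_atTop] at this
    obtain ⟨a, ha⟩ := this
    refine ⟨a, fun j hj => ?_⟩
    have h1 := ha j hj
    rw [Int.abs_eq_natAbs] at h1
    exact_mod_cast h1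
  -- Cauchy
  have hpow0 : Tendsto (fun M : ℕ => (M:ℝ) ^ (th - 1)) atTop (nhds 0) := by
    have := tendsto_rpow_neg_atTop (show 0 < 1 - th by linarith)
    have h2 := this.comp tendsto_natCast_atTop_atTop
    refine h2.congr (fun M => ?_)
    simp only [Function.comp_apply]
    congr 1; ring
  have hcauchy : CauchySeq (fun k => Real.log (u n₀ k)) := by
    rw [Metric.cauchySeq_iff']
    intro ε hε
    have h1 : Tendsto (fun M : ℕ => 1 / 2 * (C₁ * (M:ℝ) ^ (th - 1))) atTop (nhds 0) := by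
      have := (hpow0.const_mul C₁).const_mul (1/2)
      simpa using this
    have h2 := (h1.eventually (gt_mem_nhds hε)).and (eventually_ge_atTop 1)
    obtain ⟨M, hM1, hM2⟩ := h2.exists
    obtain ⟨k, hk⟩ := hlarge M
    refine ⟨k, fun q hq => ?_⟩
    rw [Real.dist_eq]
    exact lt_of_le_of_lt (hinc' k M q hM2 hk hq) hM1
  obtain ⟨ℓ, hℓ⟩ := cauchySeq_tendsto_of_complete hcauchy
  have hℓb : ∀ (k M : ℕ), 1 ≤ M → (∀ j, k ≤ j → M ≤ (T^[j] n₀).natAbs) →
      |ℓ - Real.log (u n₀ k)| ≤ 1 / 2 * (C₁ * (M:ℝ) ^ (th - 1)) := by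
    intro k M hM hlow
    have h1 : Tendsto (fun q => |Real.log (u n₀ q) - Real.log (u n₀ k)|) atTop
        (nhds |ℓ - Real.log (u n₀ k)|) := (hℓ.sub_const _).abs
    refine le_of_tendsto h1 ?_
    rw [eventually_atTop]
    exact ⟨k, fun q hq => hinc' k M q hM hlow hq⟩
  -- the sign
  obtain ⟨σ, hσ, hσu⟩ : ∃ σ : ℝ, (σ = 1 ∨ σ = -1) ∧
      ∀ k, u n₀ k = σ * Real.exp (Real.log (u n₀ k)) := by
    rcases lt_or_gt_of_ne hdiv.ne_zero with h | h
    · refine ⟨-1, Or.inr rfl, fun k => ?_⟩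
      rw [Real.exp_log_of_neg (u_sign_neg h k)]; ring
    · refine ⟨1, Or.inl rfl, fun k => ?_⟩
      rw [Real.exp_log (u_sign_pos h k)]; ring
  have hσ0 : σ ≠ 0 := by rcases hσ with h | h <;> rw [h] <;> norm_num
  refine ⟨σ * Real.exp ℓ, mul_ne_zero hσ0 (Real.exp_pos _).ne', ?_, ?_⟩
  · have h1 : Tendsto (fun k => σ * Real.exp (Real.log (u n₀ k))) atTop
        (nhds (σ * Real.exp ℓ)) := ((Real.continuous_exp.tendsto ℓ).comp hℓ).const_mul σ
    exact h1.congr (fun k => (hσu k).symm)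
  · intro k M hM hlow
    have h1 := hℓb k M hM hlow
    have h2 : u n₀ k / (σ * Real.exp ℓ) = Real.exp (Real.log (u n₀ k) - ℓ) := by
      rw [Real.exp_sub]
      conv_lhs => rw [hσu k]
      have := Real.exp_pos ℓ
      field_simp
    rw [h2]
    have h3 := abs_exp_sub_one_le' (Real.log (u n₀ k) - ℓ)
    rw [abs_sub_comm] at h1
    have hM1 : (M:ℝ) ^ (th - 1) ≤ 1 := by
      have hM' : (1:ℝ) ≤ M := by exact_mod_cast hM
      exact Real.rpow_le_one_of_one_le_of_nonpos hM' (by linarith)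
    have hM0 : 0 ≤ (M:ℝ) ^ (th - 1) := by positivity
    have h4 : |Real.log (u n₀ k) - ℓ| ≤ C₁ := by nlinarith
    have h5 : |Real.log (u n₀ k) - ℓ| ≤ C₁ * (M:ℝ) ^ (th - 1) := by
      have : 0 ≤ C₁ * (M:ℝ) ^ (th - 1) := by positivity
      linarith
    calc |Real.exp (Real.log (u n₀ k) - ℓ) - 1|
        ≤ |Real.log (u n₀ k) - ℓ| * Real.exp |Real.log (u n₀ k) - ℓ| := h3
      _ ≤ (C₁ * (M:ℝ) ^ (th - 1)) * Real.exp C₁ := by
          apply mul_le_mul h5 (Real.exp_le_exp.mpr h4) (Real.exp_pos _).le (by positivity)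
      _ = C₁ * Real.exp C₁ * (M:ℝ) ^ (th - 1) := by ring

end Pool.Agent.H30
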