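import Pool.Agent.H30.Defs

/-!
Basic facts on the 3x+1 map on ℤ : affine formula, dependence on residues modulo powers of two,
and exact generating sums over residue classes.
-/

set_option autoImplicit false

namespace Pool.Agent.H30

/-- The parity of an integer, as a natural number. -/
def par (n : ℤ) : ℕ := if n % 2 = 0 then 0 else 1

/-- `bit j n` is the parity of the `j`-th iterate of `n`. -/
def bit (j : ℕ) (n : ℤ) : ℕ := par (T^[j] n)

/-- The number of odd terms among `n, T n, …, T^(k-1) n`. -/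
def S (k : ℕ) (n : ℤ) : ℕ := ∑ j ∈ Finset.range k, bit j n

/-- The number of `j < k` where the parities of the `j`-th iterates of `n` and `n'` differ. -/
def E (k : ℕ) (n n' : ℤ) : ℕ := ∑ j ∈ Finset.range k, if bit j n = bit j n' then 0 else 1

/-- The constant term in `2^k T^k(n) = 3^S n + C`. -/
def C (k : ℕ) (n : ℤ) : ℤ := 2 ^ k * T^[k] n - 3 ^ (S k n) * n

lemma par_le_one (n : ℤ) : par n ≤ 1 := by
  unfold par; split_ifs <;> simp

lemma par_add_two_mul (n t : ℤ) : par (n + 2 * t) = par n := by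
  unfold par
  have : (n + 2 * t) % 2 = n % 2 := by omega
  rw [this]

lemma par_add_odd (n t : ℤ) (ht : t % 2 = 1) : par (n + t) = 1 - par n := by
  unfold par
  split_ifs with h1 h2 h2 <;> omega

lemma two_mul_T (n : ℤ) : 2 * T n = 3 ^ par n * n + par n := by
  unfold T par
  split_ifs with h
  · simp; omega
  · simp; omega

lemma T_add_two_mul (n t : ℤ) : T (n + 2 * t) = T n + 3 ^ par n * t := by
  have h1 := two_mul_T n
  have h2 := two_mul_T (n + 2 * t)
  rw [par_add_two_mul] at h2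
  have : 2 * T (n + 2 * t) = 2 * (T n + 3 ^ par n * t) := by
    rw [h2]; linear_combination (-1 : ℤ) * h1
  linarith

lemma bit_zero (n : ℤ) : bit 0 n = par n := rfl

lemma bit_succ (j : ℕ) (n : ℤ) : bit (j+1) n = bit j (T n) := rfl

lemma bit_le_one (j : ℕ) (n : ℤ) : bit j n ≤ 1 := par_le_one _

lemma S_zero (n : ℤ) : S 0 n = 0 := rfl

lemma S_succ (k : ℕ) (n : ℤ) : S (k+1) n = S k n + bit k n := by
  unfold S; rw [Finset.sum_range_succ]

lemma S_succ' (k : ℕ) (n : ℤ) : S (k+1) n = par n + S k (T n) := by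
  unfold S; rw [Finset.sum_range_succ', add_comm]; rfl

lemma S_le (k : ℕ) (n : ℤ) : S k n ≤ k := by
  unfold S
  calc ∑ j ∈ Finset.range k, bit j n ≤ ∑ j ∈ Finset.range k, 1 :=
        Finset.sum_le_sum (fun j _ => bit_le_one j n)
    _ = k := by simp

lemma S_add (k l : ℕ) (n : ℤ) : S (k + l) n = S k n + S l (T^[k] n) := by
  induction l with
  | zero => simp [S_zero]
  | succ l ih =>
    rw [← add_assoc, S_succ, S_succ, ih]
    have : bit (k + l) n = bit l (T^[k] n) := by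
      unfold bit; rw [add_comm, Function.iterate_add_apply]
    rw [this]; ring

lemma iter_S_add (k : ℕ) : ∀ (n t : ℤ),
    T^[k] (n + 2 ^ k * t) = T^[k] n + 3 ^ (S k n) * t ∧ S k (n + 2 ^ k * t) = S k n := by
  induction k with
  | zero => intro n t; simp [S_zero]
  | succ k ih =>
    intro n t
    have h1 : n + 2 ^ (k+1) * t = n + 2 * (2 ^ k * t) := by ring
    have h2 : T (n + 2 ^ (k+1) * t) = T n + 2 ^ k * (3 ^ par n * t) := by
      rw [h1, T_add_two_mul]; ring
    obtain ⟨ha, hb⟩ := ih (T n) (3 ^ par n * t)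
    constructor
    · rw [Function.iterate_succ_apply, Function.iterate_succ_apply, h2, ha, S_succ', pow_add]
      ring
    · rw [S_succ', S_succ', h2, hb, h1, par_add_two_mul]

lemma iter_add (k : ℕ) (n t : ℤ) : T^[k] (n + 2 ^ k * t) = T^[k] n + 3 ^ (S k n) * t :=
  (iter_S_add k n t).1

lemma S_add_pow (k : ℕ) (n t : ℤ) : S k (n + 2 ^ k * t) = S k n := (iter_S_add k n t).2

lemma bit_add_pow_of_lt (j k : ℕ) (hjk : j < k) (n t : ℤ) : bit j (n + 2 ^ k * t) = bit j n := by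
  obtain ⟨d, rfl⟩ := Nat.exists_eq_add_of_lt hjk
  have : (2:ℤ) ^ (j + d + 1) * t = 2 ^ j * (2 * (2 ^ d * t)) := by ring
  unfold bit
  rw [this, iter_add]
  have : (3:ℤ) ^ S j n * (2 * (2 ^ d * t)) = 2 * (3 ^ S j n * (2 ^ d * t)) := by ring
  rw [this, par_add_two_mul]

lemma three_pow_mod_two (s : ℕ) : (3:ℤ) ^ s % 2 = 1 := by
  have : Odd ((3:ℤ) ^ s) := Odd.pow (by decide)
  exact Int.odd_iff.mp this

lemma bit_add_pow (k : ℕ) (n : ℤ) : bit k (n + 2 ^ k) = 1 - bit k n := by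
  unfold bit
  have h := iter_add k n 1
  rw [mul_one, mul_one] at h
  rw [h, par_add_odd _ _ (three_pow_mod_two _)]

lemma E_zero (n n' : ℤ) : E 0 n n' = 0 := rfl

lemma E_succ (k : ℕ) (n n' : ℤ) :
    E (k+1) n n' = E k n n' + if bit k n = bit k n' then 0 else 1 := by
  unfold E; rw [Finset.sum_range_succ]

lemma E_add_pow (k : ℕ) (n n' t t' : ℤ) : E k (n + 2 ^ k * t) (n' + 2 ^ k * t') = E k n n' := by
  unfold E
  refine Finset.sum_congr rfl (fun j hj => ?_)
  have hj' := Finset.mem_range.mp hj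
  rw [bit_add_pow_of_lt j k hj', bit_add_pow_of_lt j k hj']

lemma C_spec (k : ℕ) (n : ℤ) : 2 ^ k * T^[k] n = 3 ^ (S k n) * n + C k n := by
  unfold C; ring

lemma C_zero (n : ℤ) : C 0 n = 0 := by simp [C, S_zero]

lemma C_succ' (k : ℕ) (n : ℤ) : C (k+1) n = 2 * C k (T n) + 3 ^ (S k (T n)) * par n := by
  have h1 := C_spec k (T n)
  have h2 := two_mul_T n
  unfold C
  rw [Function.iterate_succ_apply, S_succ', pow_add]
  linear_combination (norm := ring_nf) (3 ^ S k (T n)) * h2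

lemma C_add_pow (k : ℕ) (n t : ℤ) : C k (n + 2 ^ k * t) = C k n := by
  unfold C; rw [iter_add, S_add_pow]; ring

lemma C_nonneg (k : ℕ) : ∀ n : ℤ, 0 ≤ C k n := by
  induction k with
  | zero => intro n; rw [C_zero]
  | succ k ih =>
    intro n
    rw [C_succ']
    have := ih (T n)
    positivity

lemma C_bound (k : ℕ) : ∀ n : ℤ, 2 ^ (S k n) * (C k n + 2 ^ k) ≤ 2 ^ k * 3 ^ (S k n) := by
  induction k with
  | zero => intro n; simp [C_zero, S_zero]
  | succ k ih =>
    intro n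
    have h := ih (T n)
    have hS : S k (T n) ≤ k := S_le k (T n)
    rw [C_succ', S_succ']
    have hpow : (2:ℤ) ^ S k (T n) ≤ 2 ^ k := pow_le_pow_right₀ (by norm_num) hS
    rcases Nat.lt_or_ge (par n) 1 with hp | hp
    · have hp0 : par n = 0 := by omega
      rw [hp0]
      simp only [zero_add, Nat.cast_zero, mul_zero, add_zero]
      calc (2:ℤ) ^ S k (T n) * (2 * C k (T n) + 2 ^ (k+1))
          = 2 * (2 ^ S k (T n) * (C k (T n) + 2 ^ k)) := by ring
        _ ≤ 2 * (2 ^ k * 3 ^ S k (T n)) := by linarith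
        _ = 2 ^ (k+1) * 3 ^ S k (T n) := by ring
    · have hp1 : par n = 1 := le_antisymm (par_le_one n) hp
      rw [hp1]
      have h3 : (0:ℤ) < 3 ^ S k (T n) := by positivity
      calc (2:ℤ) ^ (1 + S k (T n)) * (2 * C k (T n) + 3 ^ S k (T n) * ((1:ℕ):ℤ) + 2 ^ (k+1))
          = 4 * (2 ^ S k (T n) * (C k (T n) + 2 ^ k)) + 2 * (2 ^ S k (T n) * 3 ^ S k (T n)) := by
            push_cast; ring
        _ ≤ 4 * (2 ^ k * 3 ^ S k (T n)) + 2 * (2 ^ k * 3 ^ S k (T n)) := by
            have := mul_le_mul_of_nonneg_right hpow h3.le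
            linarith
        _ = 2 ^ (k+1) * 3 ^ (1 + S k (T n)) := by ring

lemma C_le (k : ℕ) (n : ℤ) : C k n ≤ 2 ^ k * 3 ^ (S k n) := by
  have h := C_bound k n
  have h0 := C_nonneg k n
  have h1 : (1:ℤ) ≤ 2 ^ S k n := one_le_pow₀ (by norm_num)
  have h2 : (0:ℤ) < 2 ^ k := by positivity
  nlinarith

/-- `C` as a power-of-three bound for short words. -/
lemma C_lt_three_pow (k : ℕ) : ∀ n : ℤ, C k n < 3 ^ k := by
  induction k with
  | zero => intro n; simp [C_zero]
  | succ k ih =>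
    intro n
    rw [C_succ']
    have h1 := ih (T n)
    have h2 : (3:ℤ) ^ S k (T n) ≤ 3 ^ k := pow_le_pow_right₀ (by norm_num) (S_le k (T n))
    have h3 : (par n : ℤ) ≤ 1 := by exact_mod_cast par_le_one n
    have h4 : (0:ℤ) ≤ par n := by positivity
    have h5 : (0:ℤ) < 3 ^ S k (T n) := by positivity
    have h6 : (3:ℤ) ^ S k (T n) * par n ≤ 3 ^ k * 1 := by
      apply mul_le_mul h2 h3 h4; positivity
    rw [pow_succ]; linarith

/-- composition formula for `C` -/
lemma C_add (k l : ℕ) (n : ℤ) :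
    C (k + l) n = 3 ^ (S l (T^[k] n)) * C k n + 2 ^ k * C l (T^[k] n) := by
  unfold C
  rw [S_add, pow_add, pow_add]
  have : T^[k + l] n = T^[l] (T^[k] n) := by rw [add_comm, Function.iterate_add_apply]
  rw [this]; ring

/-- If the residues modulo `2^k` agree then `S`, `C` agree. -/
lemma S_congr {k : ℕ} {n n' : ℤ} (h : (2:ℤ) ^ k ∣ n' - n) : S k n' = S k n := by
  obtain ⟨t, ht⟩ := h
  have : n' = n + 2 ^ k * t := by linarith
  rw [this, S_add_pow]

lemma C_congr {k : ℕ} {n n' : ℤ} (h : (2:ℤ) ^ k ∣ n' - n) : C k n' = C k n := by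
  obtain ⟨t, ht⟩ := h
  have : n' = n + 2 ^ k * t := by linarith
  rw [this, C_add_pow]

lemma E_congr {k : ℕ} {n n' m m' : ℤ} (h : (2:ℤ) ^ k ∣ n' - n) (h' : (2:ℤ) ^ k ∣ m' - m) :
    E k n' m' = E k n m := by
  obtain ⟨t, ht⟩ := h
  obtain ⟨t', ht'⟩ := h'
  have h1 : n' = n + 2 ^ k * t := by linarith
  have h2 : m' = m + 2 ^ k * t' := by linarith
  rw [h1, h2, E_add_pow]

/-- Generating sum over residues, abstract version. -/
lemma tree_sum (w φ : ℕ → ℤ → ℝ) (c : ℝ) (h0 : ∀ n, w 0 n = 1)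
    (h1 : ∀ k n, w (k+1) n = w k n * φ k n)
    (h2 : ∀ k n, w k (n + 2 ^ k) = w k n)
    (h3 : ∀ k n, φ k n + φ k (n + 2 ^ k) = c) (x : ℤ) (k : ℕ) :
    ∑ r ∈ Finset.range (2 ^ k), w k (x + r) = c ^ k := by
  induction k with
  | zero => simp [h0]
  | succ k ih =>
    have e1 : 2 ^ (k+1) = 2 ^ k + 2 ^ k := by ring
    rw [e1, Finset.sum_range_add, ← Finset.sum_add_distrib, pow_succ, ← ih, Finset.sum_mul]
    refine Finset.sum_congr rfl (fun r _ => ?_)
    have e2 : x + ((2 ^ k + r : ℕ) : ℤ) = (x + r) + 2 ^ k := by push_cast; ring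
    rw [e2, h1, h1, h2, ← mul_add, h3]

lemma sum_pow_S (Λ : ℝ) (x : ℤ) (k : ℕ) :
    ∑ r ∈ Finset.range (2 ^ k), Λ ^ (S k (x + r)) = (1 + Λ) ^ k := by
  refine tree_sum (fun k n => Λ ^ (S k n)) (fun k n => Λ ^ (bit k n)) (1 + Λ) ?_ ?_ ?_ ?_ x k
  · intro n; simp [S_zero]
  · intro k n; simp only [S_succ, pow_add]
  · intro k n
    have := S_add_pow k n 1
    simp only [mul_one] at this
    simp only [this]
  · intro k n
    simp only [bit_add_pow]
    rcases Nat.le_one_iff_eq_zero_or_eq_one.mp (bit_le_one k n) with h | h <;> rw [h] <;> simp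
    ring

lemma sum_pow_pair (lam mu : ℝ) (hmu : 2 * (lam * mu) = 1 + lam ^ 2) (h : ℤ) (x : ℤ) (k : ℕ) :
    ∑ r ∈ Finset.range (2 ^ k), lam ^ (S k (x + r)) * lam ^ (S k (x + r + h)) *
      mu ^ (E k (x + r) (x + r + h)) = (1 + lam ^ 2) ^ k := by
  refine tree_sum (fun k n => lam ^ (S k n) * lam ^ (S k (n + h)) * mu ^ (E k n (n + h)))
    (fun k n => lam ^ (bit k n) * lam ^ (bit k (n + h)) *
      mu ^ (if bit k n = bit k (n + h) then 0 else 1)) (1 + lam ^ 2) ?_ ?_ ?_ ?_ x k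
  · intro n; simp [S_zero, E_zero]
  · intro k n; simp only [S_succ, E_succ, pow_add]; ring
  · intro k n
    have a1 := S_add_pow k n 1
    have a2 := S_add_pow k (n + h) 1
    have a3 := E_add_pow k n (n + h) 1 1
    simp only [mul_one] at a1 a2 a3
    have e : n + 2 ^ k + h = n + h + 2 ^ k := by ring
    simp only [e, a1, a2, a3]
  · intro k n
    have e : n + 2 ^ k + h = n + h + 2 ^ k := by ring
    simp only [e, bit_add_pow]
    rcases Nat.le_one_iff_eq_zero_or_eq_one.mp (bit_le_one k n) with h1 | h1 <;>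
    rcases Nat.le_one_iff_eq_zero_or_eq_one.mp (bit_le_one k (n + h)) with h2 | h2 <;>
    rw [h1, h2] <;> simp <;> linarith

lemma sum_pow_E (ν : ℝ) (y : ℤ) (x : ℤ) (k : ℕ) :
    ∑ r ∈ Finset.range (2 ^ k), ν ^ (E k y (x + r)) = (1 + ν) ^ k := by
  refine tree_sum (fun k n => ν ^ (E k y n))
    (fun k n => ν ^ (if bit k y = bit k n then 0 else 1)) (1 + ν) ?_ ?_ ?_ ?_ x k
  · intro n; simp [E_zero]
  · intro k n; simp only [E_succ, pow_add]
  · intro k n
    have a3 := E_add_pow k y n 0 1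
    simp only [mul_one, mul_zero, add_zero] at a3
    simp only [a3]
  · intro k n
    simp only [bit_add_pow]
    rcases Nat.le_one_iff_eq_zero_or_eq_one.mp (bit_le_one k n) with h1 | h1 <;>
    rcases Nat.le_one_iff_eq_zero_or_eq_one.mp (bit_le_one k y) with h2 | h2 <;>
    rw [h1, h2] <;> simp <;> ring

end Pool.Agent.H30
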