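import Pool.Agent.H30.Pade

/-!
No small solutions of `3^I r ≡ q (mod 2^m)` for `I` close to `m log 2 / log 3`.
-/

set_option autoImplicit false

namespace Pool.Agent.H30

lemma six_two_pow_le (n c : ℕ) (h : 19 + 7 * c ≤ n) : 6 * 2 ^ c * 9 ^ n ≤ (10:ℤ) ^ n := by
  have h1 : Real.exp (1/10) ≤ 10 / 9 := by
    have := Real.one_sub_inv_le_log_of_pos (show (0:ℝ) < 10/9 by norm_num)
    norm_num at this
    calc Real.exp (1/10) ≤ Real.exp (Real.log (10/9)) := Real.exp_le_exp.mpr (by linarith)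
      _ = 10 / 9 := Real.exp_log (by norm_num)
  have h2 : (2:ℝ) ≤ Real.exp (7/10) := by
    have := Real.log_two_lt_d9
    calc (2:ℝ) = Real.exp (Real.log 2) := (Real.exp_log (by norm_num)).symm
      _ ≤ Real.exp (7/10) := Real.exp_le_exp.mpr (by linarith)
  have h3 : (6:ℝ) ≤ Real.exp (19/10) := by
    have e1 := Real.exp_one_gt_d9
    have e0 := Real.exp_pos (1/10)
    -- exp(19/10) = exp(2) / exp(1/10) ≥ 2.7182^2 * 9 / 10
    have : Real.exp (19/10) * Real.exp (1/10) = Real.exp 1 ^ 2 := by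
      rw [← Real.exp_nat_mul, ← Real.exp_add]; norm_num
    have e3 : Real.exp 1 ^ 2 ≥ 2.7182818283 ^ 2 := pow_le_pow_left₀ (by norm_num) e1.le 2
    by_contra hcon
    push Not at hcon
    have e4 : Real.exp (19/10) * Real.exp (1/10) ≤ 6 * (10/9) := by
      apply mul_le_mul hcon.le h1 (by positivity) (by norm_num)
    rw [this] at e4
    norm_num at e3 e4
    linarith
  have h4 : (6:ℝ) * 2 ^ c ≤ (10/9) ^ n := by
    calc (6:ℝ) * 2 ^ c ≤ Real.exp (19/10) * Real.exp (7/10) ^ c := by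
          apply mul_le_mul h3 (pow_le_pow_left₀ (by norm_num) h2 c) (by positivity) (by positivity)
      _ = Real.exp ((19 + 7 * c) / 10) := by
          rw [← Real.exp_nat_mul, ← Real.exp_add]; ring_nf
      _ ≤ Real.exp (n / 10) := by
          apply Real.exp_le_exp.mpr
          have : ((19 + 7 * c : ℕ) : ℝ) ≤ n := by exact_mod_cast h
          push_cast at this
          linarith
      _ = Real.exp (1/10) ^ n := by rw [← Real.exp_nat_mul]; ring_nf
      _ ≤ (10/9) ^ n := pow_le_pow_left₀ (Real.exp_pos _).le h1 n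
  have h5 : (6:ℝ) * 2 ^ c * 9 ^ n ≤ 10 ^ n := by
    rw [div_pow, le_div_iff₀ (by positivity)] at h4
    exact h4
  exact_mod_cast h5

theorem inj_key (m c I : ℕ) (hm : 1300 ≤ m) (hc : 50 * c ≤ m) (hI1 : 62 * m ≤ 100 * I)
    (hI2 : 100 * I ≤ 66 * m) (r q : ℤ) (hr : |r| < 2 ^ (c+1)) (hq : |q| < 3 ^ c)
    (hdvd : (2:ℤ) ^ m ∣ 3 ^ I * r - q) : r = 0 ∧ q = 0 := by
  obtain ⟨G, hG⟩ := hdvd
  set n := I / 4 with hn
  set i0 := (I - 4 * n) / 2 with hi0
  set e0 := (I - 4 * n) % 2 with he0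
  have hIdec : I = 2 * (2 * n + i0) + e0 := by omega
  have hi0' : i0 ≤ 1 := by omega
  have he0' : e0 ≤ 1 := by omega
  set k := 2 * n + i0 with hk
  have h3k : 3 * k ≤ m := by omega
  have hn1 : 19 + 7 * c ≤ n := by omega
  have hn2 : 2 * c + 9 ≤ n := by omega
  have hn3 : 3 ≤ n := by omega
  have e1 : (2:ℤ) ^ m = 8 ^ k * 2 ^ (m - 3 * k) := by
    have : (8:ℤ) ^ k = 2 ^ (3 * k) := by rw [pow_mul]; norm_num
    rw [this, ← pow_add]; congr 1; omega
  have e2 : (3:ℤ) ^ I = 9 ^ k * 3 ^ e0 := by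
    have : (9:ℤ) ^ k = 3 ^ (2 * k) := by rw [pow_mul]; norm_num
    rw [this, ← pow_add]; congr 1
  have heq : 9 ^ k * (3 ^ e0 * r) = 8 ^ k * (2 ^ (m - 3 * k) * G) + q := by
    have : 3 ^ I * r = 2 ^ m * G + q := by linarith
    rw [e2, e1] at this
    linarith
  have h3e : (3:ℤ) ^ e0 ≤ 3 := by interval_cases e0 <;> norm_num
  have hr' : |3 ^ e0 * r| * 9 ^ n ≤ 10 ^ n := by
    have a1 : |3 ^ e0 * r| ≤ 6 * 2 ^ c := by
      rw [abs_mul, abs_of_pos (by positivity)]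
      have : |r| ≤ 2 ^ (c+1) := hr.le
      calc (3:ℤ) ^ e0 * |r| ≤ 3 * 2 ^ (c+1) := by gcongr
        _ = 6 * 2 ^ c := by ring
    calc |3 ^ e0 * r| * 9 ^ n ≤ 6 * 2 ^ c * 9 ^ n := by gcongr
      _ ≤ 10 ^ n := six_two_pow_le n c hn1
  have hq' : 300 * |q| ≤ 2 ^ n := by
    have b1 : (3:ℤ) ^ c ≤ 2 ^ (2 * c) := by
      rw [pow_mul]; exact pow_le_pow_left₀ (by norm_num) (by norm_num) c
    calc 300 * |q| ≤ 300 * 2 ^ (2 * c) := by linarith
      _ ≤ 2 ^ 9 * 2 ^ (2 * c) := by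
          have : (0:ℤ) < 2 ^ (2*c) := by positivity
          nlinarith
      _ = 2 ^ (2 * c + 9) := by rw [← pow_add]; congr 1; ring
      _ ≤ 2 ^ n := pow_le_pow_right₀ (by norm_num) hn2
  have hz := pade_apply n i0 hi0' hn3 (3 ^ e0 * r) (2 ^ (m - 3 * k) * G) q heq hr' hq'
  have hr0 : r = 0 := by
    rcases mul_eq_zero.mp hz with h | h
    · exact absurd h (pow_ne_zero _ (by norm_num))
    · exact h
  refine ⟨hr0, ?_⟩
  rw [hr0, mul_zero, zero_sub] at hG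
  have hdq : (2:ℤ) ^ m ∣ q := ⟨-G, by linarith⟩
  apply Int.eq_zero_of_abs_lt_dvd hdq
  calc |q| < 3 ^ c := hq
    _ ≤ 2 ^ (2 * c) := by
      rw [pow_mul]; exact pow_le_pow_left₀ (by norm_num) (by norm_num) c
    _ ≤ 2 ^ m := pow_le_pow_right₀ (by norm_num) (by omega)

end Pool.Agent.H30
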