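import Pool.Agent.H30.Core
import Pool.Agent.H30.Inj

/-!
Analytic consequences of the core estimate.
-/

set_option autoImplicit false

namespace Pool.Agent.H30

open Finset

lemma al_ge : (63:ℝ)/100 ≤ al := by
  unfold al
  rw [le_div_iff₀ log_three_pos]
  have h : Real.log (3 ^ 63) ≤ Real.log (2 ^ 100) :=
    Real.log_le_log (by norm_num) (by norm_num)
  rw [Real.log_pow, Real.log_pow] at h
  push_cast at h
  linarith

lemma al_le : al ≤ (64:ℝ)/100 := by
  unfold al
  rw [div_le_iff₀ log_three_pos]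
  have h : Real.log (2 ^ 100) ≤ Real.log (3 ^ 64) :=
    Real.log_le_log (by norm_num) (by norm_num)
  rw [Real.log_pow, Real.log_pow] at h
  push_cast at h
  linarith

/-- `2^i ≤ 3^j 2^t` in logarithmic form. -/
lemma log_form {i j t : ℕ} (h : (2:ℕ) ^ i ≤ 3 ^ j * 2 ^ t) : al * i ≤ j + al * t := by
  have h1 : ((2:ℝ)) ^ i ≤ 3 ^ j * 2 ^ t := by exact_mod_cast h
  have h2 : Real.log ((2:ℝ) ^ i) ≤ Real.log (3 ^ j * 2 ^ t) := Real.log_le_log (by positivity) h1
  rw [Real.log_mul (by positivity) (by positivity), Real.log_pow, Real.log_pow, Real.log_pow] at h2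
  have h3 := al_mul_log_three
  rw [← h3] at h2
  have h4 := log_three_pos
  have h5 : (al * i) * Real.log 3 ≤ (j + al * t) * Real.log 3 := by linarith
  exact le_of_mul_le_mul_right h5 h4

lemma W_exp (k s : ℕ) :
    W k s = Real.exp (th * Real.log 2 * k + Real.log La * (al * k - s)) := by
  unfold W
  rw [W_eq, Real.rpow_def_of_pos (by norm_num), Real.rpow_def_of_pos La_pos, ← Real.exp_add]
  ring_nf

lemma log_La_pos : 0 < Real.log La := Real.log_pos one_lt_La

lemma log_mu_pos : 0 < Real.log mu := Real.log_pos one_lt_mu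

section

variable {a c b s Q : ℕ} {A Z : ℤ} {G : Finset ℤ}

/-- Entropy bound: `G` injects into pairs of residues. -/
lemma card_le_prod (hG : ∀ n ∈ G, A ≤ n ∧ n < A + 2 ^ (a+c)) (hb : ∀ n ∈ G, S a n = b)
    (hs : ∀ n ∈ G, S c (T^[a] n) = s) :
    (G.card : ℝ) ≤ W a b * (Rc c s).card := by
  have hpa : (0:ℤ) < 2 ^ a := by positivity
  have hpc : (0:ℤ) < 2 ^ c := by positivity
  have hcard : G.card ≤ (Rc a b ×ˢ Rc c s).card := by
    refine card_le_card_of_injOn (fun n => (n % 2 ^ a, T^[a] n % 2 ^ c)) ?_ ?_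
    · intro n hn
      rw [mem_coe, mem_product]
      exact ⟨mem_Rc (hb n hn), mem_Rc (hs n hn)⟩
    · intro n hn n' hn' heq
      simp only [Prod.mk.injEq] at heq
      obtain ⟨h1, h2⟩ := heq
      obtain ⟨y, hy⟩ := dvd_sub_of_emod_eq h1
      have hy' : n = n' + 2 ^ a * y := by linarith
      have e1 : T^[a] n = T^[a] n' + 3 ^ b * y := by rw [hy', iter_add, hb n' hn']
      have d1 : (2:ℤ) ^ c ∣ y := by
        apply dvd_of_dvd_three_mul (j := b)
        have := dvd_sub_of_emod_eq h2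
        rw [e1] at this
        simpa using this
      have b1 := hG n hn
      have b2 := hG n' hn'
      have h3 : |2 ^ a * y| < 2 ^ a * 2 ^ c := by
        rw [← pow_add, abs_lt]
        constructor <;> linarith
      rw [abs_mul, abs_of_pos hpa] at h3
      have h4 : |y| < 2 ^ c := lt_of_mul_lt_mul_left h3 hpa.le
      have := Int.eq_zero_of_abs_lt_dvd d1 h4
      rw [hy', this]; ring
  rw [card_product] at hcard
  have h1 : (G.card : ℝ) ≤ (Rc a b).card * (Rc c s).card := by exact_mod_cast hcard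
  refine le_trans h1 ?_
  exact mul_le_mul_of_nonneg_right (card_Rc a b) (Nat.cast_nonneg _)

/-- tilted bound for the number of residues -/
lemma card_Rc_tilt (c s : ℕ) (x : ℝ) (hx : 0 < x) :
    ((Rc c s).card : ℝ) ≤ (1 + x) ^ c / x ^ s := by
  have h1 : ((Rc c s).card : ℝ) ≤
      (((range (2 ^ c)).filter (fun r : ℕ => S c ((0:ℤ) + r) = s)).card : ℝ) := by
    exact_mod_cast card_image_le
  refine le_trans h1 ?_
  have h := sum_pow_S x 0 c
  rw [← h, le_div_iff₀ (by positivity)]
  calc (((range (2 ^ c)).filter (fun r : ℕ => S c ((0:ℤ) + r) = s)).card : ℝ) * x ^ s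
      = ∑ r ∈ (range (2 ^ c)).filter (fun r : ℕ => S c ((0:ℤ) + r) = s), x ^ s := by
        rw [sum_const, nsmul_eq_mul]
    _ = ∑ r ∈ (range (2 ^ c)).filter (fun r : ℕ => S c ((0:ℤ) + r) = s), x ^ (S c ((0:ℤ) + r)) := by
        refine sum_congr rfl (fun r hr => ?_)
        rw [(mem_filter.mp hr).2]
    _ ≤ ∑ r ∈ range (2 ^ c), x ^ (S c ((0:ℤ) + r)) := by
        refine sum_le_sum_of_subset_of_nonneg (filter_subset _ _) (fun r _ _ => by positivity)

/-- Quadratic gain when the number of odd steps is too small. -/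
lemma card_Rc_dev (c s : ℕ) (ξ : ℝ) (hξ : 0 < ξ) :
    ((Rc c s).card : ℝ) ≤ W c s * Real.exp (ξ ^ 2 * c / 2 + ξ * (s - al * c)) := by
  have hL := La_pos
  have ha := al_pos
  have ha1 := al_lt_one
  have h1 := card_Rc_tilt c s (La * Real.exp (-ξ)) (by positivity)
  refine le_trans h1 ?_
  -- 1 + La e^{-ξ} = (1+La) (1 - al + al e^{-ξ})
  have e1 : 1 + La * Real.exp (-ξ) = (1 + La) * (1 - al + al * Real.exp (-ξ)) := by
    have hne : (1 - al) ≠ 0 := by linarith
    rw [one_add_La]
    unfold La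
    field_simp
  have e2 : 1 - al + al * Real.exp (-ξ) ≤ Real.exp (-(al * ξ) + ξ ^ 2 / 2) := by
    have q1 : Real.exp (-ξ) ≤ 1 - ξ + ξ ^ 2 / 2 := by
      have h := Real.quadratic_le_exp_of_nonneg hξ.le
      -- exp(ξ) ≥ 1 + ξ + ξ²/2
      have hpos := Real.exp_pos ξ
      have hp : Real.exp (-ξ) * Real.exp ξ = 1 := by rw [← Real.exp_add]; simp
      have h2 : 1 ≤ (1 - ξ + ξ ^ 2 / 2) * (1 + ξ + ξ ^ 2 / 2) := by nlinarith [sq_nonneg (ξ^2)]
      have h3 : 0 < 1 - ξ + ξ ^ 2 / 2 := by nlinarith [sq_nonneg (ξ - 1)]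
      have h4 : 1 ≤ (1 - ξ + ξ ^ 2 / 2) * Real.exp ξ := by nlinarith
      have h5 : Real.exp (-ξ) * 1 ≤ Real.exp (-ξ) * ((1 - ξ + ξ ^ 2 / 2) * Real.exp ξ) :=
        mul_le_mul_of_nonneg_left h4 (Real.exp_pos _).le
      calc Real.exp (-ξ) = Real.exp (-ξ) * 1 := by ring
        _ ≤ Real.exp (-ξ) * ((1 - ξ + ξ ^ 2 / 2) * Real.exp ξ) := h5
        _ = (1 - ξ + ξ ^ 2 / 2) * (Real.exp (-ξ) * Real.exp ξ) := by ring
        _ = 1 - ξ + ξ ^ 2 / 2 := by rw [hp, mul_one]
    have q2 := Real.add_one_le_exp (-(al * ξ) + ξ ^ 2 / 2)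
    have q3 : al * Real.exp (-ξ) ≤ al * (1 - ξ + ξ ^ 2 / 2) := mul_le_mul_of_nonneg_left q1 ha.le
    have q4 : al * (ξ ^ 2 / 2) ≤ ξ ^ 2 / 2 := by nlinarith [sq_nonneg ξ]
    linarith
  have e3 : 0 < 1 - al + al * Real.exp (-ξ) := by
    have := Real.exp_pos (-ξ)
    have : 0 < al * Real.exp (-ξ) := by positivity
    linarith
  rw [e1, mul_pow, mul_pow, W_eq_div]
  calc (1 + La) ^ c * (1 - al + al * Real.exp (-ξ)) ^ c / (La ^ s * Real.exp (-ξ) ^ s)
      = (1 + La) ^ c / La ^ s * ((1 - al + al * Real.exp (-ξ)) ^ c * (Real.exp (-ξ) ^ s)⁻¹) := by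
        field_simp
    _ ≤ (1 + La) ^ c / La ^ s * (Real.exp (-(al * ξ) + ξ ^ 2 / 2) ^ c * (Real.exp (-ξ) ^ s)⁻¹) := by
        apply mul_le_mul_of_nonneg_left _ (by positivity)
        apply mul_le_mul_of_nonneg_right _ (by positivity)
        exact pow_le_pow_left₀ e3.le e2 c
    _ = (1 + La) ^ c / La ^ s * Real.exp (ξ ^ 2 * c / 2 + ξ * (s - al * c)) := by
        congr 1
        rw [← Real.exp_nat_mul, ← Real.exp_nat_mul, ← Real.exp_neg, ← Real.exp_add]
        congr 1; ring

/-- elementary quadratic inequality -/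
lemma le_of_sq_le {x u v : ℝ} (hu : 0 ≤ u) (hv : 0 ≤ v) (h : x ^ 2 ≤ x * u + v) :
    x ≤ u + Real.sqrt v := by
  by_contra hcon
  push Not at hcon
  have hs := Real.sqrt_nonneg v
  have hsq := Real.sq_sqrt hv
  have h1 : x * (u + Real.sqrt v) < x * x := by
    apply mul_lt_mul_of_pos_left hcon
    linarith
  have h2 : Real.sqrt v * Real.sqrt v ≤ x * Real.sqrt v := by
    apply mul_le_mul_of_nonneg_right _ hs
    linarith
  nlinarith

/-- Case C of the class bound. -/
lemma caseC {m t : ℕ} {κ κ₁ ε ν g : ℝ}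
    (hm : 1300 ≤ m) (hc : c = m / 50) (ha : a = m - m / 50)
    (hκ : κ ≤ 1/100) (hκ₁0 : 0 ≤ κ₁) (hκ₁ : κ₁ ≤ 1/50) (hε : 0 < ε) (hν : 0 < ν) (hν1 : ν ≤ 1)
    (hg : g = th * Real.log 2 / 50) (hνg : ν ≤ g / 4) (hνε : Real.log (1/ν) * ε ≤ g / 4)
    (hκg : Real.log La * κ ≤ g / 4)
    (hκ₁2 : 2 * κ₁ * (Real.log 3 + Real.log La) ≤ Real.log mu * ε / 4)
    (hκ2 : 2 * Real.log La * κ ≤ Real.log mu * ε / 4)
    (ht : (t:ℝ) ≤ κ * m) (hQ1 : 1 ≤ Q)
    (hG : ∀ n ∈ G, A ≤ n ∧ n < A + 2 ^ (a+c)) (hb : ∀ n ∈ G, S a n = b)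
    (hs : ∀ n ∈ G, S c (T^[a] n) = s)
    (hZ : ∀ n ∈ G, Z ≤ T^[a] n ∧ T^[a] n < Z + ((3 ^ b * 2 ^ (c+1) : ℕ) : ℤ))
    (hQ : ∀ z : ℤ, (G.filter (fun n => T^[a] n = z)).card ≤ Q)
    (g1 : 2 ^ a ≤ 3 ^ b * 2 ^ t) (g2 : 2 ^ (a+c) ≤ 3 ^ (b+s) * 2 ^ t)
    (g3 : ∀ n ∈ G, 2 ^ (a+c+a) ≤ 3 ^ (b+s+S a (T^[a+c] n)) * 2 ^ t)
    (hβ : (b:ℝ) - al * a ≤ 2 * κ₁ * m) (hβσ : ((b + s : ℕ) : ℝ) - al * m ≤ κ₁ * m) :
    (G.card : ℝ) ≤ Real.exp (th * Real.log 2) * Real.exp ((th * Real.log 2 - g / 4) * m) +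
      6 * Q * Real.exp (Real.log mu) *
        Real.exp ((th * Real.log 2 - Real.log mu * ε / 4) * m) := by
  have hL := log_La_pos
  have hM := log_mu_pos
  have hL3 := log_three_pos
  have hL2 := log_two_pos
  have hth := th_pos
  have hal := al_pos
  have hal1 := al_lt_one
  have hal2 := al_ge
  have hal3 := al_le
  have hmR : (1300:ℝ) ≤ m := by exact_mod_cast hm
  have ht0 : (0:ℝ) ≤ t := Nat.cast_nonneg t
  have hac : a + c = m := by omega
  have hacR : (a:ℝ) + c = m := by exact_mod_cast hac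
  have hcR : (m:ℝ) / 50 - 1 ≤ c := by
    have : m < 50 * (c + 1) := by omega
    have : (m:ℝ) < 50 * (c + 1) := by exact_mod_cast this
    linarith
  have hc0 : (0:ℝ) ≤ c := Nat.cast_nonneg c
  have ha0 : (0:ℝ) ≤ a := Nat.cast_nonneg a
  have hm0 : (0:ℝ) ≤ m := by linarith
  have halt : al * t ≤ κ * m := le_trans (mul_le_of_le_one_left ht0 hal1.le) ht
  have hκm : κ * m ≤ 1/100 * m := mul_le_mul_of_nonneg_right hκ hm0
  have hκ₁m : κ₁ * m ≤ 1/50 * m := mul_le_mul_of_nonneg_right hκ₁ hm0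
  have halm1 : 63/100 * (m:ℝ) ≤ al * m := mul_le_mul_of_nonneg_right hal2 hm0
  have halm2 : al * m ≤ 64/100 * (m:ℝ) := mul_le_mul_of_nonneg_right hal3 hm0
  have l1 := log_form g1
  have l2 := log_form g2
  push_cast at l2 hβσ
  have l2' : al * m ≤ b + s + al * t := by rw [← hacR]; exact l2
  -- injectivity
  have hI1 : 62 * m ≤ 100 * (b + s) := by
    have : (62:ℝ) * m ≤ 100 * (b + s) := by linarith
    exact_mod_cast this
  have hI2 : 100 * (b + s) ≤ 66 * m := by
    have : (100:ℝ) * (b + s) ≤ 66 * m := by linarith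
    exact_mod_cast this
  set D : ℕ := ⌈al * (m + a - t)⌉₊ with hD
  set Amin : ℕ := D - (b + s) with hAmin
  have hDle : al * (m + a - t) ≤ (b:ℝ) + s + Amin := by
    have h1 : al * (m + a - t) ≤ D := Nat.le_ceil _
    have h2 : (D:ℝ) ≤ b + s + Amin := by
      have : D ≤ b + s + Amin := by omega
      exact_mod_cast this
    linarith
  have hcls : Cls a c b s Amin Q A Z G := by
    refine ⟨hG, hb, hs, ?_, hZ, hQ, ?_⟩
    · intro n hn
      have h1 := log_form (g3 n hn)
      push_cast at h1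
      have h2 : D ≤ b + s + S a (T^[a+c] n) := by
        rw [hD]
        apply Nat.ceil_le.mpr
        push_cast
        rw [← hacR]; linarith
      omega
    · intro r q hr hq hd
      rw [hac] at hd
      exact inj_key m c (b+s) hm (by omega) hI1 hI2 r q hr hq hd
  set e : ℕ := ⌊ε * m⌋₊ with he
  have heR : ε * m - 1 ≤ e := by
    have := Nat.lt_floor_add_one (ε * m); linarith
  have heR' : (e:ℝ) ≤ ε * m := Nat.floor_le (by positivity)
  have hcore := hcls.core ν hν hν1 e
  set N : ℝ := (1 + ν) ^ a * (ν ^ e)⁻¹ with hN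
  set MQ : ℕ := Q * (3 ^ b * 2 ^ (c+1) / 2 ^ (a+c) + 1) with hMQ
  set U1 : ℝ := W a b * N with hU1
  set U2 : ℝ := 2 * (W a b * W c s * W a Amin) * W c s * MQ * (mu ^ e)⁻¹ with hU2
  have hmu := mu_pos
  have hW1 := W_pos a b
  have hW2 := W_pos c s
  have hW3 := W_pos a Amin
  have hU1p : 0 ≤ U1 := by positivity
  have hU2p : 0 ≤ U2 := by positivity
  have hq : (G.card : ℝ) ^ 2 ≤ G.card * U1 + U2 := by
    refine le_trans hcore (le_of_eq ?_)
    rw [hU1, hU2]; ring
  have hmain := le_of_sq_le hU1p hU2p hq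
  refine le_trans hmain (add_le_add ?_ ?_)
  · -- U1
    have n1 : (1 + ν) ^ a ≤ Real.exp (ν * a) := by
      have := Real.add_one_le_exp ν
      calc (1 + ν) ^ a ≤ (Real.exp ν) ^ a := pow_le_pow_left₀ (by linarith) (by linarith) a
        _ = Real.exp (ν * a) := by rw [← Real.exp_nat_mul]; ring_nf
    have n2 : (ν ^ e)⁻¹ = Real.exp (Real.log (1/ν) * e) := by
      rw [Real.log_div one_ne_zero hν.ne', Real.log_one, zero_sub]
      rw [show -Real.log ν * (e:ℝ) = -((e:ℝ) * Real.log ν) by ring, Real.exp_neg,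
        Real.exp_nat_mul, Real.exp_log hν]
    have n3 : 0 ≤ Real.log (1/ν) := Real.log_nonneg (by rw [le_div_iff₀ hν]; linarith)
    rw [hU1, hN, W_exp, n2]
    calc Real.exp (th * Real.log 2 * a + Real.log La * (al * a - b)) *
          ((1 + ν) ^ a * Real.exp (Real.log (1/ν) * e))
        ≤ Real.exp (th * Real.log 2 * a + Real.log La * (al * a - b)) *
          (Real.exp (ν * a) * Real.exp (Real.log (1/ν) * e)) := by
          gcongr
      _ = Real.exp (th * Real.log 2 * a + Real.log La * (al * a - b) + ν * a +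
            Real.log (1/ν) * e) := by
          rw [← Real.exp_add, ← Real.exp_add]; ring_nf
      _ ≤ Real.exp (th * Real.log 2 + (th * Real.log 2 - g / 4) * m) := by
          apply Real.exp_le_exp.mpr
          have p1 : th * Real.log 2 * a ≤ th * Real.log 2 * m - g * m + th * Real.log 2 := by
            have : (a:ℝ) ≤ m - (m / 50 - 1) := by linarith
            have := mul_le_mul_of_nonneg_left this (show 0 ≤ th * Real.log 2 by positivity)
            rw [hg]; linarith
          have p2 : Real.log La * (al * a - b) ≤ g / 4 * m := by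
            have : al * a - b ≤ κ * m := by linarith
            have := mul_le_mul_of_nonneg_left this hL.le
            have h5 : Real.log La * κ * m ≤ g / 4 * m := by
              apply mul_le_mul_of_nonneg_right hκg; linarith
            linarith
          have p3 : ν * a ≤ g / 4 * m := by
            apply mul_le_mul hνg _ ha0 _
            · linarith
            · rw [hg]; positivity
          have p4 : Real.log (1/ν) * e ≤ g / 4 * m := by
            have h6 := mul_le_mul_of_nonneg_left heR' n3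
            have h7 : Real.log (1/ν) * ε * m ≤ g / 4 * m := by
              apply mul_le_mul_of_nonneg_right hνε; linarith
            linarith
          linarith
      _ = Real.exp (th * Real.log 2) * Real.exp ((th * Real.log 2 - g / 4) * m) := by
          rw [← Real.exp_add]
  · -- U2
    have k1 : (MQ : ℝ) ≤ Q * (3 * Real.exp (2 * κ₁ * m * Real.log 3)) := by
      rw [hMQ]
      push_cast
      apply mul_le_mul_of_nonneg_left _ (Nat.cast_nonneg Q)
      have h1 : ((3 ^ b * 2 ^ (c+1) / 2 ^ (a+c) : ℕ) : ℝ) ≤ (3 ^ b * 2 ^ (c+1) : ℝ) / 2 ^ (a+c) := by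
        have := @Nat.cast_div_le ℝ _ _ _ (3 ^ b * 2 ^ (c+1)) (2 ^ (a+c))
        push_cast at this
        exact this
      have h2 : (3 ^ b * 2 ^ (c+1) : ℝ) / 2 ^ (a+c) = 2 * (3 ^ b / 2 ^ a) := by
        rw [pow_succ, pow_add]; field_simp
      have h3 : (3:ℝ) ^ b / 2 ^ a = Real.exp ((b - al * a) * Real.log 3) := by
        rw [sub_mul, Real.exp_sub, mul_assoc, mul_comm (a:ℝ), ← mul_assoc, al_mul_log_three,
          mul_comm (Real.log 2), Real.exp_nat_mul, Real.exp_nat_mul, Real.exp_log (by norm_num),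
          Real.exp_log (by norm_num)]
      have h4 : Real.exp ((b - al * a) * Real.log 3) ≤ Real.exp (2 * κ₁ * m * Real.log 3) := by
        apply Real.exp_le_exp.mpr
        exact mul_le_mul_of_nonneg_right hβ hL3.le
      have h5 : 1 ≤ Real.exp (2 * κ₁ * m * Real.log 3) := by
        apply Real.one_le_exp
        positivity
      linarith
    have k2 : W a b * W c s * W a Amin ≤
        Real.exp (th * Real.log 2 * (m + a) + Real.log La * (κ * m)) := by
      rw [W_exp, W_exp, W_exp, ← Real.exp_add, ← Real.exp_add]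
      apply Real.exp_le_exp.mpr
      have q1 : al * (m + a) - (b + s + Amin) ≤ κ * m := by
        have : al * (m + a - t) = al * (m + a) - al * t := by ring
        linarith
      have q2 := mul_le_mul_of_nonneg_left q1 hL.le
      have q3 : th * Real.log 2 * (m + a) = th * Real.log 2 * a + th * Real.log 2 * c +
          th * Real.log 2 * a := by rw [← hacR]; ring
      have q4 : Real.log La * (al * (m + a) - (b + s + Amin)) =
        Real.log La * (al * a - b) + Real.log La * (al * c - s) +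
          Real.log La * (al * a - Amin) := by rw [← hacR]; ring
      linarith
    have k3 : W c s ≤ Real.exp (th * Real.log 2 * c + Real.log La * ((κ + 2 * κ₁) * m)) := by
      rw [W_exp]
      apply Real.exp_le_exp.mpr
      have q1 : al * c - s ≤ (κ + 2 * κ₁) * m := by
        have : al * c = al * m - al * a := by rw [← hacR]; ring
        linarith
      have q2 := mul_le_mul_of_nonneg_left q1 hL.le
      linarith
    have k4 : (mu ^ e)⁻¹ ≤ Real.exp (Real.log mu - Real.log mu * ε * m) := by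
      have : (mu ^ e)⁻¹ = Real.exp (-((e:ℝ) * Real.log mu)) := by
        rw [Real.exp_neg, Real.exp_nat_mul, Real.exp_log hmu]
      rw [this]
      apply Real.exp_le_exp.mpr
      have := mul_le_mul_of_nonneg_left heR hM.le
      linarith
    have hQR : (1:ℝ) ≤ Q := by exact_mod_cast hQ1
    have k5 : U2 ≤ 6 * Q * Real.exp (Real.log mu) *
        Real.exp (2 * ((th * Real.log 2 - Real.log mu * ε / 4) * m)) := by
      have hMQ0 : (0:ℝ) ≤ MQ := Nat.cast_nonneg _
      calc U2 ≤ 2 * Real.exp (th * Real.log 2 * (m + a) + Real.log La * (κ * m)) *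
            Real.exp (th * Real.log 2 * c + Real.log La * ((κ + 2 * κ₁) * m)) *
            (Q * (3 * Real.exp (2 * κ₁ * m * Real.log 3))) *
            Real.exp (Real.log mu - Real.log mu * ε * m) := by
            rw [hU2]
            gcongr
        _ = 6 * Q * Real.exp (th * Real.log 2 * (m + a) + Real.log La * (κ * m) +
            (th * Real.log 2 * c + Real.log La * ((κ + 2 * κ₁) * m)) +
            2 * κ₁ * m * Real.log 3 + (Real.log mu - Real.log mu * ε * m)) := by
            have aux : ∀ x y z w : ℝ, 2 * Real.exp x * Real.exp y * (Q * (3 * Real.exp z)) *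
              Real.exp w = 6 * Q * Real.exp (x + y + z + w) := by
              intro x y z w
              rw [Real.exp_add, Real.exp_add, Real.exp_add]; ring
            exact aux _ _ _ _
        _ ≤ 6 * Q * Real.exp (Real.log mu +
              2 * ((th * Real.log 2 - Real.log mu * ε / 4) * m)) := by
            apply mul_le_mul_of_nonneg_left _ (by positivity)
            apply Real.exp_le_exp.mpr
            have q1 : th * Real.log 2 * (m + a) + th * Real.log 2 * c =
              2 * (th * Real.log 2) * m := by rw [← hacR]; ring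
            have q2 := mul_le_mul_of_nonneg_right hκ₁2 hm0
            have q3 := mul_le_mul_of_nonneg_right hκ2 hm0
            have q4 : Real.log La * (κ * m) + Real.log La * ((κ + 2 * κ₁) * m) +
              2 * κ₁ * m * Real.log 3 = 2 * Real.log La * κ * m +
                2 * κ₁ * (Real.log 3 + Real.log La) * m := by ring
            have q5 : 2 * ((th * Real.log 2 - Real.log mu * ε / 4) * m) =
              2 * (th * Real.log 2) * m - Real.log mu * ε / 4 * m - Real.log mu * ε / 4 * m := by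
                ring
            have q6 : Real.log mu * ε / 4 * m + Real.log mu * ε / 4 * m +
              Real.log mu * ε / 4 * m + Real.log mu * ε / 4 * m = Real.log mu * ε * m := by ring
            linarith
        _ = 6 * Q * Real.exp (Real.log mu) *
            Real.exp (2 * ((th * Real.log 2 - Real.log mu * ε / 4) * m)) := by
            rw [Real.exp_add]; ring
    apply Real.sqrt_le_iff.mpr
    constructor
    · positivity
    · refine le_trans k5 ?_
      have e1 : Real.exp (2 * ((th * Real.log 2 - Real.log mu * ε / 4) * m)) =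
          Real.exp ((th * Real.log 2 - Real.log mu * ε / 4) * m) ^ 2 := by
        rw [← Real.exp_nat_mul]; norm_num
      rw [e1, mul_pow]
      apply mul_le_mul_of_nonneg_right _ (by positivity)
      have e2 : 1 ≤ 6 * Q * Real.exp (Real.log mu) := by
        have q1 : 1 ≤ Real.exp (Real.log mu) := Real.one_le_exp hM.le
        have q2 : (1:ℝ) * 1 ≤ (6 * Q) * Real.exp (Real.log mu) := by
          apply mul_le_mul (by linarith) q1 (by norm_num) (by linarith)
        linarith
      rw [sq]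
      exact le_mul_of_one_le_left (by positivity) e2

end

/-- The class bound: each class `(b, s)` is exponentially smaller than `2^(θ m)`. -/
theorem class_bound : ∃ κ δ K : ℝ, 0 < κ ∧ κ ≤ 1/100 ∧ 0 < δ ∧ δ < th * Real.log 2 ∧ 0 < K ∧
    ∀ m t : ℕ, 1300 ≤ m → (t:ℝ) ≤ κ * m → ∀ (b s Q : ℕ) (A Z : ℤ) (G : Finset ℤ), 1 ≤ Q →
    (∀ n ∈ G, A ≤ n ∧ n < A + 2 ^ m) →
    (∀ n ∈ G, S (m - m/50) n = b) → (∀ n ∈ G, S (m/50) (T^[m - m/50] n) = s) →
    (∀ n ∈ G, Z ≤ T^[m - m/50] n ∧
      T^[m - m/50] n < Z + ((3 ^ b * 2 ^ (m/50+1) : ℕ) : ℤ)) →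
    (∀ z : ℤ, (G.filter (fun n => T^[m - m/50] n = z)).card ≤ Q) →
    2 ^ (m - m/50) ≤ 3 ^ b * 2 ^ t → 2 ^ m ≤ 3 ^ (b+s) * 2 ^ t →
    (∀ n ∈ G, 2 ^ (m + (m - m/50)) ≤ 3 ^ (b+s+S (m - m/50) (T^[m] n)) * 2 ^ t) →
    (G.card : ℝ) ≤ K * Q * Real.exp ((th * Real.log 2 - δ) * m) := by
  have hL := log_La_pos
  have hM := log_mu_pos
  have hL3 := log_three_pos
  have hL2 := log_two_pos
  have hth := th_pos
  have hal := al_pos
  have hal1 := al_lt_one
  set g : ℝ := th * Real.log 2 / 50 with hg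
  have hg0 : 0 < g := by positivity
  obtain ⟨ν, hν, hν1, hνg⟩ : ∃ ν : ℝ, 0 < ν ∧ ν ≤ 1 ∧ ν ≤ g / 4 :=
    ⟨min 1 (g/4), by positivity, min_le_left _ _, min_le_right _ _⟩
  have hlν : 0 ≤ Real.log (1/ν) := Real.log_nonneg (by rw [le_div_iff₀ hν]; linarith)
  obtain ⟨ε, hε, hνε⟩ : ∃ ε : ℝ, 0 < ε ∧ Real.log (1/ν) * ε ≤ g / 4 := by
    refine ⟨g / 4 / (1 + Real.log (1/ν)), by positivity, ?_⟩
    rw [mul_div_assoc', div_le_iff₀ (by positivity)]
    nlinarith
  obtain ⟨κ₁, hκ₁0, hκ₁, hκ₁2⟩ : ∃ κ₁ : ℝ, 0 < κ₁ ∧ κ₁ ≤ 1/50 ∧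
      2 * κ₁ * (Real.log 3 + Real.log La) ≤ Real.log mu * ε / 4 := by
    refine ⟨min (1/50) (Real.log mu * ε / 8 / (Real.log 3 + Real.log La)), by positivity,
      min_le_left _ _, ?_⟩
    have h1 : min (1/50) (Real.log mu * ε / 8 / (Real.log 3 + Real.log La)) ≤
      Real.log mu * ε / 8 / (Real.log 3 + Real.log La) := min_le_right _ _
    have h2 : 0 < Real.log 3 + Real.log La := by positivity
    calc 2 * min (1/50) (Real.log mu * ε / 8 / (Real.log 3 + Real.log La)) *
          (Real.log 3 + Real.log La)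
        ≤ 2 * (Real.log mu * ε / 8 / (Real.log 3 + Real.log La)) *
          (Real.log 3 + Real.log La) := by gcongr
      _ = Real.log mu * ε / 4 := by field_simp; ring
  obtain ⟨κ, hκ0, hκ, hκ2, hκ3, hκ4⟩ : ∃ κ : ℝ, 0 < κ ∧ κ ≤ 1/100 ∧
      2 * Real.log La * κ ≤ Real.log mu * ε / 4 ∧ Real.log La * κ ≤ g / 4 ∧
      Real.log La * κ ≤ κ₁ ^ 2 / 4 := by
    refine ⟨min (1/100) (min (Real.log mu * ε / 8 / Real.log La)
      (min (g / 4 / Real.log La) (κ₁ ^ 2 / 4 / Real.log La))), by positivity,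
      min_le_left _ _, ?_, ?_, ?_⟩
    · have h1 : min (1/100) (min (Real.log mu * ε / 8 / Real.log La)
        (min (g / 4 / Real.log La) (κ₁ ^ 2 / 4 / Real.log La))) ≤
          Real.log mu * ε / 8 / Real.log La :=
        le_trans (min_le_right _ _) (min_le_left _ _)
      rw [le_div_iff₀ hL] at h1
      linarith
    · have h1 : min (1/100) (min (Real.log mu * ε / 8 / Real.log La)
        (min (g / 4 / Real.log La) (κ₁ ^ 2 / 4 / Real.log La))) ≤
          g / 4 / Real.log La :=
        le_trans (min_le_right _ _) (le_trans (min_le_right _ _) (min_le_left _ _))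
      rw [le_div_iff₀ hL] at h1
      linarith
    · have h1 : min (1/100) (min (Real.log mu * ε / 8 / Real.log La)
        (min (g / 4 / Real.log La) (κ₁ ^ 2 / 4 / Real.log La))) ≤
          κ₁ ^ 2 / 4 / Real.log La :=
        le_trans (min_le_right _ _) (le_trans (min_le_right _ _) (min_le_right _ _))
      rw [le_div_iff₀ hL] at h1
      linarith
  set δ : ℝ := min (Real.log La * κ₁) (min (κ₁ ^ 2 / 4) (min (g / 4) (Real.log mu * ε / 4)))
    with hδ
  have hδ1 : δ ≤ Real.log La * κ₁ := min_le_left _ _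
  have hδ2 : δ ≤ κ₁ ^ 2 / 4 := le_trans (min_le_right _ _) (min_le_left _ _)
  have hδ3 : δ ≤ g / 4 :=
    le_trans (min_le_right _ _) (le_trans (min_le_right _ _) (min_le_left _ _))
  have hδ4 : δ ≤ Real.log mu * ε / 4 :=
    le_trans (min_le_right _ _) (le_trans (min_le_right _ _) (min_le_right _ _))
  refine ⟨κ, δ, 1 + Real.exp (th * Real.log 2) + 6 * Real.exp (Real.log mu), hκ0, hκ,
    by positivity, ?_, by positivity, ?_⟩
  · have : g / 4 < th * Real.log 2 := by
      have : 0 < th * Real.log 2 := by positivity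
      rw [hg]; linarith
    linarith
  intro m t hm ht b s Q A Z G hQ1 hG hb hs hZ hQ g1 g2 g3
  obtain ⟨a, ha⟩ : ∃ a, a = m - m/50 := ⟨_, rfl⟩
  obtain ⟨c, hc⟩ : ∃ c, c = m/50 := ⟨_, rfl⟩
  rw [← ha] at hb hs hZ hQ g1 g3
  rw [← hc] at hs hZ
  have hac : a + c = m := by omega
  have hacR : (a:ℝ) + c = m := by exact_mod_cast hac
  have hmR : (1300:ℝ) ≤ m := by exact_mod_cast hm
  have hm0 : (0:ℝ) ≤ m := by linarith
  have ht0 : (0:ℝ) ≤ t := Nat.cast_nonneg t
  have hc0 : (0:ℝ) ≤ c := Nat.cast_nonneg c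
  have ha0 : (0:ℝ) ≤ a := Nat.cast_nonneg a
  have hQR : (1:ℝ) ≤ Q := by exact_mod_cast hQ1
  have halt : al * t ≤ κ * m := le_trans (mul_le_of_le_one_left ht0 hal1.le) ht
  have hG' : ∀ n ∈ G, A ≤ n ∧ n < A + 2 ^ (a+c) := by rw [hac]; exact hG
  have hprod := card_le_prod hG' hb hs
  have hWW : W a b * W c s = Real.exp (th * Real.log 2 * m +
      Real.log La * (al * m - (b + s))) := by
    rw [W_exp, W_exp, ← Real.exp_add, ← hacR]; ring_nf
  have hWa := W_pos a b
  have hWc := W_pos c s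
  have l2 := log_form g2
  push_cast at l2
  set Y : ℝ := Real.exp ((th * Real.log 2 - δ) * m) with hY
  have hY0 : 0 < Y := Real.exp_pos _
  have hmono : ∀ x : ℝ, δ ≤ x → Real.exp ((th * Real.log 2 - x) * m) ≤ Y := by
    intro x hx
    apply Real.exp_le_exp.mpr
    apply mul_le_mul_of_nonneg_right _ hm0
    linarith
  have hE1 := Real.exp_pos (th * Real.log 2)
  have hE2 := Real.exp_pos (Real.log mu)
  have hfin : ∀ x : ℝ, x ≤ Y → x ≤ (1 + Real.exp (th * Real.log 2) +
      6 * Real.exp (Real.log mu)) * Q * Y := by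
    intro x hx
    have q1 : (1:ℝ) * 1 ≤ (1 + Real.exp (th * Real.log 2) + 6 * Real.exp (Real.log mu)) * Q := by
      apply mul_le_mul _ hQR (by norm_num) (by positivity)
      linarith
    have q2 : 1 * Y ≤ ((1 + Real.exp (th * Real.log 2) + 6 * Real.exp (Real.log mu)) * Q) * Y := by
      apply mul_le_mul_of_nonneg_right _ hY0.le
      linarith
    linarith
  rcases le_or_gt (κ₁ * m) ((b:ℝ) + s - al * m) with hA | hA
  · -- Case A
    apply hfin
    have h1 : (G.card : ℝ) ≤ W a b * W c s :=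
      le_trans hprod (mul_le_mul_of_nonneg_left (card_Rc c s) hWa.le)
    refine le_trans h1 (le_trans ?_ (hmono _ hδ1))
    rw [hWW]
    apply Real.exp_le_exp.mpr
    have h2 : al * m - (b + s) ≤ -(κ₁ * m) := by linarith
    have h3 := mul_le_mul_of_nonneg_left h2 hL.le
    linarith
  · rcases le_or_gt (2 * κ₁ * m) ((b:ℝ) - al * a) with hB | hB
    · -- Case B
      apply hfin
      have h1 : (G.card : ℝ) ≤ W a b * (W c s *
          Real.exp (κ₁ ^ 2 * c / 2 + κ₁ * (s - al * c))) :=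
        le_trans hprod (mul_le_mul_of_nonneg_left (card_Rc_dev c s κ₁ hκ₁0) hWa.le)
      refine le_trans h1 (le_trans ?_ (hmono _ hδ2))
      rw [← mul_assoc, hWW, ← Real.exp_add]
      apply Real.exp_le_exp.mpr
      have h2 : (s:ℝ) - al * c ≤ -(κ₁ * m) := by
        have : al * c = al * m - al * a := by rw [← hacR]; ring
        linarith
      have h3 := mul_le_mul_of_nonneg_left h2 hκ₁0.le
      have h4 : al * m - (b + s) ≤ κ * m := by
        have : al * (m:ℝ) = al * (a + c) := by rw [hacR]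
        rw [this]
        have e : (2:ℝ) = 2 := rfl
        have l2' : al * ((a:ℝ) + c) ≤ b + s + al * t := by rw [hacR]; exact l2
        linarith
      have h5 := mul_le_mul_of_nonneg_left h4 hL.le
      have h6 := mul_le_mul_of_nonneg_right hκ4 hm0
      have h7 : κ₁ ^ 2 * c / 2 ≤ κ₁ ^ 2 * m / 2 := by
        have : (c:ℝ) ≤ m := by linarith
        gcongr
      nlinarith
    · -- Case C
      have g2' : 2 ^ (a+c) ≤ 3 ^ (b+s) * 2 ^ t := by rw [hac]; exact g2
      have g3' : ∀ n ∈ G, 2 ^ (a+c+a) ≤ 3 ^ (b+s+S a (T^[a+c] n)) * 2 ^ t := by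
        rw [hac]; exact g3
      have h1 := caseC hm hc ha hκ hκ₁0.le hκ₁ hε hν hν1 hg hνg hνε hκ3 hκ₁2 hκ2 ht hQ1 hG' hb hs
        hZ hQ g1 g2' g3' hB.le (by push_cast; exact hA.le)
      refine le_trans h1 ?_
      have h2 := hmono _ hδ3
      have h3 := hmono _ hδ4
      have h4 : Real.exp (th * Real.log 2) * Real.exp ((th * Real.log 2 - g / 4) * m) ≤
        Real.exp (th * Real.log 2) * Q * Y := by
        have q1 : Real.exp (th * Real.log 2) * 1 ≤ Real.exp (th * Real.log 2) * Q :=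
          mul_le_mul_of_nonneg_left hQR hE1.le
        calc Real.exp (th * Real.log 2) * Real.exp ((th * Real.log 2 - g / 4) * m)
            ≤ Real.exp (th * Real.log 2) * Y := mul_le_mul_of_nonneg_left h2 hE1.le
          _ ≤ Real.exp (th * Real.log 2) * Q * Y := by
            apply mul_le_mul_of_nonneg_right _ hY0.le
            linarith
      have h5 : 6 * Q * Real.exp (Real.log mu) *
          Real.exp ((th * Real.log 2 - Real.log mu * ε / 4) * m) ≤
          6 * Q * Real.exp (Real.log mu) * Y := mul_le_mul_of_nonneg_left h3 (by positivity)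
      have h6 : 0 ≤ (Q:ℝ) * Y := by positivity
      linarith

end Pool.Agent.H30
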