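import Pool.Agent.H30.Basic

/-!
Real constants: `α = log 2 / log 3`, `Λ = α / (1 - α)`, `θ = H(α)` (binary entropy in bits).
-/

set_option autoImplicit false

namespace Pool.Agent.H30

open Real

/-- `α = log 2 / log 3`. -/
noncomputable def al : ℝ := Real.log 2 / Real.log 3

/-- `Λ = α/(1-α)`. -/
noncomputable def La : ℝ := al / (1 - al)

/-- `θ = H(α)`, binary entropy (base two) of `α`. -/
noncomputable def th : ℝ := Real.binEntropy al / Real.log 2

lemma log_two_pos : 0 < Real.log 2 := Real.log_pos (by norm_num)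
lemma log_three_pos : 0 < Real.log 3 := Real.log_pos (by norm_num)

lemma al_pos : 0 < al := div_pos log_two_pos log_three_pos

lemma al_lt_one : al < 1 := by
  unfold al
  rw [div_lt_one log_three_pos]
  exact Real.log_lt_log (by norm_num) (by norm_num)

lemma half_lt_al : 1 / 2 < al := by
  unfold al
  rw [lt_div_iff₀ log_three_pos]
  have : Real.log 3 < Real.log (2 ^ 2) := Real.log_lt_log (by norm_num) (by norm_num)
  rw [Real.log_pow] at this
  push_cast at this
  linarith

lemma al_mul_log_three : al * Real.log 3 = Real.log 2 := by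
  unfold al
  field_simp [log_three_pos.ne']

lemma three_rpow_al : (3:ℝ) ^ al = 2 := by
  rw [Real.rpow_def_of_pos (by norm_num), mul_comm, al_mul_log_three, Real.exp_log (by norm_num)]

lemma La_pos : 0 < La := div_pos al_pos (by linarith [al_lt_one])

lemma one_lt_La : 1 < La := by
  unfold La
  rw [lt_div_iff₀ (by linarith [al_lt_one])]
  linarith [half_lt_al]

lemma one_add_La : 1 + La = 1 / (1 - al) := by
  have : (1 - al) ≠ 0 := by linarith [al_lt_one]
  unfold La; field_simp; ring

lemma log_one_add_La : Real.log (1 + La) = th * Real.log 2 + al * Real.log La := by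
  have h1 : (1 - al) ≠ 0 := by linarith [al_lt_one]
  have h2 : th * Real.log 2 = Real.binEntropy al := by
    unfold th; field_simp [log_two_pos.ne']
  rw [h2, one_add_La]
  unfold Real.binEntropy La
  rw [Real.log_div one_ne_zero h1, Real.log_div al_pos.ne' h1, Real.log_inv, Real.log_inv,
    Real.log_one]
  ring

lemma th_pos : 0 < th := by
  unfold th
  exact div_pos (Real.binEntropy_pos al_pos al_lt_one) log_two_pos

lemma th_lt_one : th < 1 := by
  unfold th
  rw [div_lt_one log_two_pos]
  exact Real.binEntropy_lt_log_two.mpr (by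
    have := half_lt_al
    norm_num at this ⊢
    exact this.ne')

lemma one_add_La_eq : 1 + La = 2 ^ th * La ^ al := by
  have hL := La_pos
  rw [← Real.exp_log (show (0:ℝ) < 1 + La by linarith), log_one_add_La, Real.exp_add,
    Real.rpow_def_of_pos (by norm_num), Real.rpow_def_of_pos hL]
  ring_nf

/-- `(1+Λ)^l Λ^(-s) = 2^(θ l) Λ^(α l - s)`. -/
lemma W_eq (l : ℕ) (s : ℝ) : (1 + La) ^ l * La ^ (-s) = 2 ^ (th * l) * La ^ (al * l - s) := by
  have hL := La_pos
  rw [one_add_La_eq, mul_pow, ← Real.rpow_natCast (2 ^ th) l, ← Real.rpow_mul (by norm_num),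
    ← Real.rpow_natCast (La ^ al) l, ← Real.rpow_mul hL.le, mul_assoc, ← Real.rpow_add hL]
  ring_nf

end Pool.Agent.H30
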