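import Pool.Agent.H30.Const

/-!
The core pair-counting estimate.
-/

set_option autoImplicit false

namespace Pool.Agent.H30

open Finset

/-- `W k s = (1+Λ)^k Λ^(-s)`. -/
noncomputable def W (k s : ℕ) : ℝ := (1 + La) ^ k * La ^ (-(s:ℝ))

/-- `λ = √Λ`. -/
noncomputable def lam : ℝ := Real.sqrt La

/-- `μ = (1+Λ)/(2√Λ)`. -/
noncomputable def mu : ℝ := (1 + La) / (2 * Real.sqrt La)

lemma W_pos (k s : ℕ) : 0 < W k s := by
  unfold W
  have := La_pos
  positivity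

lemma W_eq_div (k s : ℕ) : W k s = (1 + La) ^ k / La ^ s := by
  unfold W
  rw [Real.rpow_neg La_pos.le, Real.rpow_natCast, div_eq_mul_inv]

lemma lam_pos : 0 < lam := Real.sqrt_pos.mpr La_pos

lemma lam_sq : lam ^ 2 = La := Real.sq_sqrt La_pos.le

lemma one_lt_lam : 1 < lam := by
  unfold lam
  rw [Real.lt_sqrt (by norm_num)]
  simpa using one_lt_La

lemma mu_rel : 2 * (lam * mu) = 1 + lam ^ 2 := by
  rw [lam_sq]
  unfold mu
  have h : Real.sqrt La ≠ 0 := lam_pos.ne'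
  unfold lam
  field_simp

lemma one_lt_mu : 1 < mu := by
  unfold mu
  have h : 0 < Real.sqrt La := lam_pos
  rw [lt_div_iff₀ (by positivity)]
  have h2 : lam ^ 2 = La := lam_sq
  have h3 : 1 < lam := one_lt_lam
  unfold lam at h2 h3
  nlinarith

lemma mu_pos : 0 < mu := by linarith [one_lt_mu]

/-- residues with exactly `s` odd steps -/
lemma card_S_eq (A : ℤ) (k s : ℕ) :
    (((range (2 ^ k)).filter (fun r : ℕ => S k (A + r) = s)).card : ℝ) ≤ W k s := by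
  have hL0 := La_pos
  have h := sum_pow_S La A k
  rw [W_eq_div, ← h, le_div_iff₀ (by positivity)]
  calc (((range (2 ^ k)).filter (fun r : ℕ => S k (A + r) = s)).card : ℝ) * La ^ s
      = ∑ r ∈ (range (2 ^ k)).filter (fun r : ℕ => S k (A + r) = s), La ^ s := by
        rw [sum_const, nsmul_eq_mul]
    _ = ∑ r ∈ (range (2 ^ k)).filter (fun r : ℕ => S k (A + r) = s), La ^ (S k (A + r)) := by
        refine sum_congr rfl (fun r hr => ?_)
        rw [(mem_filter.mp hr).2]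
    _ ≤ ∑ r ∈ range (2 ^ k), La ^ (S k (A + r)) := by
        refine sum_le_sum_of_subset_of_nonneg (filter_subset _ _) (fun r _ _ => by positivity)

/-- residues `x` such that both `x` and `x + h` have many odd steps but their parity words differ
often -/
lemma card_pair (k s e : ℕ) (h : ℤ) :
    (((range (2 ^ k)).filter (fun r : ℕ => s ≤ S k (r:ℤ) ∧ s ≤ S k ((r:ℤ) + h) ∧
      e ≤ E k (r:ℤ) ((r:ℤ) + h))).card : ℝ) ≤ W k s * (mu ^ e)⁻¹ := by
  have hL0 := La_pos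
  have hl := lam_pos
  have hl1 := one_lt_lam
  have hm := mu_pos
  have hm1 := one_lt_mu
  have hsum := sum_pow_pair lam mu mu_rel h 0 k
  rw [lam_sq] at hsum
  rw [W_eq_div, ← hsum]
  have hLs : La ^ s = lam ^ s * lam ^ s := by rw [← mul_pow, ← sq, lam_sq]
  rw [div_mul_eq_mul_div, le_div_iff₀ (by positivity), ← div_eq_mul_inv,
    le_div_iff₀ (by positivity)]
  set F := (range (2 ^ k)).filter (fun r : ℕ => s ≤ S k (r:ℤ) ∧ s ≤ S k ((r:ℤ) + h) ∧
      e ≤ E k (r:ℤ) ((r:ℤ) + h)) with hF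
  calc (F.card : ℝ) * La ^ s * mu ^ e
      = ∑ r ∈ F, lam ^ s * lam ^ s * mu ^ e := by
        rw [sum_const, nsmul_eq_mul, hLs]; ring
    _ ≤ ∑ r ∈ F, lam ^ (S k (0 + (r:ℤ))) * lam ^ (S k (0 + (r:ℤ) + h)) *
          mu ^ (E k (0 + (r:ℤ)) (0 + (r:ℤ) + h)) := by
        refine sum_le_sum (fun r hr => ?_)
        obtain ⟨h1, h2, h3⟩ := (mem_filter.mp hr).2
        rw [zero_add]
        have a1 : lam ^ s ≤ lam ^ (S k (r:ℤ)) := pow_le_pow_right₀ hl1.le h1
        have a2 : lam ^ s ≤ lam ^ (S k ((r:ℤ) + h)) := pow_le_pow_right₀ hl1.le h2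
        have a3 : mu ^ e ≤ mu ^ (E k (r:ℤ) ((r:ℤ) + h)) := pow_le_pow_right₀ hm1.le h3
        gcongr
    _ ≤ _ := by
        refine sum_le_sum_of_subset_of_nonneg (filter_subset _ _) (fun r _ _ => by positivity)

/-- residues whose parity word is close to that of `y` -/
lemma card_near (ν : ℝ) (hν : 0 < ν) (hν1 : ν ≤ 1) (k e : ℕ) (y : ℤ) :
    (((range (2 ^ k)).filter (fun r : ℕ => E k y (y + r) < e)).card : ℝ) ≤
      (1 + ν) ^ k * (ν ^ e)⁻¹ := by
  have hsum := sum_pow_E ν y y k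
  rw [← hsum, ← div_eq_mul_inv, le_div_iff₀ (by positivity)]
  set F := (range (2 ^ k)).filter (fun r : ℕ => E k y (y + r) < e) with hF
  calc (F.card : ℝ) * ν ^ e = ∑ r ∈ F, ν ^ e := by rw [sum_const, nsmul_eq_mul]
    _ ≤ ∑ r ∈ F, ν ^ (E k y (y + r)) := by
        refine sum_le_sum (fun r hr => ?_)
        exact pow_le_pow_of_le_one hν.le hν1 (mem_filter.mp hr).2.le
    _ ≤ _ := by
        refine sum_le_sum_of_subset_of_nonneg (filter_subset _ _) (fun r _ _ => by positivity)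

/-- Integers of a fixed residue class in an interval. -/
lemma card_class (F : Finset ℤ) (Z : ℤ) (len M : ℕ) (hM : 0 < M)
    (h1 : ∀ z ∈ F, Z ≤ z ∧ z < Z + len) (h2 : ∀ z ∈ F, ∀ z' ∈ F, (M:ℤ) ∣ z - z') :
    F.card ≤ len / M + 1 := by
  have hMpos : (0:ℤ) < M := by exact_mod_cast hM
  rw [← card_range (len / M + 1)]
  refine card_le_card_of_injOn (fun z => ((z - Z) / M).toNat) ?_ ?_
  · intro z hz
    have hz' := h1 z hz
    rw [mem_coe, mem_range]
    have h3 : (z - Z) / M ≤ (len:ℤ) / M := Int.ediv_le_ediv hMpos (by linarith)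
    have h4 : 0 ≤ (z - Z) / M := Int.ediv_nonneg (by linarith) hMpos.le
    have h5 : (((z - Z) / M).toNat : ℤ) ≤ ((len / M : ℕ) : ℤ) := by
      rw [Int.toNat_of_nonneg h4]; exact_mod_cast h3
    have : ((z - Z) / M).toNat ≤ len / M := by exact_mod_cast h5
    exact Nat.lt_succ_of_le this
  · intro z hz z' hz' heq
    have a1 := h1 z hz
    have a2 := h1 z' hz'
    have h4 : 0 ≤ (z - Z) / M := Int.ediv_nonneg (by linarith) hMpos.le
    have h4' : 0 ≤ (z' - Z) / M := Int.ediv_nonneg (by linarith) hMpos.le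
    have h5 : (z - Z) / M = (z' - Z) / M := by
      have : (((z - Z) / M).toNat : ℤ) = (((z' - Z) / M).toNat : ℤ) := by exact_mod_cast heq
      rwa [Int.toNat_of_nonneg h4, Int.toNat_of_nonneg h4'] at this
    have h6 : (z - Z) % M = (z' - Z) % M := by
      apply Int.emod_eq_emod_iff_emod_sub_eq_zero.mpr
      apply Int.emod_eq_zero_of_dvd
      have := h2 z hz z' hz'
      have e : z - Z - (z' - Z) = z - z' := by ring
      rw [e]; exact this
    have h7 := Int.mul_ediv_add_emod (z - Z) M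
    have h8 := Int.mul_ediv_add_emod (z' - Z) M
    rw [h5, h6] at h7
    linarith

/-- Hypotheses of the core estimate. -/
structure Cls (a c b s Amin Q : ℕ) (A Z : ℤ) (G : Finset ℤ) : Prop where
  hG : ∀ n ∈ G, A ≤ n ∧ n < A + 2 ^ (a+c)
  hb : ∀ n ∈ G, S a n = b
  hs : ∀ n ∈ G, S c (T^[a] n) = s
  hA : ∀ n ∈ G, Amin ≤ S a (T^[a+c] n)
  hZ : ∀ n ∈ G, Z ≤ T^[a] n ∧ T^[a] n < Z + ((3 ^ b * 2 ^ (c+1) : ℕ) : ℤ)
  hQ : ∀ z : ℤ, (G.filter (fun n => T^[a] n = z)).card ≤ Q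
  hinj : ∀ r q : ℤ, |r| < 2 ^ (c+1) → |q| < 3 ^ c → (2:ℤ) ^ (a+c) ∣ 3 ^ (b+s) * r - q →
    r = 0 ∧ q = 0

section

variable {a c b s Amin Q : ℕ} {A Z : ℤ} {G : Finset ℤ}

lemma Cls.rel (h : Cls a c b s Amin Q A Z G) {n n' y : ℤ} (hn : n ∈ G) (hn' : n' ∈ G)
    (hy : n' = n + 2 ^ a * y) : |y| < 2 ^ c ∧ T^[a] n' = T^[a] n + 3 ^ b * y ∧
    2 ^ c * (T^[a+c] n' - T^[a+c] n) =
      3 ^ (b+s) * y + (C c (T^[a] n') - C c (T^[a] n)) := by
  have h1 := h.hG n hn
  have h2 := h.hG n' hn'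
  have e1 : T^[a] n' = T^[a] n + 3 ^ b * y := by rw [hy, iter_add, h.hb n hn]
  refine ⟨?_, e1, ?_⟩
  · have h3 : |2 ^ a * y| < 2 ^ a * 2 ^ c := by
      rw [← pow_add, abs_lt]
      constructor
      · have : 2 ^ a * y = n' - n := by rw [hy]; ring
        rw [this]; linarith
      · have : 2 ^ a * y = n' - n := by rw [hy]; ring
        rw [this]; linarith
    rw [abs_mul, abs_of_pos (by positivity)] at h3
    exact lt_of_mul_lt_mul_left h3 (by positivity)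
  · have e2 : T^[a+c] n' = T^[c] (T^[a] n') := by rw [add_comm, Function.iterate_add_apply]
    have e3 : T^[a+c] n = T^[c] (T^[a] n) := by rw [add_comm, Function.iterate_add_apply]
    have s1 := C_spec c (T^[a] n')
    have s2 := C_spec c (T^[a] n)
    rw [h.hs n' hn'] at s1
    rw [h.hs n hn] at s2
    rw [e2, e3, mul_sub, s1, s2, e1, pow_add]
    ring

lemma abs_C_sub_lt (c : ℕ) (z z' : ℤ) : |C c z' - C c z| < 3 ^ c := by
  have h1 := C_nonneg c z
  have h2 := C_nonneg c z'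
  have h3 := C_lt_three_pow c z
  have h4 := C_lt_three_pow c z'
  rw [abs_lt]; constructor <;> linarith

/-- Bound for the number of partners with close parity words. -/
lemma Cls.near (h : Cls a c b s Amin Q A Z G) (ν : ℝ) (hν : 0 < ν) (hν1 : ν ≤ 1) (e : ℕ)
    (n : ℤ) :
    ((G.filter (fun n' => (2:ℤ) ^ a ∣ n' - n ∧ E a (T^[a+c] n) (T^[a+c] n') < e)).card : ℝ) ≤
      (1 + ν) ^ a * (ν ^ e)⁻¹ := by
  refine le_trans ?_ (card_near ν hν hν1 a e (T^[a+c] n))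
  norm_cast
  have hpa : (0:ℤ) < 2 ^ a := by positivity
  have hpa' : ((2 ^ a : ℕ) : ℤ) = 2 ^ a := by push_cast; ring
  refine card_le_card_of_injOn (fun n' => ((T^[a+c] n' - T^[a+c] n) % 2 ^ a).toNat) ?_ ?_
  · intro n' hn'
    rw [mem_coe, mem_filter] at hn'
    obtain ⟨hn1, hn2, hn3⟩ := hn'
    have h0 : 0 ≤ (T^[a+c] n' - T^[a+c] n) % 2 ^ a := Int.emod_nonneg _ hpa.ne'
    have h1 : (T^[a+c] n' - T^[a+c] n) % 2 ^ a < 2 ^ a := Int.emod_lt_of_pos _ hpa
    rw [mem_coe, mem_filter, mem_range]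
    constructor
    · have : ((((T^[a+c] n' - T^[a+c] n) % 2 ^ a).toNat : ℕ) : ℤ) < ((2 ^ a : ℕ) : ℤ) := by
        rw [Int.toNat_of_nonneg h0, hpa']; exact h1
      exact_mod_cast this
    · rw [Int.toNat_of_nonneg h0]
      have hdiv : (2:ℤ) ^ a ∣ (T^[a+c] n + (T^[a+c] n' - T^[a+c] n) % 2 ^ a) - T^[a+c] n' := by
        have := Int.mul_ediv_add_emod (T^[a+c] n' - T^[a+c] n) (2 ^ a)
        refine ⟨-((T^[a+c] n' - T^[a+c] n) / 2 ^ a), ?_⟩
        linarith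
      rw [E_congr (k := a) (n := T^[a+c] n) (m := T^[a+c] n') (by simp) hdiv]
      exact hn3
  · intro n₁ hn₁ n₂ hn₂ heq
    rw [mem_coe, mem_filter] at hn₁ hn₂
    obtain ⟨hG1, hd1, -⟩ := hn₁
    obtain ⟨hG2, hd2, -⟩ := hn₂
    have h0 : 0 ≤ (T^[a+c] n₁ - T^[a+c] n) % 2 ^ a := Int.emod_nonneg _ hpa.ne'
    have h0' : 0 ≤ (T^[a+c] n₂ - T^[a+c] n) % 2 ^ a := Int.emod_nonneg _ hpa.ne'
    have heq' : (T^[a+c] n₁ - T^[a+c] n) % 2 ^ a = (T^[a+c] n₂ - T^[a+c] n) % 2 ^ a := by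
      have : ((((T^[a+c] n₁ - T^[a+c] n) % 2 ^ a).toNat : ℕ) : ℤ) =
        ((((T^[a+c] n₂ - T^[a+c] n) % 2 ^ a).toNat : ℕ) : ℤ) := by exact_mod_cast heq
      rwa [Int.toNat_of_nonneg h0, Int.toNat_of_nonneg h0'] at this
    have hX : (2:ℤ) ^ a ∣ T^[a+c] n₂ - T^[a+c] n₁ := by
      have h3 := Int.dvd_of_emod_eq_zero (Int.emod_eq_emod_iff_emod_sub_eq_zero.mp heq'.symm)
      have e : T^[a+c] n₂ - T^[a+c] n - (T^[a+c] n₁ - T^[a+c] n) =
        T^[a+c] n₂ - T^[a+c] n₁ := by ring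
      rwa [e] at h3
    have hd : (2:ℤ) ^ a ∣ n₂ - n₁ := by
      have := dvd_sub hd2 hd1
      have e : n₂ - n - (n₁ - n) = n₂ - n₁ := by ring
      rwa [e] at this
    obtain ⟨y, hy⟩ := hd
    have hy' : n₂ = n₁ + 2 ^ a * y := by linarith
    obtain ⟨r1, r2, r3⟩ := h.rel hG1 hG2 hy'
    have hkey := h.hinj y (C c (T^[a] n₁) - C c (T^[a] n₂)) (by
      calc |y| < 2 ^ c := r1
        _ ≤ 2 ^ (c+1) := pow_le_pow_right₀ (by norm_num) (by omega)) (abs_C_sub_lt c _ _) (by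
      have e : (3:ℤ) ^ (b+s) * y - (C c (T^[a] n₁) - C c (T^[a] n₂)) =
        2 ^ c * (T^[a+c] n₂ - T^[a+c] n₁) := by rw [r3]; ring
      rw [e, pow_add, mul_comm ((2:ℤ) ^ a)]
      exact mul_dvd_mul_left _ hX)
    rw [hy', hkey.1]; ring

lemma coprime_pow (i j : ℕ) : IsCoprime ((2:ℤ) ^ i) (3 ^ j) := by
  apply IsCoprime.pow
  rw [Int.isCoprime_iff_gcd_eq_one]; decide

lemma dvd_of_dvd_three_mul {i j : ℕ} {x : ℤ} (h : (2:ℤ) ^ i ∣ 3 ^ j * x) : (2:ℤ) ^ i ∣ x :=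
  (coprime_pow i j).dvd_of_dvd_mul_left h

/-- the pairs considered in the far estimate -/
noncomputable def farPairs (a c e : ℕ) (G : Finset ℤ) : Finset (ℤ × ℤ) :=
  (G ×ˢ G).filter (fun p => (2:ℤ) ^ a ∣ p.2 - p.1 ∧ e ≤ E a (T^[a+c] p.1) (T^[a+c] p.2))

/-- the key of a pair -/
noncomputable def key (a c : ℕ) (p : ℤ × ℤ) : ℤ × ℤ × Bool :=
  (T^[a] p.1 % 2 ^ c, T^[a] p.2 % 2 ^ c, decide (p.2 < p.1))

lemma dvd_sub_of_emod_eq {x y M : ℤ} (h : x % M = y % M) : M ∣ x - y :=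
  Int.dvd_of_emod_eq_zero (Int.emod_eq_emod_iff_emod_sub_eq_zero.mp h)

/-- Two pairs with the same key have the same shift, and the same later difference. -/
lemma Cls.same_shift (h : Cls a c b s Amin Q A Z G) (e : ℕ) {p p₀ : ℤ × ℤ}
    (hp : p ∈ farPairs a c e G) (hp₀ : p₀ ∈ farPairs a c e G) (hkey : key a c p = key a c p₀) :
    p.2 - p.1 = p₀.2 - p₀.1 ∧
      T^[a+c] p.2 - T^[a+c] p.1 = T^[a+c] p₀.2 - T^[a+c] p₀.1 := by
  unfold farPairs at hp hp₀
  rw [mem_filter, mem_product] at hp hp₀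
  obtain ⟨⟨g1, g2⟩, ⟨y, hy⟩, -⟩ := hp
  obtain ⟨⟨g3, g4⟩, ⟨y₀, hy₀⟩, -⟩ := hp₀
  unfold key at hkey
  simp only [Prod.mk.injEq, decide_eq_decide] at hkey
  obtain ⟨k1, k2, k3⟩ := hkey
  have hy' : p.2 = p.1 + 2 ^ a * y := by linarith
  have hy₀' : p₀.2 = p₀.1 + 2 ^ a * y₀ := by linarith
  obtain ⟨r1, r2, r3⟩ := h.rel g1 g2 hy'
  obtain ⟨t1, t2, t3⟩ := h.rel g3 g4 hy₀'
  have d1 : (2:ℤ) ^ c ∣ T^[a] p.1 - T^[a] p₀.1 := dvd_sub_of_emod_eq k1
  have d2 : (2:ℤ) ^ c ∣ T^[a] p.2 - T^[a] p₀.2 := dvd_sub_of_emod_eq k2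
  have hpa : (0:ℤ) < 2 ^ a := by positivity
  have hyy : y = y₀ := by
    have d3 : (2:ℤ) ^ c ∣ y - y₀ := by
      apply dvd_of_dvd_three_mul (j := b)
      have e1 : 3 ^ b * (y - y₀) = (T^[a] p.2 - T^[a] p₀.2) - (T^[a] p.1 - T^[a] p₀.1) := by
        rw [r2, t2]; ring
      rw [e1]; exact dvd_sub d2 d1
    have s1 : y < 0 ↔ y₀ < 0 := by
      have q1 : p.2 < p.1 ↔ y < 0 := by
        constructor
        · intro hh; by_contra hc; push Not at hc; nlinarith
        · intro hh; nlinarith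
      have q2 : p₀.2 < p₀.1 ↔ y₀ < 0 := by
        constructor
        · intro hh; by_contra hc; push Not at hc; nlinarith
        · intro hh; nlinarith
      rw [← q1, ← q2]; exact k3
    have s2 : |y - y₀| < 2 ^ c := by
      rw [abs_lt] at r1 t1 ⊢
      rcases lt_or_ge y 0 with hneg | hpos
      · have := s1.mp hneg
        constructor <;> linarith
      · have : 0 ≤ y₀ := by
          by_contra hc; push Not at hc
          exact absurd (s1.mpr hc) (by linarith)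
        constructor <;> linarith
    have := Int.eq_zero_of_abs_lt_dvd d3 s2
    linarith
  constructor
  · rw [hy, hy₀, hyy]
  · have c1 : C c (T^[a] p.1) = C c (T^[a] p₀.1) := C_congr d1
    have c2 : C c (T^[a] p.2) = C c (T^[a] p₀.2) := C_congr d2
    rw [c1, c2, hyy] at r3
    have : 2 ^ c * (T^[a+c] p.2 - T^[a+c] p.1) = 2 ^ c * (T^[a+c] p₀.2 - T^[a+c] p₀.1) := by
      rw [r3, t3]
    exact mul_left_cancel₀ (by positivity) this

/-- Bound for the number of pairs with a given key. -/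
lemma Cls.far_key (h : Cls a c b s Amin Q A Z G) (e : ℕ) (τ : ℤ × ℤ × Bool) :
    (((farPairs a c e G).filter (fun p => key a c p = τ)).card : ℝ) ≤
      (Q * (3 ^ b * 2 ^ (c+1) / 2 ^ (a+c) + 1) : ℕ) * (W a Amin * (mu ^ e)⁻¹) := by
  set P := (farPairs a c e G).filter (fun p => key a c p = τ) with hP
  rcases P.eq_empty_or_nonempty with h0 | ⟨p₀, hp₀⟩
  · rw [h0]
    have := W_pos a Amin
    have := mu_pos
    simp
    positivity
  have hpa : (0:ℤ) < 2 ^ a := by positivity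
  have hpa' : ((2 ^ a : ℕ) : ℤ) = 2 ^ a := by push_cast; ring
  have hp₀' := mem_filter.mp hp₀
  set hh := T^[a+c] p₀.2 - T^[a+c] p₀.1 with hhh
  have hsame : ∀ p ∈ P, p.2 - p.1 = p₀.2 - p₀.1 ∧ T^[a+c] p.2 = T^[a+c] p.1 + hh := by
    intro p hp
    have hp' := mem_filter.mp hp
    obtain ⟨q1, q2⟩ := h.same_shift e hp'.1 hp₀'.1 (hp'.2.trans hp₀'.2.symm)
    exact ⟨q1, by linarith⟩
  set X := (range (2 ^ a)).filter (fun r : ℕ => Amin ≤ S a (r:ℤ) ∧ Amin ≤ S a ((r:ℤ) + hh) ∧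
      e ≤ E a (r:ℤ) ((r:ℤ) + hh)) with hX
  have hXcard := card_pair a Amin e hh
  rw [← hX] at hXcard
  set f : ℤ × ℤ → ℕ := fun p => (T^[a+c] p.1 % 2 ^ a).toNat with hf
  have hfval : ∀ p : ℤ × ℤ, ((f p : ℕ) : ℤ) = T^[a+c] p.1 % 2 ^ a := fun p =>
    Int.toNat_of_nonneg (Int.emod_nonneg _ hpa.ne')
  have hfdvd : ∀ p : ℤ × ℤ, (2:ℤ) ^ a ∣ ((f p : ℕ) : ℤ) - T^[a+c] p.1 := by
    intro p
    rw [hfval]
    have := Int.mul_ediv_add_emod (T^[a+c] p.1) (2 ^ a)
    exact ⟨-(T^[a+c] p.1 / 2 ^ a), by linarith⟩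
  have hmaps : ∀ p ∈ P, f p ∈ X := by
    intro p hp
    have hp' := mem_filter.mp hp
    obtain ⟨-, hs2⟩ := hsame p hp
    have hpf := hp'.1
    unfold farPairs at hpf
    rw [mem_filter, mem_product] at hpf
    obtain ⟨⟨g1, g2⟩, -, g3⟩ := hpf
    rw [hX, mem_filter, mem_range]
    have d2 : (2:ℤ) ^ a ∣ (((f p : ℕ) : ℤ) + hh) - T^[a+c] p.2 := by
      have : (((f p : ℕ) : ℤ) + hh) - T^[a+c] p.2 = ((f p : ℕ) : ℤ) - T^[a+c] p.1 := by
        rw [hs2]; ring
      rw [this]; exact hfdvd p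
    refine ⟨?_, ?_, ?_, ?_⟩
    · have : ((f p : ℕ) : ℤ) < ((2 ^ a : ℕ) : ℤ) := by
        rw [hfval, hpa']; exact Int.emod_lt_of_pos _ hpa
      exact_mod_cast this
    · rw [S_congr (hfdvd p)]; exact h.hA _ g1
    · rw [S_congr d2]; exact h.hA _ g2
    · rw [E_congr (hfdvd p) d2]; exact g3
  have hfib : ∀ x ∈ X, (P.filter (fun p => f p = x)).card ≤
      Q * (3 ^ b * 2 ^ (c+1) / 2 ^ (a+c) + 1) := by
    intro x _
    set F := P.filter (fun p => f p = x) with hF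
    set g : ℤ × ℤ → ℤ := fun p => T^[a] p.1 with hg
    have hclass : (F.image g).card ≤ 3 ^ b * 2 ^ (c+1) / 2 ^ (a+c) + 1 := by
      apply card_class (F.image g) Z (3 ^ b * 2 ^ (c+1)) (2 ^ (a+c)) (by positivity)
      · intro z hz
        obtain ⟨p, hp, rfl⟩ := mem_image.mp hz
        have hpP := (mem_filter.mp hp).1
        have hpf := (mem_filter.mp hpP).1
        unfold farPairs at hpf
        rw [mem_filter, mem_product] at hpf
        exact h.hZ _ hpf.1.1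
      · intro z hz z' hz'
        obtain ⟨p, hp, rfl⟩ := mem_image.mp hz
        obtain ⟨p', hp', rfl⟩ := mem_image.mp hz'
        obtain ⟨hpP, hpx⟩ := mem_filter.mp hp
        obtain ⟨hpP', hpx'⟩ := mem_filter.mp hp'
        obtain ⟨hpf, hpk⟩ := mem_filter.mp hpP
        obtain ⟨hpf', hpk'⟩ := mem_filter.mp hpP'
        unfold farPairs at hpf hpf'
        rw [mem_filter, mem_product] at hpf hpf'
        have k1 : T^[a] p.1 % 2 ^ c = T^[a] p'.1 % 2 ^ c := by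
          have := hpk.trans hpk'.symm
          unfold key at this
          simp only [Prod.mk.injEq] at this
          exact this.1
        have d1 : (2:ℤ) ^ c ∣ T^[a] p.1 - T^[a] p'.1 := dvd_sub_of_emod_eq k1
        have d2 : (2:ℤ) ^ a ∣ T^[a+c] p.1 - T^[a+c] p'.1 := by
          apply dvd_sub_of_emod_eq
          rw [← hfval, ← hfval, hpx, hpx']
        have e2 : T^[a+c] p.1 = T^[c] (T^[a] p.1) := by
          rw [add_comm, Function.iterate_add_apply]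
        have e3 : T^[a+c] p'.1 = T^[c] (T^[a] p'.1) := by
          rw [add_comm, Function.iterate_add_apply]
        have s1 := C_spec c (T^[a] p.1)
        have s2 := C_spec c (T^[a] p'.1)
        rw [h.hs _ hpf.1.1] at s1
        rw [h.hs _ hpf'.1.1] at s2
        have c1 : C c (T^[a] p.1) = C c (T^[a] p'.1) := C_congr d1
        rw [c1] at s1
        push_cast
        apply dvd_of_dvd_three_mul (j := s)
        have e4 : 3 ^ s * (g p - g p') = 2 ^ c * (T^[a+c] p.1 - T^[a+c] p'.1) := by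
          rw [e2, e3, mul_sub, mul_sub, s1, s2]; ring
        rw [e4, pow_add, mul_comm ((2:ℤ) ^ a)]
        exact mul_dvd_mul_left _ d2
    have hfib2 : ∀ z ∈ F.image g, (F.filter (fun p => g p = z)).card ≤ Q := by
      intro z _
      refine le_trans ?_ (h.hQ z)
      refine card_le_card_of_injOn (fun p => p.1) ?_ ?_
      · intro p hp
        obtain ⟨hpF, hpz⟩ := mem_filter.mp hp
        have hpf := (mem_filter.mp (mem_filter.mp hpF).1).1
        unfold farPairs at hpf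
        rw [mem_filter, mem_product] at hpf
        rw [mem_coe, mem_filter]
        exact ⟨hpf.1.1, hpz⟩
      · intro p hp p' hp' hpp
        have hpP := (mem_filter.mp (mem_filter.mp hp).1).1
        have hpP' := (mem_filter.mp (mem_filter.mp hp').1).1
        have q1 := (hsame p hpP).1
        have q2 := (hsame p' hpP').1
        have hpp' : p.1 = p'.1 := hpp
        ext
        · exact hpp'
        · linarith
    calc F.card ≤ Q * (F.image g).card :=
          card_le_mul_card_image_of_maps_to (fun p hp => mem_image_of_mem g hp) Q hfib2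
      _ ≤ Q * (3 ^ b * 2 ^ (c+1) / 2 ^ (a+c) + 1) := Nat.mul_le_mul_left _ hclass
  have hPcard := card_le_mul_card_image_of_maps_to hmaps _ hfib
  have hPcard' : (P.card : ℝ) ≤ ((Q * (3 ^ b * 2 ^ (c+1) / 2 ^ (a+c) + 1) : ℕ) : ℝ) * X.card := by
    exact_mod_cast hPcard
  refine le_trans hPcard' ?_
  exact mul_le_mul_of_nonneg_left hXcard (by positivity)

/-- residues modulo `2^c` with `s` odd steps, as integers -/
noncomputable def Rc (c s : ℕ) : Finset ℤ :=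
  ((range (2 ^ c)).filter (fun r : ℕ => S c ((0:ℤ) + r) = s)).image (fun r : ℕ => (r:ℤ))

lemma card_Rc (c s : ℕ) : ((Rc c s).card : ℝ) ≤ W c s := by
  refine le_trans ?_ (card_S_eq 0 c s)
  exact_mod_cast card_image_le

lemma mem_Rc {c s : ℕ} {z : ℤ} (hz : S c z = s) : z % 2 ^ c ∈ Rc c s := by
  have hpa : (0:ℤ) < 2 ^ c := by positivity
  have h0 := Int.emod_nonneg z hpa.ne'
  have h1 := Int.emod_lt_of_pos z hpa
  unfold Rc
  rw [mem_image]
  refine ⟨(z % 2 ^ c).toNat, ?_, Int.toNat_of_nonneg h0⟩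
  rw [mem_filter, mem_range]
  constructor
  · have : (((z % 2 ^ c).toNat : ℕ) : ℤ) < ((2 ^ c : ℕ) : ℤ) := by
      rw [Int.toNat_of_nonneg h0]; push_cast; exact h1
    exact_mod_cast this
  · rw [Int.toNat_of_nonneg h0, zero_add, ← hz]
    apply S_congr
    have := Int.mul_ediv_add_emod z (2 ^ c)
    exact ⟨-(z / 2 ^ c), by linarith⟩

lemma Cls.far (h : Cls a c b s Amin Q A Z G) (e : ℕ) :
    ((farPairs a c e G).card : ℝ) ≤ 2 * (W c s) ^ 2 *
      ((Q * (3 ^ b * 2 ^ (c+1) / 2 ^ (a+c) + 1) : ℕ) * (W a Amin * (mu ^ e)⁻¹)) := by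
  set B : ℝ := (Q * (3 ^ b * 2 ^ (c+1) / 2 ^ (a+c) + 1) : ℕ) * (W a Amin * (mu ^ e)⁻¹) with hB
  have hB0 : 0 ≤ B := by
    have := W_pos a Amin
    have := mu_pos
    positivity
  set 𝒯 : Finset (ℤ × ℤ × Bool) := Rc c s ×ˢ (Rc c s ×ˢ univ) with h𝒯
  have hmaps : ∀ p ∈ farPairs a c e G, key a c p ∈ 𝒯 := by
    intro p hp
    unfold farPairs at hp
    rw [mem_filter, mem_product] at hp
    rw [h𝒯, mem_product, mem_product]
    exact ⟨mem_Rc (h.hs _ hp.1.1), mem_Rc (h.hs _ hp.1.2), mem_univ _⟩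
  have hcard := card_eq_sum_card_fiberwise hmaps
  have h1 : ((farPairs a c e G).card : ℝ) =
      ∑ τ ∈ 𝒯, (((farPairs a c e G).filter (fun p => key a c p = τ)).card : ℝ) := by
    exact_mod_cast hcard
  rw [h1]
  have h2 : ∑ τ ∈ 𝒯, (((farPairs a c e G).filter (fun p => key a c p = τ)).card : ℝ) ≤
      ∑ τ ∈ 𝒯, B := sum_le_sum (fun τ _ => h.far_key e τ)
  refine le_trans h2 ?_
  rw [sum_const, nsmul_eq_mul]
  apply mul_le_mul_of_nonneg_right _ hB0
  rw [h𝒯, card_product, card_product]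
  have h3 := card_Rc c s
  have h4 : (0:ℝ) ≤ (Rc c s).card := by positivity
  simp only [card_univ, Fintype.card_bool]
  push_cast
  nlinarith

lemma Cls.nearPairs (h : Cls a c b s Amin Q A Z G) (ν : ℝ) (hν : 0 < ν) (hν1 : ν ≤ 1) (e : ℕ) :
    (((G ×ˢ G).filter (fun p => (2:ℤ) ^ a ∣ p.2 - p.1 ∧
      E a (T^[a+c] p.1) (T^[a+c] p.2) < e)).card : ℝ) ≤
      G.card * ((1 + ν) ^ a * (ν ^ e)⁻¹) := by
  set P := (G ×ˢ G).filter (fun p => (2:ℤ) ^ a ∣ p.2 - p.1 ∧
      E a (T^[a+c] p.1) (T^[a+c] p.2) < e) with hP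
  have hmaps : ∀ p ∈ P, p.1 ∈ G := by
    intro p hp
    exact (mem_product.mp (mem_filter.mp hp).1).1
  have hcard := card_eq_sum_card_fiberwise hmaps
  have h1 : (P.card : ℝ) = ∑ n ∈ G, ((P.filter (fun p => p.1 = n)).card : ℝ) := by
    exact_mod_cast hcard
  rw [h1]
  have h2 : ∀ n ∈ G, ((P.filter (fun p => p.1 = n)).card : ℝ) ≤ (1 + ν) ^ a * (ν ^ e)⁻¹ := by
    intro n _
    refine le_trans ?_ (h.near ν hν hν1 e n)
    norm_cast
    refine card_le_card_of_injOn (fun p => p.2) ?_ ?_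
    · intro p hp
      obtain ⟨hpP, hpn⟩ := mem_filter.mp hp
      obtain ⟨hpG, hp1, hp2⟩ := mem_filter.mp hpP
      rw [mem_coe, mem_filter]
      rw [hpn] at hp1 hp2
      exact ⟨(mem_product.mp hpG).2, hp1, hp2⟩
    · intro p hp p' hp' hpp
      have q1 := (mem_filter.mp hp).2
      have q2 := (mem_filter.mp hp').2
      ext
      · rw [q1, q2]
      · exact hpp
  calc ∑ n ∈ G, ((P.filter (fun p => p.1 = n)).card : ℝ)
      ≤ ∑ n ∈ G, (1 + ν) ^ a * (ν ^ e)⁻¹ := sum_le_sum h2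
    _ = G.card * ((1 + ν) ^ a * (ν ^ e)⁻¹) := by rw [sum_const, nsmul_eq_mul]

/-- number of pairs congruent modulo `2^a` -/
lemma Cls.pairs (h : Cls a c b s Amin Q A Z G) :
    (G.card : ℝ) ^ 2 ≤ W a b * ((G ×ˢ G).filter (fun p => (2:ℤ) ^ a ∣ p.2 - p.1)).card := by
  have hpa : (0:ℤ) < 2 ^ a := by positivity
  set R := (range (2 ^ a)).filter (fun r : ℕ => S a (A + r) = b) with hR
  set f : ℤ → ℕ := fun n => ((n - A) % 2 ^ a).toNat with hf
  have hfval : ∀ n : ℤ, ((f n : ℕ) : ℤ) = (n - A) % 2 ^ a := fun n =>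
    Int.toNat_of_nonneg (Int.emod_nonneg _ hpa.ne')
  have hmaps : ∀ n ∈ G, f n ∈ R := by
    intro n hn
    rw [hR, mem_filter, mem_range]
    constructor
    · have : ((f n : ℕ) : ℤ) < ((2 ^ a : ℕ) : ℤ) := by
        rw [hfval]; push_cast; exact Int.emod_lt_of_pos _ hpa
      exact_mod_cast this
    · rw [← h.hb n hn]
      apply S_congr
      rw [hfval]
      have := Int.mul_ediv_add_emod (n - A) (2 ^ a)
      exact ⟨-((n - A) / 2 ^ a), by linarith⟩
  have hcard := card_eq_sum_card_fiberwise hmaps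
  have h1 : (G.card : ℝ) = ∑ r ∈ R, ((G.filter (fun n => f n = r)).card : ℝ) := by
    exact_mod_cast hcard
  have h2 : (∑ r ∈ R, ((G.filter (fun n => f n = r)).card : ℝ)) ^ 2 ≤
      R.card * ∑ r ∈ R, ((G.filter (fun n => f n = r)).card : ℝ) ^ 2 := sq_sum_le_card_mul_sum_sq
  have h3 : ∑ r ∈ R, ((G.filter (fun n => f n = r)).card : ℝ) ^ 2 ≤
      ((G ×ˢ G).filter (fun p => (2:ℤ) ^ a ∣ p.2 - p.1)).card := by
    have h4 : ∑ r ∈ R, ((G.filter (fun n => f n = r)).card) ^ 2 =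
        (R.biUnion (fun r => (G.filter (fun n => f n = r)) ×ˢ
          (G.filter (fun n => f n = r)))).card := by
      rw [card_biUnion]
      · refine sum_congr rfl (fun r _ => ?_)
        rw [card_product, sq]
      · intro r _ r' _ hrr
        rw [Function.onFun, disjoint_left]
        intro p hp hp'
        have e1 := (mem_filter.mp (mem_product.mp hp).1).2
        have e2 := (mem_filter.mp (mem_product.mp hp').1).2
        exact hrr (e1.symm.trans e2)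
    have h5 : (R.biUnion (fun r => (G.filter (fun n => f n = r)) ×ˢ
          (G.filter (fun n => f n = r)))) ⊆
          (G ×ˢ G).filter (fun p => (2:ℤ) ^ a ∣ p.2 - p.1) := by
      intro p hp
      obtain ⟨r, -, hp2⟩ := mem_biUnion.mp hp
      obtain ⟨q1, q2⟩ := mem_product.mp hp2
      obtain ⟨g1, f1⟩ := mem_filter.mp q1
      obtain ⟨g2, f2⟩ := mem_filter.mp q2
      rw [mem_filter, mem_product]
      refine ⟨⟨g1, g2⟩, ?_⟩
      have e : (p.2 - A) % 2 ^ a = (p.1 - A) % 2 ^ a := by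
        rw [← hfval, ← hfval, f1, f2]
      have := dvd_sub_of_emod_eq e
      have e' : p.2 - A - (p.1 - A) = p.2 - p.1 := by ring
      rwa [e'] at this
    calc ∑ r ∈ R, ((G.filter (fun n => f n = r)).card : ℝ) ^ 2
        = ((∑ r ∈ R, ((G.filter (fun n => f n = r)).card) ^ 2 : ℕ) : ℝ) := by
          rw [Nat.cast_sum]
          exact sum_congr rfl (fun r _ => by rw [Nat.cast_pow])
      _ = ((R.biUnion (fun r => (G.filter (fun n => f n = r)) ×ˢ
          (G.filter (fun n => f n = r)))).card : ℝ) := by rw [h4]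
      _ ≤ _ := Nat.cast_le.mpr (card_le_card h5)
  have h7 : (R.card : ℝ) ≤ W a b := card_S_eq A a b
  calc (G.card : ℝ) ^ 2 ≤ R.card * ∑ r ∈ R, ((G.filter (fun n => f n = r)).card : ℝ) ^ 2 := by
        rw [h1]; exact h2
    _ ≤ W a b * ((G ×ˢ G).filter (fun p => (2:ℤ) ^ a ∣ p.2 - p.1)).card := by
        apply mul_le_mul h7 h3 (sum_nonneg (fun _ _ => sq_nonneg _)) (W_pos a b).le

/-- The core estimate. -/
theorem Cls.core (h : Cls a c b s Amin Q A Z G) (ν : ℝ) (hν : 0 < ν) (hν1 : ν ≤ 1) (e : ℕ) :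
    (G.card : ℝ) ^ 2 ≤ W a b * (G.card * ((1 + ν) ^ a * (ν ^ e)⁻¹) + 2 * (W c s) ^ 2 *
      ((Q * (3 ^ b * 2 ^ (c+1) / 2 ^ (a+c) + 1) : ℕ) * (W a Amin * (mu ^ e)⁻¹))) := by
  refine le_trans h.pairs ?_
  apply mul_le_mul_of_nonneg_left _ (W_pos a b).le
  have hsub : (G ×ˢ G).filter (fun p => (2:ℤ) ^ a ∣ p.2 - p.1) ⊆
      ((G ×ˢ G).filter (fun p => (2:ℤ) ^ a ∣ p.2 - p.1 ∧
        E a (T^[a+c] p.1) (T^[a+c] p.2) < e)) ∪ farPairs a c e G := by
    intro p hp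
    obtain ⟨h1, h2⟩ := mem_filter.mp hp
    rw [mem_union]
    rcases lt_or_ge (E a (T^[a+c] p.1) (T^[a+c] p.2)) e with h3 | h3
    · exact Or.inl (mem_filter.mpr ⟨h1, h2, h3⟩)
    · exact Or.inr (mem_filter.mpr ⟨h1, h2, h3⟩)
  have h1 := le_trans (card_le_card hsub) (card_union_le _ _)
  have h2 : (((G ×ˢ G).filter (fun p => (2:ℤ) ^ a ∣ p.2 - p.1)).card : ℝ) ≤
      (((G ×ˢ G).filter (fun p => (2:ℤ) ^ a ∣ p.2 - p.1 ∧
        E a (T^[a+c] p.1) (T^[a+c] p.2) < e)).card : ℝ) + ((farPairs a c e G).card : ℝ) := by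
    exact_mod_cast h1
  linarith [h.nearPairs ν hν hν1 e, h.far e]

end

end Pool.Agent.H30
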