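import Pool.Agent.H30.Sparse

/-!
From injective segments to full orbits (as sets).
-/

set_option autoImplicit false

namespace Pool.Agent.H30

open Finset

/-- The set of values of the trajectory of `n₀`. -/
def orbit (n₀ : ℤ) : Set ℤ := {m : ℤ | ∃ k : ℕ, T^[k] n₀ = m}

/-- Every finite part of an orbit is contained in an injective initial segment. -/
lemma exists_segment (n₀ : ℤ) (A : ℤ) (L : ℕ) :
    ∃ N : ℕ, (∀ i < N, ∀ j < N, T^[i] n₀ = T^[j] n₀ → i = j) ∧
      (orbit n₀ ∩ Set.Ico A (A + L)).ncard ≤ (vis n₀ N A L).card := by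
  classical
  have hfin : (orbit n₀ ∩ Set.Ico A (A + L)).Finite := (Set.finite_Ico A (A + L)).inter_of_right _
  -- least index
  have hex : ∀ m ∈ orbit n₀, ∃ k : ℕ, T^[k] n₀ = m ∧ ∀ j < k, T^[j] n₀ ≠ m := by
    intro m hm
    obtain ⟨k, hk⟩ : ∃ k : ℕ, T^[k] n₀ = m := hm
    have hP : ∃ k : ℕ, T^[k] n₀ = m := ⟨k, hk⟩
    exact ⟨Nat.find hP, Nat.find_spec hP, fun j hj => Nat.find_min hP hj⟩
  choose! κ hκ1 hκ2 using hex
  set F := hfin.toFinset with hF
  set N := F.sup (fun m => κ m + 1) with hN
  have hkN : ∀ m ∈ F, κ m < N := by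
    intro m hm
    have h1 : κ m + 1 ≤ N := le_sup (f := fun m => κ m + 1) hm
    omega
  refine ⟨N, ?_, ?_⟩
  · have key : ∀ i j, i < j → j < N → T^[i] n₀ ≠ T^[j] n₀ := by
      intro i j hij hjN heq
      have hNpos : 0 < N := by omega
      obtain ⟨m, hm, hmN⟩ : ∃ m ∈ F, N = κ m + 1 := by
        have hne : F.Nonempty := by
          rw [nonempty_iff_ne_empty]
          intro h0
          rw [h0] at hN
          simp at hN
          omega
        obtain ⟨m, hm, hm2⟩ := exists_mem_eq_sup F hne (fun m => κ m + 1)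
        exact ⟨m, hm, hm2⟩
      have hmorb : m ∈ orbit n₀ := ((hfin.mem_toFinset).mp hm).1
      have h1 : T^[κ m] n₀ = m := hκ1 m hmorb
      -- shift back by the period
      have h2 : T^[κ m - (j - i)] n₀ = m := by
        have e1 : κ m = (κ m - j) + j := by omega
        have e2 : κ m - (j - i) = (κ m - j) + i := by omega
        rw [e2, Function.iterate_add_apply, heq, ← Function.iterate_add_apply, ← e1, h1]
      exact hκ2 m hmorb (κ m - (j - i)) (by omega) h2
    intro i hi j hj heq
    rcases Nat.lt_trichotomy i j with h | h | h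
    · exact absurd heq (key i j h hj)
    · exact h
    · exact absurd heq.symm (key j i h hi)
  · rw [Set.ncard_eq_toFinset_card _ hfin]
    refine card_le_card_of_injOn κ ?_ ?_
    · intro m hm
      have hm' : m ∈ F := hm
      have hmorb := ((hfin.mem_toFinset).mp hm')
      rw [mem_coe, mem_vis, hκ1 m hmorb.1]
      exact ⟨hkN m hm', hmorb.2.1, hmorb.2.2⟩
    · intro m hm m' hm' h
      have h1 := hκ1 m ((hfin.mem_toFinset).mp hm).1
      have h2 := hκ1 m' ((hfin.mem_toFinset).mp hm').1
      rw [← h1, ← h2, h]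

end Pool.Agent.H30
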