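import Mathlib

/-!
Explicit Padé approximations to `(9/8)^k` and the resulting lower bound for
`|9^k r - 8^k g|` when `r` is small.
-/

set_option autoImplicit false

namespace Pool.Agent.H30

open Finset

/-- numerators -/
def pP (k n : ℕ) : ℕ :=
  ∑ i ∈ range (n+1), (k+n).choose i * (2*n-i).choose n * 8 ^ (n-i)

/-- remainders -/
def pR (k n : ℕ) : ℕ :=
  ∑ j ∈ range (k-n), (k+n).choose (2*n+1+j) * (n+j).choose n * 8 ^ (k-n-1-j)

/-- denominators -/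
def pQ (k n : ℕ) : ℤ :=
  ∑ l ∈ antidiagonal n, (-1) ^ l.2 * ((n+l.2).choose l.2 : ℤ) * ((k+n).choose l.1 : ℤ) * 9 ^ l.2

/-- `binom(i-n-1, n)` as an integer -/
def phi (n i : ℕ) : ℤ := Ring.choose ((i:ℤ) + (-((n:ℤ)+1))) n

lemma choose_neg_nat (n l : ℕ) :
    Ring.choose (-((n:ℤ)+1)) l = (-1) ^ l * ((n+l).choose l : ℤ) := by
  rw [Ring.choose_neg]
  have h1 : ((n:ℤ) + 1 + l - 1) = ((n + l : ℕ) : ℤ) := by push_cast; ring
  rw [h1, Ring.choose_natCast, Int.negOnePow_def, zpow_natCast, Units.smul_def]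
  simp

lemma phi_eq_sum (n i : ℕ) :
    phi n i = ∑ l ∈ antidiagonal n, (i.choose l.1 : ℤ) * ((-1) ^ l.2 * ((n+l.2).choose l.2 : ℤ)) := by
  unfold phi
  rw [Ring.add_choose_eq n (Commute.all _ _)]
  refine sum_congr rfl (fun l _ => ?_)
  rw [Ring.choose_natCast, choose_neg_nat]

lemma phi_low (n i : ℕ) (h : i ≤ n) : phi n i = (-1) ^ n * ((2*n-i).choose n : ℤ) := by
  unfold phi
  have h1 : ((i:ℤ) + (-((n:ℤ)+1))) = -(((n - i : ℕ) : ℤ) + 1) := by
    rw [Nat.cast_sub h]; ring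
  rw [h1, choose_neg_nat]
  have h2 : n - i + n = 2 * n - i := by omega
  rw [h2]

lemma phi_mid (n i : ℕ) (h1 : n < i) (h2 : i ≤ 2*n) : phi n i = 0 := by
  unfold phi
  have h3 : ((i:ℤ) + (-((n:ℤ)+1))) = ((i - (n+1) : ℕ) : ℤ) := by
    rw [Nat.cast_sub (by omega)]; push_cast; ring
  rw [h3, Ring.choose_natCast, Nat.choose_eq_zero_of_lt (by omega)]
  simp

lemma phi_high (n j : ℕ) : phi n (2*n+1+j) = ((n+j).choose n : ℤ) := by
  unfold phi
  have h3 : (((2*n+1+j : ℕ):ℤ) + (-((n:ℤ)+1))) = ((n+j : ℕ) : ℤ) := by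
    push_cast; ring
  rw [h3, Ring.choose_natCast]

lemma sum_choose_mul (K l : ℕ) (hl : l ≤ K) (y : ℤ) :
    ∑ i ∈ range (K+1), (K.choose i : ℤ) * (i.choose l : ℤ) * y ^ (K-i) =
      (K.choose l : ℤ) * (1 + y) ^ (K-l) := by
  have h1 : K + 1 = l + (K - l + 1) := by omega
  rw [h1, sum_range_add]
  have h2 : ∑ x ∈ range l, (K.choose x : ℤ) * (x.choose l : ℤ) * y ^ (K-x) = 0 := by
    refine sum_eq_zero (fun x hx => ?_)
    rw [Nat.choose_eq_zero_of_lt (mem_range.mp hx)]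
    simp
  rw [h2, zero_add, add_pow, mul_sum]
  refine sum_congr rfl (fun x hx => ?_)
  have hx' : x ≤ K - l := by have := mem_range.mp hx; omega
  have h3 : K.choose (l+x) * (l+x).choose l = K.choose l * (K-l).choose (l+x-l) :=
    Nat.choose_mul (by omega)
  have h4 : (K.choose (l+x) : ℤ) * ((l+x).choose l : ℤ) =
      (K.choose l : ℤ) * ((K-l).choose x : ℤ) := by
    rw [show l + x - l = x by omega] at h3
    exact_mod_cast h3
  rw [h4, show K - (l + x) = K - l - x by omega]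
  simp; ring

/-- The Padé identity. -/
theorem pade (k n : ℕ) (h : n ≤ k) :
    9 ^ k * pQ k n = 8 ^ k * ((-1) ^ n * (pP k n : ℤ)) + (pR k n : ℤ) := by
  set K := k + n with hK
  have hmain : ∑ i ∈ range (K+1), (K.choose i : ℤ) * phi n i * 8 ^ (K-i) = 9 ^ k * pQ k n := by
    calc ∑ i ∈ range (K+1), (K.choose i : ℤ) * phi n i * 8 ^ (K-i)
        = ∑ i ∈ range (K+1), ∑ l ∈ antidiagonal n,
          ((-1) ^ l.2 * ((n+l.2).choose l.2 : ℤ)) *
            ((K.choose i : ℤ) * (i.choose l.1 : ℤ) * 8 ^ (K-i)) := by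
          refine sum_congr rfl (fun i _ => ?_)
          rw [phi_eq_sum, mul_sum, sum_mul]
          refine sum_congr rfl (fun l _ => ?_)
          ring
      _ = ∑ l ∈ antidiagonal n, ((-1) ^ l.2 * ((n+l.2).choose l.2 : ℤ)) *
            ∑ i ∈ range (K+1), ((K.choose i : ℤ) * (i.choose l.1 : ℤ) * 8 ^ (K-i)) := by
          rw [sum_comm]
          refine sum_congr rfl (fun l _ => ?_)
          rw [mul_sum]
      _ = 9 ^ k * pQ k n := by
          unfold pQ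
          rw [mul_sum]
          refine sum_congr rfl (fun l hl => ?_)
          have hl' := mem_antidiagonal.mp hl
          rw [sum_choose_mul K l.1 (by omega) 8, show K - l.1 = k + l.2 by omega, pow_add]
          norm_num
          ring
  have hsplit : K + 1 = (n + 1) + n + (k - n) := by omega
  rw [← hmain, hsplit, sum_range_add, sum_range_add]
  have e1 : ∑ x ∈ range (n+1), (K.choose x : ℤ) * phi n x * 8 ^ (K - x) =
      8 ^ k * ((-1) ^ n * (pP k n : ℤ)) := by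
    unfold pP
    push_cast
    rw [mul_sum, mul_sum]
    refine sum_congr rfl (fun i hi => ?_)
    have hi' : i ≤ n := by have := mem_range.mp hi; omega
    rw [phi_low n i hi', show K - i = k + (n - i) by omega, pow_add]
    ring
  have e2 : ∑ x ∈ range n, (K.choose (n+1+x) : ℤ) * phi n (n+1+x) * 8 ^ (K - (n+1+x)) = 0 := by
    refine sum_eq_zero (fun x hx => ?_)
    have hx' := mem_range.mp hx
    rw [phi_mid n (n+1+x) (by omega) (by omega)]
    simp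
  have e3 : ∑ x ∈ range (k-n), (K.choose (n+1+n+x) : ℤ) * phi n (n+1+n+x) * 8 ^ (K - (n+1+n+x)) =
      (pR k n : ℤ) := by
    unfold pR
    push_cast
    refine sum_congr rfl (fun j hj => ?_)
    have hj' := mem_range.mp hj
    have e : n + 1 + n + j = 2 * n + 1 + j := by ring
    rw [e, phi_high, show K - (2*n+1+j) = k - n - 1 - j by omega]
  rw [e1, e2, e3, add_zero]

lemma pP_pos (k n : ℕ) : 0 < pP k n := by
  unfold pP
  apply sum_pos
  · intro i hi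
    have hi' := mem_range.mp hi
    have h1 : 0 < (k+n).choose i := Nat.choose_pos (by omega)
    have h2 : 0 < (2*n-i).choose n := Nat.choose_pos (by omega)
    positivity
  · exact ⟨0, by simp⟩

lemma pR_pos (k n : ℕ) (h : n < k) : 0 < pR k n := by
  unfold pR
  apply sum_pos
  · intro j hj
    have hj' := mem_range.mp hj
    have h1 : 0 < (k+n).choose (2*n+1+j) := Nat.choose_pos (by omega)
    have h2 : 0 < (n+j).choose n := Nat.choose_pos (by omega)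
    positivity
  · exact ⟨0, by simp; omega⟩

/-- Consecutive approximations are independent. -/
lemma pade_det (k n : ℕ) (h : n + 1 < k) :
    ((-1) ^ n * (pP k n : ℤ)) * pQ k (n+1) - ((-1) ^ (n+1) * (pP k (n+1) : ℤ)) * pQ k n ≠ 0 := by
  intro h0
  have h1 := pade k n (by omega)
  have h2 := pade k (n+1) (by omega)
  have a1 : (0:ℤ) < pP k n := by exact_mod_cast pP_pos k n
  have a2 : (0:ℤ) < pP k (n+1) := by exact_mod_cast pP_pos k (n+1)
  have a3 : (0:ℤ) < pR k n := by exact_mod_cast pR_pos k n (by omega)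
  have a4 : (0:ℤ) < pR k (n+1) := by exact_mod_cast pR_pos k (n+1) (by omega)
  have h3 : 9 ^ k * (((-1) ^ n * (pP k n : ℤ)) * pQ k (n+1) -
      ((-1) ^ (n+1) * (pP k (n+1) : ℤ)) * pQ k n) =
      (-1) ^ n * ((pP k n : ℤ) * pR k (n+1) + (pP k (n+1) : ℤ) * pR k n) := by
    have : 9 ^ k * (((-1) ^ n * (pP k n : ℤ)) * pQ k (n+1) -
      ((-1) ^ (n+1) * (pP k (n+1) : ℤ)) * pQ k n) =
      ((-1) ^ n * (pP k n : ℤ)) * (9 ^ k * pQ k (n+1)) -
      ((-1) ^ (n+1) * (pP k (n+1) : ℤ)) * (9 ^ k * pQ k n) := by ring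
    rw [this, h1, h2]
    ring
  rw [h0, mul_zero] at h3
  have h4 : (-1:ℤ) ^ n ≠ 0 := pow_ne_zero _ (by norm_num)
  have h5 : (pP k n : ℤ) * pR k (n+1) + (pP k (n+1) : ℤ) * pR k n = 0 := by
    rcases mul_eq_zero.mp h3.symm with h | h
    · exact absurd h h4
    · exact h
  have : (0:ℤ) < (pP k n : ℤ) * pR k (n+1) + (pP k (n+1) : ℤ) * pR k n := by positivity
  linarith

/-- bound on the remainders -/
lemma pR_le (k n : ℕ) (h : n < k) : pR k n * (18 ^ n * 17 ^ (n+1)) ≤ 26 ^ (k+n) := by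
  have hbin : ∀ j, (n+j).choose n * 17 ^ (n+1) ≤ 18 ^ (n+1+j) := by
    intro j
    have h1 : (n+j).choose n ≤ (n+1+j).choose j := by
      rw [show (n+j).choose n = (n+j).choose j from Nat.choose_symm_of_eq_add (by ring)]
      exact Nat.choose_le_choose j (by omega)
    have h2 : (18:ℕ) ^ (n+1+j) = ∑ m ∈ range (n+1+j+1), 1 ^ m * 17 ^ (n+1+j-m) * (n+1+j).choose m := by
      have := add_pow (1:ℕ) 17 (n+1+j)
      simpa using this
    rw [h2]
    have hj : j ∈ range (n+1+j+1) := by rw [mem_range]; omega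
    refine le_trans ?_ (single_le_sum (f := fun m => 1 ^ m * 17 ^ (n+1+j-m) * (n+1+j).choose m)
      (fun m _ => Nat.zero_le _) hj)
    simp only [one_pow, one_mul]
    rw [show n + 1 + j - j = n + 1 by omega, mul_comm]
    exact Nat.mul_le_mul_left _ h1
  unfold pR
  rw [sum_mul]
  calc ∑ j ∈ range (k-n), (k+n).choose (2*n+1+j) * (n+j).choose n * 8 ^ (k-n-1-j) *
        (18 ^ n * 17 ^ (n+1))
      ≤ ∑ j ∈ range (k-n), (k+n).choose (2*n+1+j) * 18 ^ (2*n+1+j) * 8 ^ (k+n-(2*n+1+j)) := by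
        refine sum_le_sum (fun j hj => ?_)
        have hj' := mem_range.mp hj
        have e : k + n - (2*n+1+j) = k-n-1-j := by omega
        rw [e]
        calc (k+n).choose (2*n+1+j) * (n+j).choose n * 8 ^ (k-n-1-j) * (18 ^ n * 17 ^ (n+1))
            = (k+n).choose (2*n+1+j) * 18 ^ n * 8 ^ (k-n-1-j) *
              ((n+j).choose n * 17 ^ (n+1)) := by ring
          _ ≤ (k+n).choose (2*n+1+j) * 18 ^ n * 8 ^ (k-n-1-j) * 18 ^ (n+1+j) :=
              Nat.mul_le_mul_left _ (hbin j)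
          _ = (k+n).choose (2*n+1+j) * 18 ^ (2*n+1+j) * 8 ^ (k-n-1-j) := by
              rw [show 2*n+1+j = n + (n+1+j) by ring, pow_add]; ring
    _ ≤ ∑ i ∈ range (k+n+1), (k+n).choose i * 18 ^ i * 8 ^ (k+n-i) := by
        have e : k + n + 1 = (2*n+1) + (k-n) := by omega
        rw [e, sum_range_add]
        have e' : (2 * n + 1 + (k - n) - 1) = k + n := by omega
        apply Nat.le_add_left
    _ = 26 ^ (k+n) := by
        rw [show (26:ℕ) = 18 + 8 by norm_num, add_pow]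
        refine sum_congr rfl (fun i _ => ?_)
        simp; ring

/-- bound on the numerators -/
lemma pP_le (k n : ℕ) : pP k n * 16 ^ k ≤ 2 ^ (n+1) * 17 ^ (k+n) := by
  have hbin : ∀ i, i ≤ n → (2*n-i).choose n ≤ 2 ^ (2*n-i) := fun i _ => Nat.choose_le_two_pow _ _
  unfold pP
  rw [sum_mul]
  calc ∑ i ∈ range (n+1), (k+n).choose i * (2*n-i).choose n * 8 ^ (n-i) * 16 ^ k
      ≤ ∑ i ∈ range (n+1), 2 ^ (n+1) * ((k+n).choose i * 16 ^ (k+n-i)) := by
        refine sum_le_sum (fun i hi => ?_)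
        have hi' : i ≤ n := by have := mem_range.mp hi; omega
        have e1 : (16:ℕ) ^ (k+n-i) = 16 ^ k * (2 ^ (n-i) * 8 ^ (n-i)) := by
          rw [← mul_pow, show k + n - i = k + (n - i) by omega, pow_add]; norm_num
        have e2 : (2:ℕ) ^ (2*n-i) = 2 ^ n * 2 ^ (n-i) := by
          rw [← pow_add]; congr 1; omega
        rw [e1]
        calc (k+n).choose i * (2*n-i).choose n * 8 ^ (n-i) * 16 ^ k
            ≤ (k+n).choose i * 2 ^ (2*n-i) * 8 ^ (n-i) * 16 ^ k := by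
              gcongr; exact hbin i hi'
          _ = 2 ^ n * ((k+n).choose i * (16 ^ k * (2 ^ (n-i) * 8 ^ (n-i)))) := by
              rw [e2]; ring
          _ ≤ 2 ^ (n+1) * ((k+n).choose i * (16 ^ k * (2 ^ (n-i) * 8 ^ (n-i)))) := by
              gcongr
              · norm_num
              · omega
    _ ≤ ∑ i ∈ range (k+n+1), 2 ^ (n+1) * ((k+n).choose i * 16 ^ (k+n-i)) := by
        apply sum_le_sum_of_subset
        intro i hi
        rw [mem_range] at hi ⊢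
        omega
    _ = 2 ^ (n+1) * 17 ^ (k+n) := by
        rw [← mul_sum, show (17:ℕ) = 1 + 16 by norm_num, add_pow]
        congr 1
        refine sum_congr rfl (fun i _ => ?_)
        simp; ring

lemma pR_small (n i0 i1 : ℕ) (h0 : i0 ≤ 1) (h1 : i1 ≤ 1) (hn : 3 ≤ n) :
    5 * pR (2*n+i0) (n+i1) * 19584 ^ n ≤ 8 ^ (2*n+i0) * 17576 ^ n := by
  have h := pR_le (2*n+i0) (n+i1) (by omega)
  have e1 : (26:ℕ) ^ (2*n+i0+(n+i1)) = 17576 ^ n * 26 ^ (i0+i1) := by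
    rw [show 2*n+i0+(n+i1) = 3*n + (i0+i1) by ring, pow_add, pow_mul]; norm_num
  have e2 : (18:ℕ) ^ (n+i1) * 17 ^ (n+i1+1) = 17 * (306 ^ n * 306 ^ i1) := by
    rw [pow_succ, ← mul_assoc, ← mul_pow, ← pow_add]; norm_num; ring
  rw [e1, e2] at h
  have e3 : (8:ℕ) ^ (2*n+i0) = 64 ^ n * 8 ^ i0 := by rw [pow_add, pow_mul]; norm_num
  have e4 : (19584:ℕ) ^ n = 306 ^ n * 64 ^ n := by rw [← mul_pow]; norm_num
  rw [e3]
  have key : (5 * pR (2*n+i0) (n+i1) * 19584 ^ n) * (17 * 306 ^ i1) ≤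
      (64 ^ n * 8 ^ i0 * 17576 ^ n) * (17 * 306 ^ i1) := by
    have a1 : (5 * pR (2*n+i0) (n+i1) * 19584 ^ n) * (17 * 306 ^ i1) =
        5 * 64 ^ n * (pR (2*n+i0) (n+i1) * (17 * (306 ^ n * 306 ^ i1))) := by rw [e4]; ring
    rw [a1]
    have a2 : 5 * 64 ^ n * (pR (2*n+i0) (n+i1) * (17 * (306 ^ n * 306 ^ i1))) ≤
        5 * 64 ^ n * (17576 ^ n * 26 ^ (i0+i1)) := Nat.mul_le_mul_left _ h
    refine le_trans a2 ?_
    have a4 : 5 * 26 ^ (i0+i1) ≤ 8 ^ i0 * 17 * 306 ^ i1 := by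
      interval_cases i0 <;> interval_cases i1 <;> norm_num
    calc 5 * 64 ^ n * (17576 ^ n * 26 ^ (i0+i1))
        = (64 ^ n * 17576 ^ n) * (5 * 26 ^ (i0+i1)) := by ring
      _ ≤ (64 ^ n * 17576 ^ n) * (8 ^ i0 * 17 * 306 ^ i1) := by gcongr
      _ = (64 ^ n * 8 ^ i0 * 17576 ^ n) * (17 * 306 ^ i1) := by ring
  exact Nat.le_of_mul_le_mul_right key (by positivity)

lemma pR_lt (n i0 i1 : ℕ) (h0 : i0 ≤ 1) (h1 : i1 ≤ 1) (hn : 3 ≤ n) :
    5 * pR (2*n+i0) (n+i1) ≤ 8 ^ (2*n+i0) := by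
  have h := pR_small n i0 i1 h0 h1 hn
  have a3 : (17576:ℕ) ^ n ≤ 19584 ^ n := Nat.pow_le_pow_left (by norm_num) n
  have h2 : 5 * pR (2*n+i0) (n+i1) * 19584 ^ n ≤ 8 ^ (2*n+i0) * 19584 ^ n :=
    le_trans h (Nat.mul_le_mul_left _ a3)
  exact Nat.le_of_mul_le_mul_right h2 (by positivity)

lemma pQ_small (n i0 i1 : ℕ) (h0 : i0 ≤ 1) (h1 : i1 ≤ 1) (hn : 3 ≤ n) (q : ℤ)
    (hq : 300 * |q| ≤ 2 ^ n) :
    2 * (|pQ (2*n+i0) (n+i1)| * |q|) < 8 ^ (2*n+i0) := by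
  set k := 2*n+i0 with hk
  set ν := n+i1 with hν
  have hpade := pade k ν (by omega)
  have h1' : 9 ^ k * |pQ k ν| ≤ 8 ^ k * (pP k ν : ℤ) + (pR k ν : ℤ) := by
    have : |9 ^ k * pQ k ν| = 9 ^ k * |pQ k ν| := by
      rw [abs_mul, abs_of_pos (by positivity)]
    rw [← this, hpade]
    refine le_trans (abs_add_le _ _) ?_
    rw [abs_mul, abs_mul, abs_pow, abs_pow, abs_neg, abs_one, one_pow, one_mul,
      Nat.abs_cast, Nat.abs_cast]
    norm_num
  have hPn := pP_le k ν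
  have hRn := pR_lt n i0 i1 h0 h1 hn
  rw [← hk, ← hν] at hRn
  have hP : (pP k ν : ℤ) * 16 ^ k ≤ 2 ^ (ν+1) * 17 ^ (k+ν) := by exact_mod_cast hPn
  have hR : 5 * (pR k ν : ℤ) ≤ 8 ^ k := by exact_mod_cast hRn
  have hq0 : 0 ≤ |q| := abs_nonneg q
  have m1 : 300 * |q| * (2 ^ (ν+1) * 17 ^ (k+ν)) * 4 < 300 * (9 ^ k * 16 ^ k) := by
    have e1 : (2:ℤ) ^ (ν+1) * 17 ^ (k+ν) = 2 * (9826 ^ n * (34 ^ i1 * 17 ^ i0)) := by
      have : (9826:ℤ) ^ n = 2 ^ n * 17 ^ n * (17 ^ n * 17 ^ n) := by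
        rw [← mul_pow, ← mul_pow, ← mul_pow]; norm_num
      have h34 : (34:ℤ) ^ i1 = 2 ^ i1 * 17 ^ i1 := by rw [← mul_pow]; norm_num
      rw [this, h34, hk, hν, pow_succ, pow_add, show 2*n+i0+(n+i1) = n+n+n+i0+i1 by ring]
      simp only [pow_add]; ring
    have e2 : (9:ℤ) ^ k * 16 ^ k = 20736 ^ n * 144 ^ i0 := by
      rw [← mul_pow, hk, pow_add, pow_mul]; norm_num
    rw [e1, e2]
    have e3 : (34:ℤ) ^ i1 * 17 ^ i0 * 8 < 300 * 144 ^ i0 := by
      interval_cases i0 <;> interval_cases i1 <;> norm_num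
    have e4 : (2:ℤ) ^ n * 9826 ^ n ≤ 20736 ^ n := by
      rw [← mul_pow]; exact pow_le_pow_left₀ (by norm_num) (by norm_num) n
    have hp : (0:ℤ) < 20736 ^ n := by positivity
    calc 300 * |q| * (2 * (9826 ^ n * (34 ^ i1 * 17 ^ i0))) * 4
        = (300 * |q|) * (9826 ^ n * (34 ^ i1 * 17 ^ i0 * 8)) := by ring
      _ ≤ 2 ^ n * (9826 ^ n * (34 ^ i1 * 17 ^ i0 * 8)) := by gcongr
      _ = (2 ^ n * 9826 ^ n) * (34 ^ i1 * 17 ^ i0 * 8) := by ring
      _ ≤ 20736 ^ n * (34 ^ i1 * 17 ^ i0 * 8) := by gcongr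
      _ < 20736 ^ n * (300 * 144 ^ i0) := by gcongr
      _ = 300 * (20736 ^ n * 144 ^ i0) := by ring
  have m3 : 4 * |q| * (pP k ν : ℤ) < 9 ^ k := by
    have m2 : 4 * |q| * ((pP k ν : ℤ) * 16 ^ k) < 9 ^ k * 16 ^ k := by
      have : 4 * |q| * ((pP k ν : ℤ) * 16 ^ k) ≤ 4 * |q| * (2 ^ (ν+1) * 17 ^ (k+ν)) := by gcongr
      linarith
    have h16 : (0:ℤ) < 16 ^ k := by positivity
    have : (4 * |q| * (pP k ν : ℤ)) * 16 ^ k < 9 ^ k * 16 ^ k := by linarith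
    exact lt_of_mul_lt_mul_right this h16.le
  have m4 : 4 * |q| ≤ 9 ^ k := by
    have : (2:ℤ) ^ n ≤ 9 ^ k := by
      calc (2:ℤ) ^ n ≤ 2 ^ k := pow_le_pow_right₀ (by norm_num) (by omega)
        _ ≤ 9 ^ k := pow_le_pow_left₀ (by norm_num) (by norm_num) k
    linarith
  have h8 : (0:ℤ) < 8 ^ k := by positivity
  have h9 : (0:ℤ) < 9 ^ k := by positivity
  have m5 : 9 ^ k * (2 * (2 * (|pQ k ν| * |q|))) < 9 ^ k * (2 * 8 ^ k) := by
    calc 9 ^ k * (2 * (2 * (|pQ k ν| * |q|))) = 4 * |q| * (9 ^ k * |pQ k ν|) := by ring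
      _ ≤ 4 * |q| * (8 ^ k * (pP k ν : ℤ) + (pR k ν : ℤ)) := by gcongr
      _ = 8 ^ k * (4 * |q| * (pP k ν : ℤ)) + 4 * |q| * (pR k ν : ℤ) := by ring
      _ < 8 ^ k * 9 ^ k + 4 * |q| * (pR k ν : ℤ) := by
          have := mul_lt_mul_of_pos_left m3 h8
          linarith
      _ ≤ 8 ^ k * 9 ^ k + 9 ^ k * 8 ^ k := by
          have hR' : (pR k ν : ℤ) ≤ 8 ^ k := by
            have : (0:ℤ) ≤ pR k ν := by positivity
            linarith
          have := mul_le_mul m4 hR' (by positivity) h9.le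
          linarith
      _ = 9 ^ k * (2 * 8 ^ k) := by ring
  have m6 := lt_of_mul_lt_mul_left m5 h9.le
  linarith

lemma pR_small' (n i0 i1 : ℕ) (h0 : i0 ≤ 1) (h1 : i1 ≤ 1) (hn : 3 ≤ n) (r : ℤ)
    (hr : |r| * 9 ^ n ≤ 10 ^ n) :
    2 * (|r| * (pR (2*n+i0) (n+i1) : ℤ)) < 8 ^ (2*n+i0) := by
  have h := pR_small n i0 i1 h0 h1 hn
  have h' : 5 * (pR (2*n+i0) (n+i1) : ℤ) * 19584 ^ n ≤ 8 ^ (2*n+i0) * 17576 ^ n := by
    exact_mod_cast h
  have hr0 := abs_nonneg r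
  have hr' : |r| * 17576 ^ n ≤ 19584 ^ n := by
    have e1 : (17576:ℤ) ^ n * 10 ^ n ≤ 19584 ^ n * 9 ^ n := by
      rw [← mul_pow, ← mul_pow]; exact pow_le_pow_left₀ (by norm_num) (by norm_num) n
    have e2 : (|r| * 17576 ^ n) * 9 ^ n ≤ 19584 ^ n * 9 ^ n := by
      calc (|r| * 17576 ^ n) * 9 ^ n = (|r| * 9 ^ n) * 17576 ^ n := by ring
        _ ≤ 10 ^ n * 17576 ^ n := by gcongr
        _ = 17576 ^ n * 10 ^ n := by ring
        _ ≤ _ := e1
    exact le_of_mul_le_mul_right e2 (by positivity)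
  have h8 : (0:ℤ) < 8 ^ (2*n+i0) := by positivity
  have hp : (0:ℤ) < 19584 ^ n := by positivity
  have key : (5 * (|r| * (pR (2*n+i0) (n+i1) : ℤ))) * 19584 ^ n ≤ 8 ^ (2*n+i0) * 19584 ^ n := by
    calc (5 * (|r| * (pR (2*n+i0) (n+i1) : ℤ))) * 19584 ^ n
        = |r| * (5 * (pR (2*n+i0) (n+i1) : ℤ) * 19584 ^ n) := by ring
      _ ≤ |r| * (8 ^ (2*n+i0) * 17576 ^ n) := by gcongr
      _ = 8 ^ (2*n+i0) * (|r| * 17576 ^ n) := by ring
      _ ≤ 8 ^ (2*n+i0) * 19584 ^ n := by gcongr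
  have h5 := le_of_mul_le_mul_right key hp
  have h6 : 0 ≤ |r| * (pR (2*n+i0) (n+i1) : ℤ) := by positivity
  linarith

/-- If `9^k r = 8^k g + q` with `r`, `q` small then `r = 0`. -/
theorem pade_apply (n i0 : ℕ) (h0 : i0 ≤ 1) (hn : 3 ≤ n) (r g q : ℤ)
    (h : 9 ^ (2*n+i0) * r = 8 ^ (2*n+i0) * g + q)
    (hr : |r| * 9 ^ n ≤ 10 ^ n) (hq : 300 * |q| ≤ 2 ^ n) : r = 0 := by
  set k := 2*n+i0 with hk
  have hzero : ∀ i1 : ℕ, i1 ≤ 1 →
      r * ((-1) ^ (n+i1) * (pP k (n+i1) : ℤ)) - g * pQ k (n+i1) = 0 := by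
    intro i1 h1
    have hp := pade k (n+i1) (by omega)
    set d := r * ((-1) ^ (n+i1) * (pP k (n+i1) : ℤ)) - g * pQ k (n+i1) with hd
    have e1 : 8 ^ k * d = pQ k (n+i1) * q - r * (pR k (n+i1) : ℤ) := by
      have : 8 ^ k * d = r * (8 ^ k * ((-1) ^ (n+i1) * (pP k (n+i1) : ℤ))) -
          (8 ^ k * g) * pQ k (n+i1) := by rw [hd]; ring
      rw [this]
      have e2 : 8 ^ k * ((-1) ^ (n+i1) * (pP k (n+i1) : ℤ)) =
        9 ^ k * pQ k (n+i1) - (pR k (n+i1) : ℤ) := by linarith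
      have e3 : 8 ^ k * g = 9 ^ k * r - q := by linarith
      rw [e2, e3]; ring
    have a1 := pR_small' n i0 i1 h0 h1 hn r hr
    have a2 := pQ_small n i0 i1 h0 h1 hn q hq
    rw [← hk] at a1 a2
    have h8 : (0:ℤ) < 8 ^ k := by positivity
    have e4 : |8 ^ k * d| < 8 ^ k * 1 := by
      rw [e1]
      calc |pQ k (n+i1) * q - r * (pR k (n+i1) : ℤ)|
          ≤ |pQ k (n+i1) * q| + |r * (pR k (n+i1) : ℤ)| := abs_sub _ _
        _ = |pQ k (n+i1)| * |q| + |r| * (pR k (n+i1) : ℤ) := by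
            rw [abs_mul, abs_mul, Nat.abs_cast]
        _ < 8 ^ k * 1 := by linarith
    rw [abs_mul, abs_of_pos h8] at e4
    have e5 : |d| < 1 := lt_of_mul_lt_mul_left e4 h8.le
    exact Int.abs_lt_one_iff.mp e5
  have z0 := hzero 0 (by omega)
  have z1 := hzero 1 le_rfl
  rw [add_zero] at z0
  have hdet := pade_det k n (by omega)
  have : r * (((-1) ^ n * (pP k n : ℤ)) * pQ k (n+1) -
      ((-1) ^ (n+1) * (pP k (n+1) : ℤ)) * pQ k n) = 0 := by
    have y0 : r * ((-1) ^ n * (pP k n : ℤ)) = g * pQ k n := by linarith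
    have y1 : r * ((-1) ^ (n+1) * (pP k (n+1) : ℤ)) = g * pQ k (n+1) := by linarith
    calc r * (((-1) ^ n * (pP k n : ℤ)) * pQ k (n+1) -
      ((-1) ^ (n+1) * (pP k (n+1) : ℤ)) * pQ k n)
        = (r * ((-1) ^ n * (pP k n : ℤ))) * pQ k (n+1) -
          (r * ((-1) ^ (n+1) * (pP k (n+1) : ℤ))) * pQ k n := by ring
      _ = 0 := by rw [y0, y1]; ring
  rcases mul_eq_zero.mp this with h | h
  · exact h
  · exact absurd h hdet

end Pool.Agent.H30
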