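import Pool.Agent.H30.Const

/-!
Uniform sparsity of injective trajectory segments, exponent `θ = H(log 2/log 3)`.
-/

set_option autoImplicit false

namespace Pool.Agent.H30

open Finset

/-- Indices `i < N` with `A ≤ T^i(n₀) < A + L`. -/
def vis (n₀ : ℤ) (N : ℕ) (A : ℤ) (L : ℕ) : Finset ℕ :=
  (range N).filter (fun i => A ≤ T^[i] n₀ ∧ T^[i] n₀ < A + L)

lemma mem_vis {n₀ : ℤ} {N : ℕ} {A : ℤ} {L i : ℕ} :
    i ∈ vis n₀ N A L ↔ i < N ∧ A ≤ T^[i] n₀ ∧ T^[i] n₀ < A + L := by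
  simp [vis]

/-- Counting residues with many odd steps. -/
lemma card_S_ge (A : ℤ) (l s : ℕ) :
    (((range (2 ^ l)).filter (fun r : ℕ => s ≤ S l (A + r))).card : ℝ) ≤
      (1 + La) ^ l * La ^ (-(s:ℝ)) := by
  have hL := one_lt_La
  have hL0 := La_pos
  have h := sum_pow_S La A l
  rw [← h, Real.rpow_neg hL0.le, Real.rpow_natCast, ← div_eq_mul_inv, le_div_iff₀ (by positivity)]
  calc (((range (2 ^ l)).filter (fun r : ℕ => s ≤ S l (A + r))).card : ℝ) * La ^ s
      = ∑ r ∈ (range (2 ^ l)).filter (fun r : ℕ => s ≤ S l (A + r)), La ^ s := by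
        rw [sum_const, nsmul_eq_mul]
    _ ≤ ∑ r ∈ (range (2 ^ l)).filter (fun r : ℕ => s ≤ S l (A + r)), La ^ (S l (A + r)) := by
        refine sum_le_sum (fun r hr => ?_)
        exact pow_le_pow_right₀ hL.le (mem_filter.mp hr).2
    _ ≤ ∑ r ∈ range (2 ^ l), La ^ (S l (A + r)) := by
        refine sum_le_sum_of_subset_of_nonneg (filter_subset _ _) (fun r _ _ => by positivity)

/-- Indices in an interval of length `2^l`, injected into residues. -/
lemma card_vis_S_ge (n₀ : ℤ) (N : ℕ)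
    (hinj : ∀ i < N, ∀ j < N, T^[i] n₀ = T^[j] n₀ → i = j) (A : ℤ) (l s : ℕ) :
    (((vis n₀ N A (2 ^ l)).filter (fun i => s ≤ S l (T^[i] n₀))).card : ℝ) ≤
      (1 + La) ^ l * La ^ (-(s:ℝ)) := by
  refine le_trans ?_ (card_S_ge A l s)
  norm_cast
  refine card_le_card_of_injOn (fun i => (T^[i] n₀ - A).toNat) ?_ ?_
  · intro i hi
    simp only [coe_filter, Set.mem_ofPred_eq, mem_vis] at hi
    obtain ⟨⟨h1, h2, h3⟩, h4⟩ := hi
    simp only [coe_filter, Set.mem_ofPred_eq, mem_range]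
    push_cast at h3
    have e : (((T^[i] n₀ - A).toNat : ℕ) : ℤ) = T^[i] n₀ - A := Int.toNat_of_nonneg (by linarith)
    constructor
    · have : (((T^[i] n₀ - A).toNat : ℕ) : ℤ) < ((2 ^ l : ℕ) : ℤ) := by
        rw [e]; push_cast; linarith
      exact_mod_cast this
    · rw [e]; simpa using h4
  · intro i hi j hj hij
    simp only [coe_filter, Set.mem_ofPred_eq, mem_vis] at hi hj
    refine hinj i hi.1.1 j hj.1.1 ?_
    have h1 : 0 ≤ T^[i] n₀ - A := by linarith [hi.1.2.1]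
    have h2 : 0 ≤ T^[j] n₀ - A := by linarith [hj.1.2.1]
    have : (((T^[i] n₀ - A).toNat : ℕ) : ℤ) = (((T^[j] n₀ - A).toNat : ℕ) : ℤ) := by
      exact_mod_cast hij
    rw [Int.toNat_of_nonneg h1, Int.toNat_of_nonneg h2] at this
    linarith

/-- Indices with exactly `s` odd steps among the next `l` are sent by `T^l` into an interval of
length `3^(s+1)`. -/
lemma card_vis_S_eq (n₀ : ℤ) (N : ℕ) (A : ℤ) (l s : ℕ) :
    ((vis n₀ N A (2 ^ l)).filter (fun i => i + l < N ∧ S l (T^[i] n₀) = s)).card ≤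
      (vis n₀ N (3 ^ s * A / 2 ^ l) (3 ^ (s+1))).card := by
  refine card_le_card_of_injOn (fun i => i + l) ?_ ?_
  · intro i hi
    simp only [coe_filter, Set.mem_ofPred_eq, mem_vis] at hi
    obtain ⟨⟨h1, h2, h3⟩, h4, h5⟩ := hi
    simp only [mem_coe, mem_vis]
    push_cast at h3 ⊢
    set n := T^[i] n₀ with hn
    have hit : T^[i + l] n₀ = T^[l] n := by
      rw [hn, add_comm, Function.iterate_add_apply]
    rw [hit]
    have hspec := C_spec l n
    have hC0 := C_nonneg l n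
    have hC1 := C_le l n
    rw [h5] at hspec hC1
    have h2l : (0:ℤ) < 2 ^ l := by positivity
    have h3s : (1:ℤ) ≤ 3 ^ s := one_le_pow₀ (by norm_num)
    have hd1 := Int.mul_ediv_self_le (x := 3 ^ s * A) (k := 2 ^ l) h2l.ne'
    have hd2 := Int.lt_mul_ediv_self_add (x := 3 ^ s * A) (k := 2 ^ l) h2l
    have hA1 : 3 ^ s * A ≤ 3 ^ s * n := mul_le_mul_of_nonneg_left h2 (by positivity)
    have hA2 : 3 ^ s * n ≤ 3 ^ s * (A + 2 ^ l) := mul_le_mul_of_nonneg_left h3.le (by positivity)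
    refine ⟨h4, ?_, ?_⟩
    · have : 2 ^ l * (3 ^ s * A / 2 ^ l) ≤ 2 ^ l * T^[l] n := by linarith
      exact le_of_mul_le_mul_left this h2l
    · have h6 : 2 ^ l * T^[l] n < 2 ^ l * (3 ^ s * A / 2 ^ l + 3 ^ (s+1)) := by
        have h7 : 2 ^ l * 1 ≤ (2:ℤ) ^ l * 3 ^ s := mul_le_mul_of_nonneg_left h3s h2l.le
        calc 2 ^ l * T^[l] n = 3 ^ s * n + C l n := hspec
          _ ≤ 3 ^ s * (A + 2 ^ l) + 2 ^ l * 3 ^ s := by linarith
          _ = 3 ^ s * A + 2 * (2 ^ l * 3 ^ s) := by ring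
          _ < (2 ^ l * (3 ^ s * A / 2 ^ l) + 2 ^ l) + 2 * (2 ^ l * 3 ^ s) := by linarith
          _ ≤ (2 ^ l * (3 ^ s * A / 2 ^ l)) + 3 * (2 ^ l * 3 ^ s) := by linarith
          _ = 2 ^ l * (3 ^ s * A / 2 ^ l + 3 ^ (s+1)) := by ring
      exact lt_of_mul_lt_mul_left h6 h2l.le
  · intro i _ j _ hij
    simpa using hij

/-- Monotonicity in the length. -/
lemma vis_mono (n₀ : ℤ) (N : ℕ) (A : ℤ) {L L' : ℕ} (h : L ≤ L') :
    vis n₀ N A L ⊆ vis n₀ N A L' := by
  intro i hi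
  rw [mem_vis] at hi ⊢
  refine ⟨hi.1, hi.2.1, lt_of_lt_of_le hi.2.2 ?_⟩
  have : (L:ℤ) ≤ L' := by exact_mod_cast h
  linarith

/-- The basic recursion. -/
lemma vis_step (n₀ : ℤ) (N : ℕ)
    (hinj : ∀ i < N, ∀ j < N, T^[i] n₀ = T^[j] n₀ → i = j) (A : ℤ) (l s₀ : ℕ) :
    ((vis n₀ N A (2 ^ l)).card : ℝ) ≤ l +
      ∑ s ∈ range s₀, ((vis n₀ N (3 ^ s * A / 2 ^ l) (3 ^ (s+1))).card : ℝ) +
      (1 + La) ^ l * La ^ (-(s₀:ℝ)) := by
  have h1 := card_vis_S_ge n₀ N hinj A l s₀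
  have hsub : vis n₀ N A (2 ^ l) ⊆
      ((vis n₀ N A (2 ^ l)).filter (fun i => N ≤ i + l)) ∪
      ((range s₀).biUnion (fun s => (vis n₀ N A (2 ^ l)).filter
        (fun i => i + l < N ∧ S l (T^[i] n₀) = s))) ∪
      ((vis n₀ N A (2 ^ l)).filter (fun i => s₀ ≤ S l (T^[i] n₀))) := by
    intro i hi
    simp only [mem_union, mem_biUnion, mem_filter, mem_range]
    by_cases ha : N ≤ i + l
    · exact Or.inl (Or.inl ⟨hi, ha⟩)
    · by_cases hb : s₀ ≤ S l (T^[i] n₀)
      · exact Or.inr ⟨hi, hb⟩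
      · exact Or.inl (Or.inr ⟨S l (T^[i] n₀), by omega, hi, by omega, rfl⟩)
  have hc := card_le_card hsub
  have hfirst : ((vis n₀ N A (2 ^ l)).filter (fun i => N ≤ i + l)).card ≤ l := by
    have : ((vis n₀ N A (2 ^ l)).filter (fun i => N ≤ i + l)) ⊆ Ico (N - l) N := by
      intro i hi
      rw [mem_filter, mem_vis] at hi
      rw [mem_Ico]; omega
    have := card_le_card this
    rw [Nat.card_Ico] at this
    omega
  have hsecond : ((range s₀).biUnion (fun s => (vis n₀ N A (2 ^ l)).filter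
        (fun i => i + l < N ∧ S l (T^[i] n₀) = s))).card ≤
      ∑ s ∈ range s₀, (vis n₀ N (3 ^ s * A / 2 ^ l) (3 ^ (s+1))).card := by
    refine le_trans card_biUnion_le (sum_le_sum (fun s _ => card_vis_S_eq n₀ N A l s))
  have hU := (card_union_le (((vis n₀ N A (2 ^ l)).filter (fun i => N ≤ i + l)) ∪
      ((range s₀).biUnion (fun s => (vis n₀ N A (2 ^ l)).filter
        (fun i => i + l < N ∧ S l (T^[i] n₀) = s))))
      ((vis n₀ N A (2 ^ l)).filter (fun i => s₀ ≤ S l (T^[i] n₀))))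
  have hU2 := card_union_le ((vis n₀ N A (2 ^ l)).filter (fun i => N ≤ i + l))
      ((range s₀).biUnion (fun s => (vis n₀ N A (2 ^ l)).filter
        (fun i => i + l < N ∧ S l (T^[i] n₀) = s)))
  have htot : (vis n₀ N A (2 ^ l)).card ≤ l +
      ∑ s ∈ range s₀, (vis n₀ N (3 ^ s * A / 2 ^ l) (3 ^ (s+1))).card +
      ((vis n₀ N A (2 ^ l)).filter (fun i => s₀ ≤ S l (T^[i] n₀))).card := by omega
  have htot' : ((vis n₀ N A (2 ^ l)).card : ℝ) ≤ l +
      ∑ s ∈ range s₀, ((vis n₀ N (3 ^ s * A / 2 ^ l) (3 ^ (s+1))).card : ℝ) +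
      (((vis n₀ N A (2 ^ l)).filter (fun i => s₀ ≤ S l (T^[i] n₀))).card : ℝ) := by
    exact_mod_cast htot
  linarith

/-- A constant making the geometric sum small. -/
lemma exists_D : ∃ D : ℝ, 0 ≤ D ∧ (6:ℝ) ^ th / (3 ^ th - 1) * 3 ^ (-(th * D)) ≤ 1 / 4 ∧
    (3:ℝ) ^ (-D) ≤ 1 / 2 := by
  have hth := th_pos
  have h1 : Filter.Tendsto (fun D : ℝ => (6:ℝ) ^ th / (3 ^ th - 1) * 3 ^ (-(th * D)))
      Filter.atTop (nhds ((6:ℝ) ^ th / (3 ^ th - 1) * 0)) := by
    apply Filter.Tendsto.const_mul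
    have : (fun D : ℝ => (3:ℝ) ^ (-(th * D))) = fun D : ℝ => Real.exp (-(th * Real.log 3 * D)) := by
      funext D
      rw [Real.rpow_def_of_pos (by norm_num)]; ring_nf
    rw [this]
    apply Real.tendsto_exp_neg_atTop_nhds_zero.comp
    exact Filter.Tendsto.const_mul_atTop (mul_pos hth log_three_pos) Filter.tendsto_id
  have h2 : Filter.Tendsto (fun D : ℝ => (3:ℝ) ^ (-D)) Filter.atTop (nhds 0) := by
    have : (fun D : ℝ => (3:ℝ) ^ (-D)) = fun D : ℝ => Real.exp (-(Real.log 3 * D)) := by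
      funext D
      rw [Real.rpow_def_of_pos (by norm_num)]; ring_nf
    rw [this]
    apply Real.tendsto_exp_neg_atTop_nhds_zero.comp
    exact Filter.Tendsto.const_mul_atTop log_three_pos Filter.tendsto_id
  rw [mul_zero] at h1
  have e1 := h1.eventually (ge_mem_nhds (show (0:ℝ) < 1/4 by norm_num))
  have e2 := h2.eventually (ge_mem_nhds (show (0:ℝ) < 1/2 by norm_num))
  obtain ⟨D, hD⟩ := (e1.and (e2.and (Filter.eventually_ge_atTop (0:ℝ)))).exists
  exact ⟨D, hD.2.2, hD.1, hD.2.1⟩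

/-- `s₀ = ⌊α l - D⌋`. -/
noncomputable def s0 (D : ℝ) (l : ℕ) : ℕ := ⌊al * l - D⌋₊

lemma s0_ge (D : ℝ) (l : ℕ) : al * l - s0 D l ≤ D + 1 := by
  have := Nat.lt_floor_add_one (al * l - D)
  unfold s0; linarith

lemma three_pow_s0_le (D : ℝ) (l : ℕ) (h : 0 < s0 D l) :
    (3:ℝ) ^ (s0 D l : ℝ) ≤ 2 ^ (l:ℝ) * 3 ^ (-D) := by
  have h1 : 0 ≤ al * l - D := by
    by_contra hneg
    push Not at hneg
    have : s0 D l = 0 := Nat.floor_of_nonpos hneg.le
    omega
  have h2 : (s0 D l : ℝ) ≤ al * l - D := Nat.floor_le h1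
  calc (3:ℝ) ^ (s0 D l : ℝ) ≤ 3 ^ (al * l - D) :=
        Real.rpow_le_rpow_of_exponent_le (by norm_num) h2
    _ = 2 ^ (l:ℝ) * 3 ^ (-D) := by
        rw [sub_eq_add_neg, Real.rpow_add (by norm_num), Real.rpow_mul (by norm_num),
          three_rpow_al]

/-- Uniform sparsity for dyadic lengths. -/
theorem sparse_dyadic : ∃ K : ℝ, 0 < K ∧ ∀ (n₀ : ℤ) (N : ℕ),
    (∀ i < N, ∀ j < N, T^[i] n₀ = T^[j] n₀ → i = j) → ∀ (l : ℕ) (A : ℤ),
    ((vis n₀ N A (2 ^ l)).card : ℝ) ≤ K * 2 ^ (th * l) := by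
  obtain ⟨D, hD0, hD1, hD2⟩ := exists_D
  have hth := th_pos
  have hL := one_lt_La
  have hL0 := La_pos
  set K : ℝ := 2 * (1 / (th * Real.log 2) + La ^ (D + 1)) with hK
  have hlog2 := log_two_pos
  have hKpos : 0 < K := by positivity
  refine ⟨K, hKpos, ?_⟩
  intro n₀ N hinj l
  induction l using Nat.strong_induction_on with
  | _ l ih =>
    intro A
    have hstep := vis_step n₀ N hinj A l (s0 D l)
    have hpow : (0:ℝ) < 2 ^ (th * l) := Real.rpow_pos_of_pos (by norm_num) _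
    -- the residue part
    have hres : (1 + La) ^ l * La ^ (-((s0 D l : ℕ) : ℝ)) ≤ La ^ (D + 1) * 2 ^ (th * l) := by
      rw [W_eq, mul_comm]
      apply mul_le_mul_of_nonneg_right _ hpow.le
      exact Real.rpow_le_rpow_of_exponent_le hL.le (s0_ge D l)
    -- the trivial part
    have htriv : (l:ℝ) ≤ 1 / (th * Real.log 2) * 2 ^ (th * l) := by
      rw [div_mul_eq_mul_div, one_mul, le_div_iff₀ (by positivity)]
      have := Real.add_one_le_exp (Real.log 2 * (th * l))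
      rw [Real.rpow_def_of_pos (by norm_num)]
      nlinarith
    -- the sum
    have hterm : ∀ s ∈ range (s0 D l),
        ((vis n₀ N (3 ^ s * A / 2 ^ l) (3 ^ (s+1))).card : ℝ) ≤ K * (6 * 3 ^ s) ^ th := by
      intro s hs
      have hs' := mem_range.mp hs
      have hpos : 0 < s0 D l := by omega
      set l' := Nat.clog 2 (3 ^ (s+1)) with hl'
      have h3 : 3 ^ (s+1) ≤ 2 ^ l' := Nat.le_pow_clog (by norm_num) _
      have h1lt : 1 < 3 ^ (s+1) := Nat.one_lt_pow (by omega) (by norm_num)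
      have h4 : 2 ^ l' < 2 * 3 ^ (s+1) := by
        have hb : 2 ^ (l' - 1) < 3 ^ (s+1) := Nat.pow_pred_clog_lt_self (by norm_num) h1lt
        have hl0 : 0 < l' := Nat.clog_pos (by norm_num) h1lt
        calc 2 ^ l' = 2 * 2 ^ (l' - 1) := by
              rw [← pow_succ']; congr 1; omega
          _ < 2 * 3 ^ (s+1) := by omega
      have h5 : 2 * (3:ℝ) ^ (s+1) ≤ 2 ^ l := by
        have a1 := three_pow_s0_le D l hpos
        have a2 : (3:ℝ) ^ (s+1) ≤ 3 ^ (s0 D l : ℝ) := by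
          rw [Real.rpow_natCast]
          exact pow_le_pow_right₀ (by norm_num) hs'
        have a3 : (2:ℝ) ^ (l:ℝ) * 3 ^ (-D) ≤ 2 ^ (l:ℝ) * (1/2) :=
          mul_le_mul_of_nonneg_left hD2 (by positivity)
        simp only [Real.rpow_natCast] at a1 a2 a3
        linarith
      have h6 : l' < l := by
        have : (2:ℕ) ^ l' < 2 ^ l := by
          have h5' : 2 * 3 ^ (s+1) ≤ 2 ^ l := by exact_mod_cast h5
          omega
        exact (Nat.pow_lt_pow_iff_right (by norm_num)).mp this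
      have h7 := ih l' h6 (3 ^ s * A / 2 ^ l)
      have h8 : ((vis n₀ N (3 ^ s * A / 2 ^ l) (3 ^ (s+1))).card : ℝ) ≤
          ((vis n₀ N (3 ^ s * A / 2 ^ l) (2 ^ l')).card : ℝ) := by
        exact_mod_cast card_le_card (vis_mono n₀ N _ h3)
      refine le_trans h8 (le_trans h7 ?_)
      apply mul_le_mul_of_nonneg_left _ hKpos.le
      have : (2:ℝ) ^ (th * l') = ((2:ℝ) ^ l') ^ th := by
        rw [mul_comm, Real.rpow_mul (by norm_num), Real.rpow_natCast]
      rw [this]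
      apply Real.rpow_le_rpow (by positivity) _ hth.le
      have h4' : (2:ℝ) ^ l' < 2 * 3 ^ (s+1) := by exact_mod_cast h4
      calc (2:ℝ) ^ l' ≤ 2 * 3 ^ (s+1) := h4'.le
        _ = 6 * 3 ^ s := by ring
    have hsum : ∑ s ∈ range (s0 D l), ((vis n₀ N (3 ^ s * A / 2 ^ l) (3 ^ (s+1))).card : ℝ) ≤
        K * 2 ^ (th * l) * (1 / 4) := by
      rcases Nat.eq_zero_or_pos (s0 D l) with h0 | hpos
      · rw [h0]; simp; positivity
      · have hq : (1:ℝ) < 3 ^ th := Real.one_lt_rpow (by norm_num) hth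
        calc ∑ s ∈ range (s0 D l), ((vis n₀ N (3 ^ s * A / 2 ^ l) (3 ^ (s+1))).card : ℝ)
            ≤ ∑ s ∈ range (s0 D l), K * (6 * 3 ^ s) ^ th := sum_le_sum hterm
          _ = K * 6 ^ th * ∑ s ∈ range (s0 D l), ((3:ℝ) ^ th) ^ s := by
              rw [mul_sum]
              refine sum_congr rfl (fun s _ => ?_)
              rw [Real.mul_rpow (by norm_num) (by positivity), ← Real.rpow_natCast (3 ^ th) s,
                ← Real.rpow_mul (by norm_num), ← Real.rpow_natCast 3 s,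
                ← Real.rpow_mul (by norm_num), mul_comm th]
              ring
          _ = K * 6 ^ th * ((((3:ℝ) ^ th) ^ (s0 D l) - 1) / (3 ^ th - 1)) := by
              rw [geom_sum_eq hq.ne']
          _ ≤ K * 6 ^ th * ((((3:ℝ) ^ th) ^ (s0 D l)) / (3 ^ th - 1)) := by
              apply mul_le_mul_of_nonneg_left _ (by positivity)
              apply div_le_div_of_nonneg_right _ (by linarith)
              linarith
          _ ≤ K * 6 ^ th * ((2 ^ (th * l) * 3 ^ (-(th * D))) / (3 ^ th - 1)) := by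
              apply mul_le_mul_of_nonneg_left _ (by positivity)
              apply div_le_div_of_nonneg_right _ (by linarith)
              have a1 := three_pow_s0_le D l hpos
              have a2 : (((3:ℝ) ^ th) ^ (s0 D l)) = ((3:ℝ) ^ (s0 D l : ℝ)) ^ th := by
                rw [← Real.rpow_natCast (3 ^ th) (s0 D l), ← Real.rpow_mul (by norm_num),
                  ← Real.rpow_mul (by norm_num), mul_comm]
              rw [a2]
              calc ((3:ℝ) ^ (s0 D l : ℝ)) ^ th ≤ (2 ^ (l:ℝ) * 3 ^ (-D)) ^ th :=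
                    Real.rpow_le_rpow (by positivity) a1 hth.le
                _ = 2 ^ (th * l) * 3 ^ (-(th * D)) := by
                    rw [Real.mul_rpow (by positivity) (by positivity), ← Real.rpow_mul (by norm_num),
                      ← Real.rpow_mul (by norm_num)]
                    ring_nf
          _ = K * 2 ^ (th * l) * (6 ^ th / (3 ^ th - 1) * 3 ^ (-(th * D))) := by
              have : (3:ℝ) ^ th - 1 ≠ 0 := by linarith
              field_simp
          _ ≤ K * 2 ^ (th * l) * (1 / 4) := by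
              apply mul_le_mul_of_nonneg_left hD1 (by positivity)
    calc ((vis n₀ N A (2 ^ l)).card : ℝ)
        ≤ l + ∑ s ∈ range (s0 D l), ((vis n₀ N (3 ^ s * A / 2 ^ l) (3 ^ (s+1))).card : ℝ) +
          (1 + La) ^ l * La ^ (-((s0 D l : ℕ) : ℝ)) := hstep
      _ ≤ 1 / (th * Real.log 2) * 2 ^ (th * l) + K * 2 ^ (th * l) * (1 / 4) +
          La ^ (D + 1) * 2 ^ (th * l) := by linarith
      _ = K / 2 * 2 ^ (th * l) + K * 2 ^ (th * l) * (1 / 4) := by rw [hK]; ring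
      _ ≤ K * 2 ^ (th * l) := by
          have : 0 < K * 2 ^ (th * l) := by positivity
          linarith

/-- Uniform sparsity for all lengths. -/
theorem sparse : ∃ K : ℝ, 0 < K ∧ ∀ (n₀ : ℤ) (N : ℕ),
    (∀ i < N, ∀ j < N, T^[i] n₀ = T^[j] n₀ → i = j) → ∀ (A : ℤ) (L : ℕ), 1 ≤ L →
    ((vis n₀ N A L).card : ℝ) ≤ K * (L:ℝ) ^ th := by
  obtain ⟨K, hK, h⟩ := sparse_dyadic
  have hth := th_pos
  refine ⟨K * 2 ^ th, by positivity, ?_⟩
  intro n₀ N hinj A L hL
  set l := Nat.clog 2 L with hl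
  have h3 : L ≤ 2 ^ l := Nat.le_pow_clog (by norm_num) _
  have h4 : (2:ℝ) ^ l ≤ 2 * L := by
    rcases Nat.lt_or_ge 1 L with h1 | h1
    · have hb : 2 ^ (l - 1) < L := Nat.pow_pred_clog_lt_self (by norm_num) h1
      have hl0 : 0 < l := Nat.clog_pos (by norm_num) h1
      have : 2 ^ l ≤ 2 * L := by
        calc 2 ^ l = 2 * 2 ^ (l - 1) := by rw [← pow_succ']; congr 1; omega
          _ ≤ 2 * L := by omega
      exact_mod_cast this
    · have : L = 1 := by omega
      rw [hl, this]; norm_num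
  calc ((vis n₀ N A L).card : ℝ) ≤ ((vis n₀ N A (2 ^ l)).card : ℝ) := by
        exact_mod_cast card_le_card (vis_mono n₀ N A h3)
    _ ≤ K * 2 ^ (th * l) := h n₀ N hinj l A
    _ = K * ((2:ℝ) ^ l) ^ th := by
        rw [mul_comm th, Real.rpow_mul (by norm_num), Real.rpow_natCast]
    _ ≤ K * (2 * L) ^ th := by
        apply mul_le_mul_of_nonneg_left _ hK.le
        exact Real.rpow_le_rpow (by positivity) h4 hth.le
    _ = K * 2 ^ th * (L:ℝ) ^ th := by
        rw [Real.mul_rpow (by norm_num) (by positivity)]; ring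

end Pool.Agent.H30
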