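import Pool.Agent.H30.ClassBound
import Pool.Agent.H30.Orbit

/-!
Improved exponent for injective trajectory segments.
-/

set_option autoImplicit false

namespace Pool.Agent.H30

open Finset Filter

lemma S_one (z : ℤ) : S 1 z = par z := by
  rw [S_succ', S_zero]; rfl

lemma C_one (z : ℤ) : C 1 z = par z := by
  rw [C_succ', C_zero, S_zero]; simp

/-- Bound for `C` from lower bounds on the partial multipliers. -/
lemma C_le_of (t : ℕ) (n : ℤ) (j : ℕ) (h : ∀ d < j, 2 ^ d ≤ 3 ^ (S d n) * 2 ^ t) :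
    3 * C j n ≤ j * 2 ^ t * 3 ^ (S j n) := by
  induction j with
  | zero => simp [C_zero]
  | succ j ih =>
    have ih' := ih (fun d hd => h d (by omega))
    have hj : (2:ℤ) ^ j ≤ 3 ^ (S j n) * 2 ^ t := by exact_mod_cast h j (by omega)
    have hC := C_add j 1 n
    have hS := S_add j 1 n
    rw [S_one, C_one] at hC
    rw [S_one] at hS
    have h3 : (0:ℤ) < 3 ^ S j n := by positivity
    have h2 : (0:ℤ) < 2 ^ t := by positivity
    rcases Nat.le_one_iff_eq_zero_or_eq_one.mp (par_le_one (T^[j] n)) with hp | hp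
    · rw [hp] at hC hS
      rw [hC, hS]
      have : (0:ℤ) ≤ 2 ^ t * 3 ^ S j n := by positivity
      push_cast
      simp only [one_mul, add_zero, mul_zero]
      linarith
    · rw [hp] at hC hS
      rw [hC, hS, pow_add]
      push_cast
      linarith

/-- Contracted part: indices whose trajectory has contracted by a factor `2^t` after `j` steps
(and not before). -/
lemma card_typeI (n₀ : ℤ) (N : ℕ) (A : ℤ) (m t j s : ℕ) (htm : t ≤ m)
    (hj : j + 1 ≤ 2 ^ (m - t)) (hs : 3 ^ s * 2 ^ t < 2 ^ j) :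
    ((vis n₀ N A (2 ^ m)).filter (fun i => i + j < N ∧ S j (T^[i] n₀) = s ∧
      ∀ d < j, 2 ^ d ≤ 3 ^ (S d (T^[i] n₀)) * 2 ^ t)).card ≤
      (vis n₀ N (3 ^ s * A / 2 ^ j) (2 ^ (m - t + 1))).card := by
  refine card_le_card_of_injOn (fun i => i + j) ?_ ?_
  · intro i hi
    simp only [coe_filter, Set.mem_ofPred_eq, mem_vis] at hi
    obtain ⟨⟨h1, h2, h3⟩, h4, h5, h6⟩ := hi
    simp only [mem_coe, mem_vis]
    push_cast at h3 ⊢
    set n := T^[i] n₀ with hn
    have hit : T^[i + j] n₀ = T^[j] n := by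
      rw [hn, add_comm, Function.iterate_add_apply]
    rw [hit]
    have hspec := C_spec j n
    have hC0 := C_nonneg j n
    have hC1 := C_le_of t n j h6
    rw [h5] at hspec hC1
    have h2l : (0:ℤ) < 2 ^ j := by positivity
    have h3s : (1:ℤ) ≤ 3 ^ s := one_le_pow₀ (by norm_num)
    have hd1 := Int.mul_ediv_self_le (x := 3 ^ s * A) (k := 2 ^ j) h2l.ne'
    have hd2 := Int.lt_mul_ediv_self_add (x := 3 ^ s * A) (k := 2 ^ j) h2l
    have hA1 : 3 ^ s * A ≤ 3 ^ s * n := mul_le_mul_of_nonneg_left h2 (by positivity)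
    have hA2 : 3 ^ s * n < 3 ^ s * (A + 2 ^ m) := mul_lt_mul_of_pos_left h3 (by positivity)
    have hs' : (3:ℤ) ^ s * 2 ^ t < 2 ^ j := by exact_mod_cast hs
    have hj' : (j:ℤ) + 1 ≤ 2 ^ (m - t) := by exact_mod_cast hj
    refine ⟨h4, ?_, ?_⟩
    · have : 2 ^ j * (3 ^ s * A / 2 ^ j) ≤ 2 ^ j * T^[j] n := by linarith
      exact le_of_mul_le_mul_left this h2l
    · have e1 : (3:ℤ) ^ s * 2 ^ m = 3 ^ s * 2 ^ t * 2 ^ (m - t) := by
        rw [mul_assoc, ← pow_add]; congr 2; omega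
      have e2 : (3:ℤ) ^ s * 2 ^ t * 2 ^ (m - t) ≤ 2 ^ j * 2 ^ (m - t) :=
        mul_le_mul_of_nonneg_right hs'.le (by positivity)
      have e3 : (j:ℤ) * 2 ^ t * 3 ^ s ≤ j * 2 ^ j := by
        have : (j:ℤ) * (3 ^ s * 2 ^ t) ≤ j * 2 ^ j :=
          mul_le_mul_of_nonneg_left hs'.le (by positivity)
        linarith
      have e4 : ((j:ℤ) + 1) * 2 ^ j ≤ 2 ^ (m - t) * 2 ^ j :=
        mul_le_mul_of_nonneg_right hj' (by positivity)
      have h7 : 2 ^ j * T^[j] n < 2 ^ j * (3 ^ s * A / 2 ^ j + 2 ^ (m - t + 1)) := by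
        rw [pow_succ]
        linarith
      exact lt_of_mul_lt_mul_left h7 h2l.le
  · intro i _ j _ hij
    simpa using hij

/-- The body of `class_bound`. -/
def CB (κ δ K : ℝ) : Prop :=
    ∀ m t : ℕ, 1300 ≤ m → (t:ℝ) ≤ κ * m → ∀ (b s Q : ℕ) (A Z : ℤ) (G : Finset ℤ), 1 ≤ Q →
    (∀ n ∈ G, A ≤ n ∧ n < A + 2 ^ m) →
    (∀ n ∈ G, S (m - m/50) n = b) → (∀ n ∈ G, S (m/50) (T^[m - m/50] n) = s) →
    (∀ n ∈ G, Z ≤ T^[m - m/50] n ∧
      T^[m - m/50] n < Z + ((3 ^ b * 2 ^ (m/50+1) : ℕ) : ℤ)) →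
    (∀ z : ℤ, (G.filter (fun n => T^[m - m/50] n = z)).card ≤ Q) →
    2 ^ (m - m/50) ≤ 3 ^ b * 2 ^ t → 2 ^ m ≤ 3 ^ (b+s) * 2 ^ t →
    (∀ n ∈ G, 2 ^ (m + (m - m/50)) ≤ 3 ^ (b+s+S (m - m/50) (T^[m] n)) * 2 ^ t) →
    (G.card : ℝ) ≤ K * Q * Real.exp ((th * Real.log 2 - δ) * m)

lemma exists_CB : ∃ κ δ K : ℝ, 0 < κ ∧ κ ≤ 1/100 ∧ 0 < δ ∧ δ < th * Real.log 2 ∧ 0 < K ∧
    CB κ δ K := class_bound

/-- The good indices in one class. -/
lemma card_good {κ δ K : ℝ} (hCB : CB κ δ K) (hK : 0 < K) (n₀ : ℤ) (N : ℕ)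
    (hinj : ∀ i < N, ∀ j < N, T^[i] n₀ = T^[j] n₀ → i = j) (A : ℤ) (m t b s : ℕ)
    (hm : 1300 ≤ m) (ht : (t:ℝ) ≤ κ * m) (hat : (m - m/50) * 2 ^ t ≤ 2 ^ (m - m/50)) :
    (((vis n₀ N A (2 ^ m)).filter (fun i => i + (m + (m - m/50)) < N ∧
      S (m - m/50) (T^[i] n₀) = b ∧ S (m/50) (T^[m - m/50] (T^[i] n₀)) = s ∧
      ∀ d ≤ m + (m - m/50), 2 ^ d ≤ 3 ^ (S d (T^[i] n₀)) * 2 ^ t)).card : ℝ) ≤
      K * Real.exp ((th * Real.log 2 - δ) * m) := by
  classical
  set a := m - m/50 with ha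
  set c := m/50 with hc
  have hac : a + c = m := by omega
  have hc1 : 1 ≤ c := by omega
  set V := (vis n₀ N A (2 ^ m)).filter (fun i => i + (m + a) < N ∧
      S a (T^[i] n₀) = b ∧ S c (T^[a] (T^[i] n₀)) = s ∧
      ∀ d ≤ m + a, 2 ^ d ≤ 3 ^ (S d (T^[i] n₀)) * 2 ^ t) with hV
  have hmemV : ∀ i ∈ V, (i < N ∧ A ≤ T^[i] n₀ ∧ T^[i] n₀ < A + 2 ^ m) ∧ i + (m + a) < N ∧
      S a (T^[i] n₀) = b ∧ S c (T^[a] (T^[i] n₀)) = s ∧
      ∀ d ≤ m + a, 2 ^ d ≤ 3 ^ (S d (T^[i] n₀)) * 2 ^ t := by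
    intro i hi
    rw [hV, mem_filter, mem_vis] at hi
    push_cast at hi
    exact hi
  set G := V.image (fun i => T^[i] n₀) with hG
  have hcard : G.card = V.card := by
    rw [hG]
    apply card_image_of_injOn
    intro i hi j hj hij
    exact hinj i (hmemV i hi).1.1 j (hmemV j hj).1.1 hij
  rcases V.eq_empty_or_nonempty with h0 | ⟨i₀, hi₀⟩
  · rw [h0]; simp; positivity
  have hforG : ∀ n ∈ G, ∃ i ∈ V, T^[i] n₀ = n := by
    intro n hn
    rw [hG, mem_image] at hn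
    exact hn
  obtain ⟨⟨_, _, _⟩, _, hb0, hs0, hd0⟩ := hmemV i₀ hi₀
  have key := hCB m t hm ht b s 1 A (3 ^ b * A / 2 ^ a) G le_rfl ?_ ?_ ?_ ?_ ?_ ?_ ?_ ?_
  · rw [hcard] at key
    simpa using key
  · intro n hn
    obtain ⟨i, hi, rfl⟩ := hforG n hn
    exact (hmemV i hi).1.2
  · intro n hn
    obtain ⟨i, hi, rfl⟩ := hforG n hn
    exact (hmemV i hi).2.2.1
  · intro n hn
    obtain ⟨i, hi, rfl⟩ := hforG n hn
    exact (hmemV i hi).2.2.2.1
  · intro n hn
    obtain ⟨i, hi, rfl⟩ := hforG n hn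
    obtain ⟨⟨h1, h2, h3⟩, h4, h5, h6, h7⟩ := hmemV i hi
    rw [← ha]
    set n := T^[i] n₀ with hn
    have hspec := C_spec a n
    have hC0 := C_nonneg a n
    have hC1 := C_le_of t n a (fun d hd => h7 d (by omega))
    rw [h5] at hspec hC1
    have h2l : (0:ℤ) < 2 ^ a := by positivity
    have h3s : (1:ℤ) ≤ 3 ^ b := one_le_pow₀ (by norm_num)
    have hd1 := Int.mul_ediv_self_le (x := 3 ^ b * A) (k := 2 ^ a) h2l.ne'
    have hd2 := Int.lt_mul_ediv_self_add (x := 3 ^ b * A) (k := 2 ^ a) h2l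
    have hA1 : 3 ^ b * A ≤ 3 ^ b * n := mul_le_mul_of_nonneg_left h2 (by positivity)
    have hA2 : 3 ^ b * n < 3 ^ b * (A + 2 ^ m) := mul_lt_mul_of_pos_left h3 (by positivity)
    have hat' : (a:ℤ) * 2 ^ t ≤ 2 ^ a := by exact_mod_cast hat
    refine ⟨?_, ?_⟩
    · have : 2 ^ a * (3 ^ b * A / 2 ^ a) ≤ 2 ^ a * T^[a] n := by linarith
      exact le_of_mul_le_mul_left this h2l
    · have e1 : (3:ℤ) ^ b * 2 ^ m = 2 ^ a * (3 ^ b * 2 ^ c) := by
        rw [← hac, pow_add]; ring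
      have e2 : (a:ℤ) * 2 ^ t * 3 ^ b ≤ 2 ^ a * 3 ^ b :=
        mul_le_mul_of_nonneg_right hat' (by positivity)
      have e3 : (2:ℤ) ≤ 2 ^ c := by
        calc (2:ℤ) = 2 ^ 1 := by norm_num
          _ ≤ 2 ^ c := pow_le_pow_right₀ (by norm_num) hc1
      have e4 : 2 ^ a * (3:ℤ) ^ b * 2 ≤ 2 ^ a * 3 ^ b * 2 ^ c :=
        mul_le_mul_of_nonneg_left e3 (by positivity)
      have e5 : (2:ℤ) ^ a * 1 ≤ 2 ^ a * 3 ^ b := mul_le_mul_of_nonneg_left h3s h2l.le
      have h8 : 2 ^ a * T^[a] n < 2 ^ a * (3 ^ b * A / 2 ^ a + ((3 ^ b * 2 ^ (c+1) : ℕ) : ℤ)) := by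
        push_cast
        rw [pow_succ]
        linarith
      exact lt_of_mul_lt_mul_left h8 h2l.le
  · intro z
    rw [card_le_one]
    intro n hn n' hn'
    rw [mem_filter] at hn hn'
    obtain ⟨i, hi, rfl⟩ := hforG n hn.1
    obtain ⟨i', hi', rfl⟩ := hforG n' hn'.1
    have h1 := hn.2.trans hn'.2.symm
    rw [← Function.iterate_add_apply, ← Function.iterate_add_apply] at h1
    have g1 := (hmemV i hi).2.1
    have g2 := (hmemV i' hi').2.1
    have := hinj _ (by omega) _ (by omega) h1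
    have : i = i' := by omega
    rw [this]
  · have := hd0 a (by omega)
    rwa [hb0] at this
  · have := hd0 m (by omega)
    have hS : S m (T^[i₀] n₀) = b + s := by
      rw [← hac, S_add, hb0, hs0]
    rwa [hS] at this
  · intro n hn
    obtain ⟨i, hi, rfl⟩ := hforG n hn
    obtain ⟨⟨h1, h2, h3⟩, h4, h5, h6, h7⟩ := hmemV i hi
    have := h7 (m + a) le_rfl
    have hS : S m (T^[i] n₀) = b + s := by
      rw [← hac, S_add, h5, h6]
    rw [S_add, hS] at this
    exact this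

/-- The recursion. -/
lemma vis_rec {κ δ K : ℝ} (hCB : CB κ δ K) (hK : 0 < K) (n₀ : ℤ) (N : ℕ)
    (hinj : ∀ i < N, ∀ j < N, T^[i] n₀ = T^[j] n₀ → i = j) (m t : ℕ)
    (hm : 1300 ≤ m) (ht : (t:ℝ) ≤ κ * m) (htm : t ≤ m)
    (hat : (m - m/50) * 2 ^ t ≤ 2 ^ (m - m/50))
    (h2m : 2 * m + 1 ≤ 2 ^ (m - t)) (F : ℝ)
    (hF : ∀ A : ℤ, ((vis n₀ N A (2 ^ (m - t + 1))).card : ℝ) ≤ F) (A : ℤ) :
    ((vis n₀ N A (2 ^ m)).card : ℝ) ≤ 2 * m + (2 * m + 1) ^ 2 * F +
      (m + 1) ^ 2 * (K * Real.exp ((th * Real.log 2 - δ) * m)) := by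
  classical
  set a := m - m/50 with ha
  set c := m/50 with hc
  have hac : a + c = m := by omega
  set V := vis n₀ N A (2 ^ m) with hV
  set V1 := V.filter (fun i => N ≤ i + (m + a)) with hV1
  set V2 : ℕ → ℕ → Finset ℕ := fun j s => V.filter (fun i => 3 ^ s * 2 ^ t < 2 ^ j ∧ (i + j < N ∧
      S j (T^[i] n₀) = s ∧ ∀ d < j, 2 ^ d ≤ 3 ^ (S d (T^[i] n₀)) * 2 ^ t)) with hV2
  set V3 : ℕ → ℕ → Finset ℕ := fun b s => V.filter (fun i => i + (m + a) < N ∧
      S a (T^[i] n₀) = b ∧ S c (T^[a] (T^[i] n₀)) = s ∧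
      ∀ d ≤ m + a, 2 ^ d ≤ 3 ^ (S d (T^[i] n₀)) * 2 ^ t) with hV3
  have hF0 : 0 ≤ F := le_trans (by positivity) (hF 0)
  have hsub : V ⊆ V1 ∪ ((range (2 * m + 1) ×ˢ range (2 * m + 1)).biUnion (fun p => V2 p.1 p.2)) ∪
      ((range (m + 1) ×ˢ range (m + 1)).biUnion (fun p => V3 p.1 p.2)) := by
    intro i hi
    simp only [mem_union, mem_biUnion, mem_product, mem_range]
    by_cases h1 : N ≤ i + (m + a)
    · exact Or.inl (Or.inl (mem_filter.mpr ⟨hi, h1⟩))
    by_cases h2 : ∀ d ≤ m + a, 2 ^ d ≤ 3 ^ (S d (T^[i] n₀)) * 2 ^ t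
    · right
      refine ⟨(S a (T^[i] n₀), S c (T^[a] (T^[i] n₀))), ⟨?_, ?_⟩, ?_⟩
      · have := S_le a (T^[i] n₀)
        simp only; omega
      · have := S_le c (T^[a] (T^[i] n₀))
        simp only; omega
      · exact mem_filter.mpr ⟨hi, by omega, rfl, rfl, h2⟩
    · left; right
      push Not at h2
      have hP : ∃ d, 3 ^ (S d (T^[i] n₀)) * 2 ^ t < 2 ^ d ∧ d ≤ m + a := by
        obtain ⟨d, hd1, hd2⟩ := h2
        exact ⟨d, hd2, hd1⟩
      obtain ⟨hj1, hj2⟩ := Nat.find_spec hP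
      set j := Nat.find hP with hj
      have hj3 : ∀ d < j, 2 ^ d ≤ 3 ^ (S d (T^[i] n₀)) * 2 ^ t := by
        intro d hd
        by_contra hcon
        push Not at hcon
        exact Nat.find_min hP hd ⟨hcon, by omega⟩
      refine ⟨(j, S j (T^[i] n₀)), ⟨?_, ?_⟩, ?_⟩
      · simp only; omega
      · have := S_le j (T^[i] n₀)
        simp only; omega
      · exact mem_filter.mpr ⟨hi, hj1, by omega, rfl, hj3⟩
  have hcV1 : (V1.card : ℝ) ≤ 2 * m := by
    have : V1 ⊆ Ico (N - (m + a)) N := by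
      intro i hi
      rw [hV1, mem_filter, hV, mem_vis] at hi
      rw [mem_Ico]; omega
    have := card_le_card this
    rw [Nat.card_Ico] at this
    have h3 : V1.card ≤ 2 * m := by omega
    exact_mod_cast h3
  have hcV2 : ∀ j s : ℕ, j < 2 * m + 1 → ((V2 j s).card : ℝ) ≤ F := by
    intro j s hj
    by_cases hs : 3 ^ s * 2 ^ t < 2 ^ j
    · have h1 : V2 j s = V.filter (fun i => i + j < N ∧
          S j (T^[i] n₀) = s ∧ ∀ d < j, 2 ^ d ≤ 3 ^ (S d (T^[i] n₀)) * 2 ^ t) := by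
        rw [hV2]
        simp only [hs, true_and]
      rw [h1]
      have h2 := card_typeI n₀ N A m t j s htm (by omega) hs
      calc _ ≤ ((vis n₀ N (3 ^ s * A / 2 ^ j) (2 ^ (m - t + 1))).card : ℝ) := by exact_mod_cast h2
        _ ≤ F := hF _
    · have h1 : V2 j s = ∅ := by
        rw [hV2]
        simp only [hs, false_and, filter_false]
      rw [h1]; simpa using hF0
  have hcV3 : ∀ b s : ℕ, ((V3 b s).card : ℝ) ≤ K * Real.exp ((th * Real.log 2 - δ) * m) := by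
    intro b s
    exact card_good hCB hK n₀ N hinj A m t b s hm ht hat
  have hU := card_le_card hsub
  have hU1 := card_union_le (V1 ∪ ((range (2 * m + 1) ×ˢ range (2 * m + 1)).biUnion
      (fun p => V2 p.1 p.2))) ((range (m + 1) ×ˢ range (m + 1)).biUnion (fun p => V3 p.1 p.2))
  have hU2 := card_union_le V1 ((range (2 * m + 1) ×ˢ range (2 * m + 1)).biUnion
      (fun p => V2 p.1 p.2))
  have hB2 : ((((range (2 * m + 1) ×ˢ range (2 * m + 1)).biUnion
      (fun p => V2 p.1 p.2)).card : ℕ) : ℝ) ≤ (2 * m + 1) ^ 2 * F := by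
    calc ((((range (2 * m + 1) ×ˢ range (2 * m + 1)).biUnion
          (fun p => V2 p.1 p.2)).card : ℕ) : ℝ)
        ≤ ((∑ p ∈ (range (2 * m + 1) ×ˢ range (2 * m + 1)), (V2 p.1 p.2).card : ℕ) : ℝ) := by
          exact_mod_cast card_biUnion_le
      _ = ∑ p ∈ (range (2 * m + 1) ×ˢ range (2 * m + 1)), ((V2 p.1 p.2).card : ℝ) := by
          push_cast; rfl
      _ ≤ ∑ p ∈ (range (2 * m + 1) ×ˢ range (2 * m + 1)), F := by
          refine sum_le_sum (fun p hp => ?_)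
          rw [mem_product, mem_range] at hp
          exact hcV2 _ _ hp.1
      _ = (2 * m + 1) ^ 2 * F := by
          rw [sum_const, card_product, card_range, nsmul_eq_mul]
          push_cast; ring
  have hB3 : ((((range (m + 1) ×ˢ range (m + 1)).biUnion
      (fun p => V3 p.1 p.2)).card : ℕ) : ℝ) ≤
      (m + 1) ^ 2 * (K * Real.exp ((th * Real.log 2 - δ) * m)) := by
    calc ((((range (m + 1) ×ˢ range (m + 1)).biUnion
          (fun p => V3 p.1 p.2)).card : ℕ) : ℝ)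
        ≤ ((∑ p ∈ (range (m + 1) ×ˢ range (m + 1)), (V3 p.1 p.2).card : ℕ) : ℝ) := by
          exact_mod_cast card_biUnion_le
      _ = ∑ p ∈ (range (m + 1) ×ˢ range (m + 1)), ((V3 p.1 p.2).card : ℝ) := by
          push_cast; rfl
      _ ≤ ∑ p ∈ (range (m + 1) ×ˢ range (m + 1)),
            (K * Real.exp ((th * Real.log 2 - δ) * m)) := by
          refine sum_le_sum (fun p _ => hcV3 _ _)
      _ = (m + 1) ^ 2 * (K * Real.exp ((th * Real.log 2 - δ) * m)) := by
          rw [sum_const, card_product, card_range, nsmul_eq_mul]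
          push_cast; ring
  have hfin : (V.card : ℝ) ≤ (V1.card : ℝ) +
      ((((range (2 * m + 1) ×ˢ range (2 * m + 1)).biUnion
      (fun p => V2 p.1 p.2)).card : ℕ) : ℝ) + ((((range (m + 1) ×ˢ range (m + 1)).biUnion
      (fun p => V3 p.1 p.2)).card : ℕ) : ℝ) := by
    exact_mod_cast (by omega)
  linarith

/-- polynomial factors are absorbed by exponentials -/
lemma ev_poly_exp (C ε : ℝ) (hε : 0 < ε) :
    ∀ᶠ m : ℕ in atTop, C * (m:ℝ) ^ 2 ≤ Real.exp (ε * m) := by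
  have h := isLittleO_pow_exp_pos_mul_atTop (k := 2) hε
  have h1 := h.def (c := 1 / (|C| + 1)) (by positivity)
  have h2 := (tendsto_natCast_atTop_atTop (R := ℝ)).eventually h1
  filter_upwards [h2] with m hm
  rw [Real.norm_of_nonneg (by positivity), Real.norm_of_nonneg (by positivity)] at hm
  have hC : 0 < |C| + 1 := by positivity
  have h3 : (|C| + 1) * (m:ℝ) ^ 2 ≤ Real.exp (ε * m) := by
    rw [div_mul_eq_mul_div, one_mul, le_div_iff₀ hC] at hm
    linarith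
  have h4 : C * (m:ℝ) ^ 2 ≤ (|C| + 1) * (m:ℝ) ^ 2 :=
    mul_le_mul_of_nonneg_right (by linarith [le_abs_self C]) (by positivity)
  linarith

lemma card_vis_le (n₀ : ℤ) (N : ℕ)
    (hinj : ∀ i < N, ∀ j < N, T^[i] n₀ = T^[j] n₀ → i = j) (A : ℤ) (L : ℕ) :
    (vis n₀ N A L).card ≤ L := by
  have hL : (Finset.Ico A (A + L)).card = L := by simp
  refine le_trans ?_ hL.le
  refine card_le_card_of_injOn (fun i => T^[i] n₀) ?_ ?_
  · intro i hi
    rw [mem_coe, mem_vis] at hi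
    rw [mem_coe, mem_Ico]
    exact hi.2
  · intro i hi j hj hij
    rw [mem_coe, mem_vis] at hi hj
    exact hinj i hi.1 j hj.1 hij

/-- Improved sparsity for dyadic lengths. -/
theorem sparse_dyadic' : ∃ δ K : ℝ, 0 < δ ∧ δ < th * Real.log 2 ∧ 0 < K ∧ ∀ (n₀ : ℤ) (N : ℕ),
    (∀ i < N, ∀ j < N, T^[i] n₀ = T^[j] n₀ → i = j) → ∀ (m : ℕ) (A : ℤ),
    ((vis n₀ N A (2 ^ m)).card : ℝ) ≤ K * Real.exp ((th * Real.log 2 - δ) * m) := by
  obtain ⟨κ, δ₁, K₁, hκ0, hκ1, hδ0, hδ1, hK₁, hCB⟩ := exists_CB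
  -- exponents
  set g : ℝ := th * Real.log 2 - δ₁ / 2 with hg
  have hgpos : 0 < g := by rw [hg]; linarith
  -- eventual inequalities
  have ev1 := ev_poly_exp (3 * 9 * Real.exp (3 * g)) (g * κ) (by positivity)
  have ev2 := ev_poly_exp (3 * 4 * K₁) (δ₁ / 2) (by positivity)
  have ev3 := ev_poly_exp 6 g hgpos
  have ev4 := ev_poly_exp 1 (Real.log 2 / 2) (by have := log_two_pos; positivity)
  have hκinv : ∀ᶠ m : ℕ in atTop, 3 ≤ κ * (m:ℝ) := by
    have : Tendsto (fun m : ℕ => κ * (m:ℝ)) atTop atTop :=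
      Tendsto.const_mul_atTop hκ0 tendsto_natCast_atTop_atTop
    exact this.eventually (eventually_ge_atTop 3)
  obtain ⟨m₀, hm₀⟩ := eventually_atTop.mp
    ((ev1.and (ev2.and (ev3.and (ev4.and hκinv)))).and (eventually_ge_atTop 1300))
  set K : ℝ := max 1 (2 ^ m₀) with hK
  have hK1 : 1 ≤ K := le_max_left _ _
  have hK2 : (2:ℝ) ^ m₀ ≤ K := le_max_right _ _
  refine ⟨δ₁ / 2, K, by positivity, by linarith, by linarith, ?_⟩
  intro n₀ N hinj m
  rw [← hg]
  induction m using Nat.strong_induction_on with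
  | _ m ih =>
    intro A
    rcases Nat.lt_or_ge m m₀ with hlt | hge
    · have h1 : ((vis n₀ N A (2 ^ m)).card : ℝ) ≤ 2 ^ m := by
        exact_mod_cast card_vis_le n₀ N hinj A (2 ^ m)
      have h2 : (2:ℝ) ^ m ≤ 2 ^ m₀ := pow_le_pow_right₀ (by norm_num) hlt.le
      have h3 : (1:ℝ) ≤ Real.exp (g * m) := Real.one_le_exp (by positivity)
      calc ((vis n₀ N A (2 ^ m)).card : ℝ) ≤ K * 1 := by linarith
        _ ≤ K * Real.exp (g * m) := by
          apply mul_le_mul_of_nonneg_left h3 (by linarith)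
    · obtain ⟨⟨e1, e2, e3, e4, e5⟩, e6⟩ := hm₀ m hge
      set t := ⌊κ * (m:ℝ)⌋₊ with ht
      have ht1 : (t:ℝ) ≤ κ * m := Nat.floor_le (by positivity)
      have ht2 : κ * m < t + 1 := Nat.lt_floor_add_one _
      have ht3 : 2 ≤ t := by
        have : (2:ℝ) < t := by linarith
        exact_mod_cast this.le
      have hmR : (1300:ℝ) ≤ m := by exact_mod_cast e6
      have ht4 : t * 100 ≤ m := by
        have : (t:ℝ) * 100 ≤ m := by
          have : κ * m ≤ 1/100 * m := mul_le_mul_of_nonneg_right hκ1 (by positivity)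
          linarith
        exact_mod_cast this
      -- the arithmetic side conditions
      have hsq : ∀ i : ℕ, m ≤ 2 * i + 3 → m * m ≤ 2 ^ (i + 2) := by
        intro i hi
        have h1 : (m:ℝ) ^ 2 ≤ Real.exp (Real.log 2 / 2 * m) := by linarith
        have h2 : Real.exp (Real.log 2 / 2 * m) ≤ Real.exp (Real.log 2 * ((i + 2 : ℕ) : ℝ)) := by
          apply Real.exp_le_exp.mpr
          have hi' : (m:ℝ) ≤ 2 * i + 3 := by exact_mod_cast hi
          have := log_two_pos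
          push_cast
          nlinarith
        rw [← Real.rpow_def_of_pos (by norm_num), Real.rpow_natCast] at h2
        have h3 : (m:ℝ) * m ≤ 2 ^ (i + 2) := by nlinarith
        exact_mod_cast h3
      have hmm : 1300 * m ≤ m * m := Nat.mul_le_mul_right m e6
      have h2m : 2 * m + 1 ≤ 2 ^ (m - t) := by
        have h1 := hsq (m - t - 2) (by omega)
        have h2 : m - t - 2 + 2 = m - t := by omega
        rw [h2] at h1
        omega
      have hat : (m - m/50) * 2 ^ t ≤ 2 ^ (m - m/50) := by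
        have h1 := hsq (m - m/50 - t - 2) (by omega)
        have h2 : m - m/50 - t - 2 + 2 = m - m/50 - t := by omega
        rw [h2] at h1
        have h3 : m - m/50 ≤ 2 ^ (m - m/50 - t) := by
          have : m - m/50 ≤ m := Nat.sub_le _ _
          omega
        calc (m - m/50) * 2 ^ t ≤ 2 ^ (m - m/50 - t) * 2 ^ t := Nat.mul_le_mul_right _ h3
          _ = 2 ^ (m - m/50) := by rw [← pow_add]; congr 1; omega
      have hrec := vis_rec hCB hK₁ n₀ N hinj m t e6 ht1 (by omega) hat h2m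
        (K * Real.exp (g * ((m - t + 1 : ℕ) : ℝ))) (ih (m - t + 1) (by omega)) A
      have hexp := Real.exp_pos (g * m)
      -- first part
      have p1 : (2:ℝ) * m ≤ K / 3 * Real.exp (g * m) := by
        have h1 : 6 * (m:ℝ) ≤ Real.exp (g * m) := by nlinarith
        have h2 : 1 * Real.exp (g * m) ≤ K * Real.exp (g * m) :=
          mul_le_mul_of_nonneg_right hK1 hexp.le
        linarith
      -- second part
      have p2 : (2 * (m:ℝ) + 1) ^ 2 * (K * Real.exp (g * ((m - t + 1 : ℕ) : ℝ))) ≤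
          K / 3 * Real.exp (g * m) := by
        have h1 : Real.exp (g * ((m - t + 1 : ℕ) : ℝ)) ≤
            Real.exp (g * m) * Real.exp (2 * g) * Real.exp (-(g * κ * m)) := by
          rw [← Real.exp_add, ← Real.exp_add]
          apply Real.exp_le_exp.mpr
          rw [Nat.cast_add, Nat.cast_sub (by omega)]
          push_cast
          nlinarith
        have h2 : (2 * (m:ℝ) + 1) ^ 2 ≤ 9 * m ^ 2 := by nlinarith
        have h3 : 3 * 9 * Real.exp (2 * g) * (m:ℝ) ^ 2 * Real.exp (-(g * κ * m)) ≤ 1 := by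
          have h4 : Real.exp (2 * g) ≤ Real.exp (3 * g) := Real.exp_le_exp.mpr (by linarith)
          have h5 : 3 * 9 * Real.exp (2 * g) * (m:ℝ) ^ 2 ≤ Real.exp (g * κ * m) := by
            refine le_trans ?_ e1
            have : 0 ≤ 3 * 9 * (m:ℝ) ^ 2 := by positivity
            nlinarith
          calc 3 * 9 * Real.exp (2 * g) * (m:ℝ) ^ 2 * Real.exp (-(g * κ * m))
              ≤ Real.exp (g * κ * m) * Real.exp (-(g * κ * m)) :=
                mul_le_mul_of_nonneg_right h5 (Real.exp_pos _).le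
            _ = 1 := by rw [← Real.exp_add]; simp
        calc (2 * (m:ℝ) + 1) ^ 2 * (K * Real.exp (g * ((m - t + 1 : ℕ) : ℝ)))
            ≤ 9 * m ^ 2 * (K * (Real.exp (g * m) * Real.exp (2 * g) *
                Real.exp (-(g * κ * m)))) := by
              apply mul_le_mul h2 _ (by positivity) (by positivity)
              exact mul_le_mul_of_nonneg_left h1 (by linarith)
          _ = (3 * 9 * Real.exp (2 * g) * (m:ℝ) ^ 2 * Real.exp (-(g * κ * m))) *
                (K / 3 * Real.exp (g * m)) := by ring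
          _ ≤ 1 * (K / 3 * Real.exp (g * m)) := by
              apply mul_le_mul_of_nonneg_right h3 (by positivity)
          _ = K / 3 * Real.exp (g * m) := by ring
      -- third part
      have p3 : ((m:ℝ) + 1) ^ 2 * (K₁ * Real.exp ((th * Real.log 2 - δ₁) * m)) ≤
          K / 3 * Real.exp (g * m) := by
        have h1 : Real.exp ((th * Real.log 2 - δ₁) * m) =
            Real.exp (g * m) * Real.exp (-(δ₁ / 2 * m)) := by
          rw [← Real.exp_add]; congr 1; rw [hg]; ring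
        have h2 : ((m:ℝ) + 1) ^ 2 ≤ 4 * m ^ 2 := by nlinarith
        have h3 : 3 * 4 * K₁ * (m:ℝ) ^ 2 * Real.exp (-(δ₁ / 2 * m)) ≤ 1 := by
          calc 3 * 4 * K₁ * (m:ℝ) ^ 2 * Real.exp (-(δ₁ / 2 * m))
              ≤ Real.exp (δ₁ / 2 * m) * Real.exp (-(δ₁ / 2 * m)) :=
                mul_le_mul_of_nonneg_right e2 (Real.exp_pos _).le
            _ = 1 := by rw [← Real.exp_add]; simp
        calc ((m:ℝ) + 1) ^ 2 * (K₁ * Real.exp ((th * Real.log 2 - δ₁) * m))
            ≤ 4 * m ^ 2 * (K₁ * (Real.exp (g * m) * Real.exp (-(δ₁ / 2 * m)))) := by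
              rw [h1]
              apply mul_le_mul_of_nonneg_right h2 (by positivity)
          _ = (3 * 4 * K₁ * (m:ℝ) ^ 2 * Real.exp (-(δ₁ / 2 * m))) *
                (1 / 3 * Real.exp (g * m)) := by ring
          _ ≤ 1 * (1 / 3 * Real.exp (g * m)) := by
              apply mul_le_mul_of_nonneg_right h3 (by positivity)
          _ ≤ K / 3 * Real.exp (g * m) := by
              rw [one_mul]
              apply mul_le_mul_of_nonneg_right _ hexp.le
              linarith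
      linarith

/-- Improved sparsity for all lengths. -/
theorem sparse' : ∃ δ K : ℝ, 0 < δ ∧ δ < th ∧ 0 < K ∧ ∀ (n₀ : ℤ) (N : ℕ),
    (∀ i < N, ∀ j < N, T^[i] n₀ = T^[j] n₀ → i = j) → ∀ (A : ℤ) (L : ℕ), 1 ≤ L →
    ((vis n₀ N A L).card : ℝ) ≤ K * (L:ℝ) ^ (th - δ) := by
  obtain ⟨δ, K, hδ0, hδ1, hK, h⟩ := sparse_dyadic'
  have hlog2 := log_two_pos
  have hth := th_pos
  have hδ2 : δ / Real.log 2 < th := by rw [div_lt_iff₀ hlog2]; exact hδ1
  set e : ℝ := th - δ / Real.log 2 with he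
  have he0 : 0 < e := by rw [he]; linarith
  refine ⟨δ / Real.log 2, K * 2 ^ e, by positivity, hδ2, by positivity, ?_⟩
  intro n₀ N hinj A L hL
  rw [← he]
  set l := Nat.clog 2 L with hl
  have h3 : L ≤ 2 ^ l := Nat.le_pow_clog (by norm_num) _
  have h4 : (2:ℝ) ^ l ≤ 2 * L := by
    rcases Nat.lt_or_ge 1 L with h1 | h1
    · have hb : 2 ^ (l - 1) < L := Nat.pow_pred_clog_lt_self (by norm_num) h1
      have hl0 : 0 < l := Nat.clog_pos (by norm_num) h1
      have : 2 ^ l ≤ 2 * L := by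
        calc 2 ^ l = 2 * 2 ^ (l - 1) := by rw [← pow_succ']; congr 1; omega
          _ ≤ 2 * L := by omega
      exact_mod_cast this
    · have : L = 1 := by omega
      rw [hl, this]; norm_num
  have h5 : Real.exp ((th * Real.log 2 - δ) * l) = ((2:ℝ) ^ l) ^ e := by
    rw [← Real.rpow_natCast, ← Real.rpow_mul (by norm_num), Real.rpow_def_of_pos (by norm_num), he]
    congr 1
    field_simp
  calc ((vis n₀ N A L).card : ℝ) ≤ ((vis n₀ N A (2 ^ l)).card : ℝ) := by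
        exact_mod_cast card_le_card (vis_mono n₀ N A h3)
    _ ≤ K * Real.exp ((th * Real.log 2 - δ) * l) := h n₀ N hinj l A
    _ = K * ((2:ℝ) ^ l) ^ e := by rw [h5]
    _ ≤ K * (2 * L) ^ e := by
        apply mul_le_mul_of_nonneg_left _ hK.le
        exact Real.rpow_le_rpow (by positivity) h4 he0.le
    _ = K * 2 ^ e * (L:ℝ) ^ e := by
        rw [Real.mul_rpow (by norm_num) (by positivity)]; ring

end Pool.Agent.H30
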