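import Pool.Agent.H30.X

/-!
Integers without descent: improved exponent, uniformly in intervals.
-/

set_option autoImplicit false

namespace Pool.Agent.H30

open Finset Filter

/-- Integers in one class with large partial multipliers. -/
lemma card_good_int {κ δ K : ℝ} (hCB : CB κ δ K) (hK : 0 < K) (A : ℤ) (m t b s : ℕ)
    (hm : 1300 ≤ m) (ht : (t:ℝ) ≤ κ * m) (hat : (m - m/50) * 2 ^ t ≤ 2 ^ (m - m/50)) :
    (((Ico A (A + 2 ^ m)).filter (fun n =>
      S (m - m/50) n = b ∧ S (m/50) (T^[m - m/50] n) = s ∧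
      ∀ d ≤ m + (m - m/50), 2 ^ d ≤ 3 ^ (S d n) * 2 ^ t)).card : ℝ) ≤
      K * ((m * 2 ^ t : ℕ) : ℝ) * Real.exp ((th * Real.log 2 - δ) * m) := by
  classical
  set a := m - m/50 with ha
  set c := m/50 with hc
  have hac : a + c = m := by omega
  have hc1 : 1 ≤ c := by omega
  have h2t1 : 1 ≤ 2 ^ t := Nat.one_le_two_pow
  set G := (Ico A (A + 2 ^ m)).filter (fun n =>
      S a n = b ∧ S c (T^[a] n) = s ∧
      ∀ d ≤ m + a, 2 ^ d ≤ 3 ^ (S d n) * 2 ^ t) with hG
  have hmemG : ∀ n ∈ G, (A ≤ n ∧ n < A + 2 ^ m) ∧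
      S a n = b ∧ S c (T^[a] n) = s ∧
      ∀ d ≤ m + a, 2 ^ d ≤ 3 ^ (S d n) * 2 ^ t := by
    intro n hn
    rw [hG, mem_filter, mem_Ico] at hn
    exact hn
  rcases G.eq_empty_or_nonempty with h0 | ⟨n₀, hn₀⟩
  · rw [h0]; simp; positivity
  obtain ⟨_, hb0, hs0, hd0⟩ := hmemG n₀ hn₀
  have key := hCB m t hm ht b s (m * 2 ^ t) A (3 ^ b * A / 2 ^ a) G ?_ ?_ ?_ ?_ ?_ ?_ ?_ ?_ ?_
  · exact key
  · exact Nat.one_le_iff_ne_zero.mpr (by positivity)
  · intro n hn
    exact (hmemG n hn).1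
  · intro n hn
    exact (hmemG n hn).2.1
  · intro n hn
    exact (hmemG n hn).2.2.1
  · intro n hn
    obtain ⟨⟨h2, h3⟩, h5, h6, h7⟩ := hmemG n hn
    rw [← ha]
    have hspec := C_spec a n
    have hC0 := C_nonneg a n
    have hC1 := C_le_of t n a (fun d hd => h7 d (by omega))
    rw [h5] at hspec hC1
    have h2l : (0:ℤ) < 2 ^ a := by positivity
    have h3s : (1:ℤ) ≤ 3 ^ b := one_le_pow₀ (by norm_num)
    have hd1 := Int.mul_ediv_self_le (x := 3 ^ b * A) (k := 2 ^ a) h2l.ne'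
    have hd2 := Int.lt_mul_ediv_self_add (x := 3 ^ b * A) (k := 2 ^ a) h2l
    have hA1 : 3 ^ b * A ≤ 3 ^ b * n := mul_le_mul_of_nonneg_left h2 (by positivity)
    have hA2 : 3 ^ b * n < 3 ^ b * (A + 2 ^ m) := mul_lt_mul_of_pos_left h3 (by positivity)
    have hat' : (a:ℤ) * 2 ^ t ≤ 2 ^ a := by exact_mod_cast hat
    refine ⟨?_, ?_⟩
    · have : 2 ^ a * (3 ^ b * A / 2 ^ a) ≤ 2 ^ a * T^[a] n := by linarith
      exact le_of_mul_le_mul_left this h2l
    · have e1 : (3:ℤ) ^ b * 2 ^ m = 2 ^ a * (3 ^ b * 2 ^ c) := by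
        rw [← hac, pow_add]; ring
      have e2 : (a:ℤ) * 2 ^ t * 3 ^ b ≤ 2 ^ a * 3 ^ b :=
        mul_le_mul_of_nonneg_right hat' (by positivity)
      have e3 : (2:ℤ) ≤ 2 ^ c := by
        calc (2:ℤ) = 2 ^ 1 := by norm_num
          _ ≤ 2 ^ c := pow_le_pow_right₀ (by norm_num) hc1
      have e4 : 2 ^ a * (3:ℤ) ^ b * 2 ≤ 2 ^ a * 3 ^ b * 2 ^ c :=
        mul_le_mul_of_nonneg_left e3 (by positivity)
      have e5 : (2:ℤ) ^ a * 1 ≤ 2 ^ a * 3 ^ b := mul_le_mul_of_nonneg_left h3s h2l.le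
      have h8 : 2 ^ a * T^[a] n < 2 ^ a * (3 ^ b * A / 2 ^ a + ((3 ^ b * 2 ^ (c+1) : ℕ) : ℤ)) := by
        push_cast
        rw [pow_succ]
        linarith
      exact lt_of_mul_lt_mul_left h8 h2l.le
  · intro z
    -- the fibre lies in an interval of length a 2^t
    set B := 2 ^ a * z / 3 ^ b with hB
    have hsub : G.filter (fun n => T^[m - m/50] n = z) ⊆ Icc (B - a * 2 ^ t) B := by
      intro n hn
      rw [mem_filter] at hn
      obtain ⟨hnG, hz⟩ := hn
      obtain ⟨⟨h2, h3⟩, h5, h6, h7⟩ := hmemG n hnG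
      rw [← ha] at hz
      have hspec := C_spec a n
      have hC0 := C_nonneg a n
      have hC1 := C_le_of t n a (fun d hd => h7 d (by omega))
      rw [h5] at hspec hC1
      rw [hz] at hspec
      have h3l : (0:ℤ) < 3 ^ b := by positivity
      have hd1 := Int.mul_ediv_self_le (x := 2 ^ a * z) (k := 3 ^ b) h3l.ne'
      have hd2 := Int.lt_mul_ediv_self_add (x := 2 ^ a * z) (k := 3 ^ b) h3l
      rw [← hB] at hd1 hd2
      rw [mem_Icc]
      constructor
      · have : 3 ^ b * B ≤ 3 ^ b * (n + a * 2 ^ t) := by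
          have : 0 ≤ (a:ℤ) * 2 ^ t * 3 ^ b := by positivity
          linarith
        have := le_of_mul_le_mul_left this h3l
        linarith
      · have : 3 ^ b * n < 3 ^ b * (B + 1) := by linarith
        have := lt_of_mul_lt_mul_left this h3l.le
        linarith
    have h1 := card_le_card hsub
    rw [Int.card_Icc] at h1
    have h2 : (B + 1 - (B - a * 2 ^ t)).toNat = a * 2 ^ t + 1 := by
      have : B + 1 - (B - a * 2 ^ t) = ((a * 2 ^ t + 1 : ℕ) : ℤ) := by push_cast; ring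
      rw [this, Int.toNat_natCast]
    rw [h2] at h1
    refine le_trans h1 ?_
    have h3 : m * 2 ^ t = a * 2 ^ t + c * 2 ^ t := by rw [← add_mul, hac]
    have h4 : 1 ≤ c * 2 ^ t := Nat.mul_pos hc1 h2t1
    omega
  · have := hd0 a (by omega)
    rwa [hb0] at this
  · have := hd0 m (by omega)
    have hS : S m n₀ = b + s := by
      rw [← hac, S_add, hb0, hs0]
    rwa [hS] at this
  · intro n hn
    obtain ⟨_, h5, h6, h7⟩ := hmemG n hn
    have := h7 (m + a) le_rfl
    have hS : S m n = b + s := by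
      rw [← hac, S_add, h5, h6]
    rw [S_add, hS] at this
    exact this

/-- Integers in an interval of length `2^m` with large partial multipliers. -/
lemma card_good_all {κ δ K : ℝ} (hCB : CB κ δ K) (hK : 0 < K) (A : ℤ) (m t : ℕ)
    (hm : 1300 ≤ m) (ht : (t:ℝ) ≤ κ * m) (hat : (m - m/50) * 2 ^ t ≤ 2 ^ (m - m/50)) :
    (((Ico A (A + 2 ^ m)).filter (fun n =>
      ∀ d ≤ m + (m - m/50), 2 ^ d ≤ 3 ^ (S d n) * 2 ^ t)).card : ℝ) ≤
      (m + 1) ^ 2 * (K * ((m * 2 ^ t : ℕ) : ℝ) * Real.exp ((th * Real.log 2 - δ) * m)) := by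
  classical
  set a := m - m/50 with ha
  set c := m/50 with hc
  have hac : a + c = m := by omega
  set V := (Ico A (A + 2 ^ m)).filter (fun n =>
      ∀ d ≤ m + a, 2 ^ d ≤ 3 ^ (S d n) * 2 ^ t) with hV
  set V3 : ℕ → ℕ → Finset ℤ := fun b s => (Ico A (A + 2 ^ m)).filter (fun n =>
      S a n = b ∧ S c (T^[a] n) = s ∧
      ∀ d ≤ m + a, 2 ^ d ≤ 3 ^ (S d n) * 2 ^ t) with hV3
  have hsub : V ⊆ (range (m + 1) ×ˢ range (m + 1)).biUnion (fun p => V3 p.1 p.2) := by
    intro n hn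
    rw [hV, mem_filter] at hn
    simp only [mem_biUnion, mem_product, mem_range]
    refine ⟨(S a n, S c (T^[a] n)), ⟨?_, ?_⟩, ?_⟩
    · have := S_le a n
      simp only; omega
    · have := S_le c (T^[a] n)
      simp only; omega
    · exact mem_filter.mpr ⟨hn.1, rfl, rfl, hn.2⟩
  calc ((V.card : ℕ) : ℝ)
      ≤ ((∑ p ∈ (range (m + 1) ×ˢ range (m + 1)), (V3 p.1 p.2).card : ℕ) : ℝ) := by
        exact_mod_cast (card_le_card hsub).trans card_biUnion_le
    _ = ∑ p ∈ (range (m + 1) ×ˢ range (m + 1)), ((V3 p.1 p.2).card : ℝ) := by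
        push_cast; rfl
    _ ≤ ∑ p ∈ (range (m + 1) ×ˢ range (m + 1)),
          (K * ((m * 2 ^ t : ℕ) : ℝ) * Real.exp ((th * Real.log 2 - δ) * m)) := by
        refine sum_le_sum (fun p _ => card_good_int hCB hK A m t p.1 p.2 hm ht hat)
    _ = (m + 1) ^ 2 * (K * ((m * 2 ^ t : ℕ) : ℝ) * Real.exp ((th * Real.log 2 - δ) * m)) := by
        rw [sum_const, card_product, card_range, nsmul_eq_mul]
        push_cast; ring

lemma T_neg_of_neg {n : ℤ} (h : n < 0) : T n < 0 := by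
  unfold T; split_ifs <;> omega

lemma T_nonneg_of_nonneg {n : ℤ} (h : 0 ≤ n) : 0 ≤ T n := by
  unfold T; split_ifs <;> omega

lemma iter_neg_of_neg (k : ℕ) : ∀ {n : ℤ}, n < 0 → T^[k] n < 0 := by
  induction k with
  | zero => intro n h; exact h
  | succ k ih => intro n h; rw [Function.iterate_succ_apply]; exact ih (T_neg_of_neg h)

lemma iter_nonneg_of_nonneg (k : ℕ) : ∀ {n : ℤ}, 0 ≤ n → 0 ≤ T^[k] n := by
  induction k with
  | zero => intro n h; exact h
  | succ k ih => intro n h; rw [Function.iterate_succ_apply]; exact ih (T_nonneg_of_nonneg h)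

/-- No large descent implies large partial multipliers. -/
lemma mult_of_nodescent (n : ℤ) (J t : ℕ) (hJ : (J:ℤ) * 2 ^ (t+1) ≤ 3 * |n|) (hn : n ≠ 0)
    (h : ∀ j ≤ J, |n| ≤ 2 ^ t * |T^[j] n|) :
    ∀ j ≤ J, 2 ^ j ≤ 3 ^ (S j n) * 2 ^ (t+1) := by
  intro j
  induction j using Nat.strong_induction_on with
  | _ j ih =>
    intro hj
    have h3 : (0:ℤ) < 3 ^ S j n := by positivity
    have h2t : (0:ℤ) < 2 ^ t := by positivity
    have h2j : (0:ℤ) < 2 ^ j := by positivity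
    have hspec := C_spec j n
    have hC0 := C_nonneg j n
    have hC1 := C_le_of (t+1) n j (fun d hd => ih d hd (by omega))
    have hh := h j hj
    have hjJ : (j:ℤ) ≤ J := by exact_mod_cast hj
    have hJ' : (j:ℤ) * 2 ^ (t+1) ≤ 3 * |n| :=
      le_trans (mul_le_mul_of_nonneg_right hjJ (by positivity)) hJ
    have hgoal : (2:ℤ) ^ j ≤ 3 ^ (S j n) * 2 ^ (t+1) := by
      rcases lt_or_gt_of_ne hn with hneg | hpos
      · have hT := iter_neg_of_neg j hneg
        rw [abs_of_neg hneg, abs_of_neg hT] at hh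
        have e1 : 2 ^ j * (-n) ≤ (3 ^ (S j n) * 2 ^ t) * (-n) := by
          have : 2 ^ j * (-n) ≤ 2 ^ j * (2 ^ t * -T^[j] n) :=
            mul_le_mul_of_nonneg_left hh h2j.le
          have e2 : 2 ^ t * (2 ^ j * T^[j] n) = 2 ^ t * (3 ^ S j n * n + C j n) := by rw [hspec]
          have e3 : 0 ≤ 2 ^ t * C j n := by positivity
          linarith
        have e4 := le_of_mul_le_mul_right e1 (by linarith)
        have e5 : (0:ℤ) < 3 ^ (S j n) * 2 ^ t := by positivity
        rw [pow_succ]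
        linarith
      · have hT := iter_nonneg_of_nonneg j hpos.le
        rw [abs_of_pos hpos, abs_of_nonneg hT] at hh
        rw [abs_of_pos hpos] at hJ'
        have e1 : 2 ^ j * n ≤ (3 ^ (S j n) * 2 ^ (t+1)) * n := by
          have : 2 ^ j * n ≤ 2 ^ j * (2 ^ t * T^[j] n) :=
            mul_le_mul_of_nonneg_left hh h2j.le
          have e2 : 2 ^ t * (2 ^ j * T^[j] n) = 2 ^ t * (3 ^ S j n * n + C j n) := by rw [hspec]
          have e3 : (j:ℤ) * 2 ^ (t+1) * 3 ^ S j n ≤ 3 * n * 3 ^ S j n :=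
            mul_le_mul_of_nonneg_right hJ' h3.le
          have e4 : C j n ≤ n * 3 ^ S j n := by linarith
          have e5 : 2 ^ t * C j n ≤ 2 ^ t * (n * 3 ^ S j n) :=
            mul_le_mul_of_nonneg_left e4 h2t.le
          rw [pow_succ]
          linarith
        exact le_of_mul_le_mul_right e1 hpos
    exact_mod_cast hgoal

lemma th_lower : (45:ℝ)/100 ≤ th * Real.log 2 := by
  have h2 : th * Real.log 2 = Real.binEntropy al := by
    unfold th; field_simp [log_two_pos.ne']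
  rw [h2]
  unfold Real.binEntropy
  have ha := al_ge
  have hb := al_le
  rw [Real.log_inv, Real.log_inv]
  have h1 := Real.log_le_sub_one_of_pos al_pos
  have h3 := Real.log_le_sub_one_of_pos (show (0:ℝ) < 1 - al by linarith [al_lt_one])
  have h4 : al * (1 - al) ≤ al * -Real.log al :=
    mul_le_mul_of_nonneg_left (by linarith) al_pos.le
  have h5 : (1 - al) * al ≤ (1 - al) * -Real.log (1 - al) :=
    mul_le_mul_of_nonneg_left (by linarith) (by linarith [al_lt_one])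
  nlinarith

/-- powers are absorbed by exponentials -/
lemma ev_pow_exp (k : ℕ) (C ε : ℝ) (hε : 0 < ε) :
    ∀ᶠ m : ℕ in atTop, C * (m:ℝ) ^ k ≤ Real.exp (ε * m) := by
  have h := isLittleO_pow_exp_pos_mul_atTop (k := k) hε
  have h1 := h.def (c := 1 / (|C| + 1)) (by positivity)
  have h2 := (tendsto_natCast_atTop_atTop (R := ℝ)).eventually h1
  filter_upwards [h2] with m hm
  rw [Real.norm_of_nonneg (by positivity), Real.norm_of_nonneg (by positivity)] at hm
  have hC : 0 < |C| + 1 := by positivity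
  have h3 : (|C| + 1) * (m:ℝ) ^ k ≤ Real.exp (ε * m) := by
    rw [div_mul_eq_mul_div, one_mul, le_div_iff₀ hC] at hm
    linarith
  have h4 : C * (m:ℝ) ^ k ≤ (|C| + 1) * (m:ℝ) ^ k :=
    mul_le_mul_of_nonneg_right (by linarith [le_abs_self C]) (by positivity)
  linarith

/-- The main estimate for integers without large descent, dyadic form. -/
theorem nodescent_dyadic : ∃ ε δ K : ℝ, 0 < ε ∧ 0 < δ ∧ δ < th * Real.log 2 ∧ 0 < K ∧
    ∀ (A : ℤ) (m : ℕ),
    (((Ico A (A + 2 ^ m)).filter (fun n =>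
      ∀ j ≤ 2 * m, ((|n| : ℤ) : ℝ) ≤ Real.exp (ε * m) * ((|T^[j] n| : ℤ) : ℝ))).card : ℝ) ≤
      K * Real.exp ((th * Real.log 2 - δ) * m) := by
  obtain ⟨κ, δ₁, K₁, hκ0, hκ1, hδ0, hδ1, hK₁, hCB⟩ := exists_CB
  have hlog2 := log_two_pos
  have hlog2' : Real.log 2 < 0.6931471808 := Real.log_two_lt_d9
  have hlog2'' : 0.6931471803 < Real.log 2 := Real.log_two_gt_d9
  -- parameters : `ε₀` in base two
  set ε₀ : ℝ := min (κ / 2) (δ₁ / 4) with hε₀
  have hε₀pos : 0 < ε₀ := by rw [hε₀]; apply lt_min <;> positivity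
  have hε₀κ : ε₀ ≤ κ / 2 := min_le_left _ _
  have hε₀δ : ε₀ ≤ δ₁ / 4 := min_le_right _ _
  set δ' : ℝ := min (δ₁ / 2) (1 / 10) with hδ'
  have hδ'pos : 0 < δ' := by rw [hδ']; apply lt_min <;> positivity
  have hδ'1 : δ' ≤ δ₁ / 2 := min_le_left _ _
  have hδ'2 : δ' ≤ 1 / 10 := min_le_right _ _
  set g : ℝ := th * Real.log 2 - δ' with hg
  have hthl := th_lower
  have hgpos : 0 < g := by rw [hg]; linarith
  have hglow : Real.log 2 / 2 ≤ g := by rw [hg]; linarith
  have ev1 := ev_pow_exp 3 (16 * K₁) (δ₁ / 4) (by positivity)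
  have ev4 := ev_pow_exp 2 1 (Real.log 2 / 4) (by positivity)
  have hκinv : ∀ᶠ m : ℕ in atTop, 4 ≤ κ * (m:ℝ) := by
    have : Tendsto (fun m : ℕ => κ * (m:ℝ)) atTop atTop :=
      Tendsto.const_mul_atTop hκ0 tendsto_natCast_atTop_atTop
    exact this.eventually (eventually_ge_atTop 4)
  obtain ⟨m₀, hm₀⟩ := eventually_atTop.mp
    ((ev1.and (ev4.and hκinv)).and (eventually_ge_atTop 1300))
  set K : ℝ := max 3 (2 ^ m₀) with hK
  have hK1 : 3 ≤ K := le_max_left _ _
  have hK2 : (2:ℝ) ^ m₀ ≤ K := le_max_right _ _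
  refine ⟨ε₀ * Real.log 2, δ', K, by positivity, hδ'pos, by linarith, by linarith, ?_⟩
  intro A m
  rw [← hg]
  set X := (Ico A (A + 2 ^ m)).filter (fun n =>
      ∀ j ≤ 2 * m, ((|n| : ℤ) : ℝ) ≤ Real.exp (ε₀ * Real.log 2 * m) *
        ((|T^[j] n| : ℤ) : ℝ)) with hX
  rcases Nat.lt_or_ge m m₀ with hlt | hge
  · have h1 : (X.card : ℝ) ≤ 2 ^ m := by
      have h0 : X.card ≤ (Ico A (A + 2 ^ m)).card := card_le_card (filter_subset _ _)
      have h0' : (Ico A (A + (2:ℤ) ^ m)).card = 2 ^ m := by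
        rw [Int.card_Ico]
        have : A + 2 ^ m - A = ((2 ^ m : ℕ) : ℤ) := by push_cast; ring
        rw [this, Int.toNat_natCast]
      rw [h0'] at h0
      exact_mod_cast h0
    have h2 : (2:ℝ) ^ m ≤ 2 ^ m₀ := pow_le_pow_right₀ (by norm_num) hlt.le
    have h3 : (1:ℝ) ≤ Real.exp (g * m) := Real.one_le_exp (by positivity)
    calc (X.card : ℝ) ≤ K * 1 := by linarith
      _ ≤ K * Real.exp (g * m) := mul_le_mul_of_nonneg_left h3 (by linarith)
  · obtain ⟨⟨e1, e4, e5⟩, e6⟩ := hm₀ m hge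
    have hmR : (1300:ℝ) ≤ m := by exact_mod_cast e6
    set t₀ := ⌈ε₀ * (m:ℝ)⌉₊ with ht₀
    have ht1 : ε₀ * m ≤ t₀ := Nat.le_ceil _
    have ht2 : (t₀:ℝ) < ε₀ * m + 1 := Nat.ceil_lt_add_one (by positivity)
    have hεκm : ε₀ * m ≤ κ / 2 * m := mul_le_mul_of_nonneg_right hε₀κ (by positivity)
    have ht3 : (((t₀ + 1 : ℕ)) : ℝ) ≤ κ * m := by push_cast; linarith
    have ht4 : (t₀ + 1) * 100 ≤ m := by
      have : (((t₀ + 1 : ℕ)) : ℝ) * 100 ≤ m := by
        have : κ * m ≤ 1/100 * m := mul_le_mul_of_nonneg_right hκ1 (by positivity)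
        linarith
      exact_mod_cast this
    have hsq : ∀ i : ℕ, m ≤ 4 * i → m * m ≤ 2 ^ i := by
      intro i hi
      have h1 : (m:ℝ) ^ 2 ≤ Real.exp (Real.log 2 / 4 * m) := by linarith
      have h2 : Real.exp (Real.log 2 / 4 * m) ≤ Real.exp (Real.log 2 * ((i : ℕ) : ℝ)) := by
        apply Real.exp_le_exp.mpr
        have hi' : (m:ℝ) ≤ 4 * i := by exact_mod_cast hi
        nlinarith
      rw [← Real.rpow_def_of_pos (by norm_num), Real.rpow_natCast] at h2
      have h3 : (m:ℝ) * m ≤ 2 ^ i := by nlinarith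
      exact_mod_cast h3
    have hmm : 1300 * m ≤ m * m := Nat.mul_le_mul_right m e6
    have hat : (m - m/50) * 2 ^ (t₀ + 1) ≤ 2 ^ (m - m/50) := by
      have h1 := hsq (m - m/50 - (t₀ + 1)) (by omega)
      have h3 : m - m/50 ≤ 2 ^ (m - m/50 - (t₀ + 1)) := by
        have : m - m/50 ≤ m := Nat.sub_le _ _
        omega
      calc (m - m/50) * 2 ^ (t₀ + 1) ≤ 2 ^ (m - m/50 - (t₀ + 1)) * 2 ^ (t₀ + 1) :=
            Nat.mul_le_mul_right _ h3
        _ = 2 ^ (m - m/50) := by rw [← pow_add]; congr 1; omega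
    have hbig : 2 * m * 2 ^ (t₀ + 1) ≤ 2 ^ (m / 2) := by
      have h1 := hsq (m / 2 - (t₀ + 1)) (by omega)
      have h3 : 2 * m ≤ 2 ^ (m / 2 - (t₀ + 1)) := by omega
      calc 2 * m * 2 ^ (t₀ + 1) ≤ 2 ^ (m / 2 - (t₀ + 1)) * 2 ^ (t₀ + 1) :=
            Nat.mul_le_mul_right _ h3
        _ = 2 ^ (m / 2) := by rw [← pow_add]; congr 1; omega
    -- the exponential factor
    have hexpt : Real.exp (ε₀ * Real.log 2 * m) ≤ 2 ^ t₀ := by
      have : Real.exp (ε₀ * Real.log 2 * m) = (2:ℝ) ^ (ε₀ * m) := by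
        rw [Real.rpow_def_of_pos (by norm_num)]; congr 1; ring
      rw [this, ← Real.rpow_natCast]
      exact Real.rpow_le_rpow_of_exponent_le (by norm_num) ht1
    -- split
    set X1 := (Ico (-(2:ℤ) ^ (m/2)) (2 ^ (m/2))) with hX1
    set X2 := (Ico A (A + 2 ^ m)).filter (fun n =>
      ∀ d ≤ m + (m - m/50), 2 ^ d ≤ 3 ^ (S d n) * 2 ^ (t₀ + 1)) with hX2
    have hsub : X ⊆ X1 ∪ X2 := by
      intro n hn
      rw [hX, mem_filter] at hn
      obtain ⟨hn1, hn2⟩ := hn
      rw [mem_union]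
      by_cases hsmall : |n| < 2 ^ (m/2)
      · left
        rw [abs_lt] at hsmall
        rw [hX1, mem_Ico]
        exact ⟨hsmall.1.le, hsmall.2⟩
      · right
        push Not at hsmall
        rw [hX2, mem_filter]
        refine ⟨hn1, ?_⟩
        have hn0 : n ≠ 0 := by
          rintro rfl
          have : (0:ℤ) < 2 ^ (m/2) := by positivity
          simp at hsmall
          linarith
        have hbig' : (((2 * m : ℕ)) : ℤ) * 2 ^ (t₀ + 1) ≤ 2 ^ (m/2) := by exact_mod_cast hbig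
        have habs : (0:ℤ) ≤ |n| := abs_nonneg n
        have hm1 := mult_of_nodescent n (2 * m) t₀ (by linarith) hn0 (by
          intro j hj
          have h1 := hn2 j hj
          have h2 : ((|n| : ℤ) : ℝ) ≤ 2 ^ t₀ * ((|T^[j] n| : ℤ) : ℝ) := by
            refine le_trans h1 ?_
            apply mul_le_mul_of_nonneg_right hexpt
            exact_mod_cast abs_nonneg _
          exact_mod_cast h2)
        intro d hd
        exact hm1 d (by omega)
    have hX2card := card_good_all hCB hK₁ A m (t₀ + 1) e6 ht3 hat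
    rw [← hX2] at hX2card
    have hX1card : (X1.card : ℝ) ≤ 2 * Real.exp (g * m) := by
      have h0' : X1.card = 2 * 2 ^ (m/2) := by
        rw [hX1, Int.card_Ico]
        have : (2:ℤ) ^ (m/2) - -2 ^ (m/2) = ((2 * 2 ^ (m/2) : ℕ) : ℤ) := by push_cast; ring
        rw [this, Int.toNat_natCast]
      rw [h0']
      push_cast
      have h1 : (2:ℝ) ^ (m/2) ≤ Real.exp (g * m) := by
        rw [← Real.rpow_natCast, Real.rpow_def_of_pos (by norm_num)]
        apply Real.exp_le_exp.mpr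
        have h2 : (((m/2 : ℕ)) : ℝ) ≤ (m:ℝ) / 2 := Nat.cast_div_le
        have h3 : Real.log 2 * (((m/2 : ℕ)) : ℝ) ≤ Real.log 2 * ((m:ℝ) / 2) :=
          mul_le_mul_of_nonneg_left h2 hlog2.le
        have h4 : Real.log 2 / 2 * m ≤ g * m := mul_le_mul_of_nonneg_right hglow (by positivity)
        linarith
      linarith
    have hX2card' : (X2.card : ℝ) ≤ Real.exp (g * m) := by
      refine le_trans hX2card ?_
      have h2t : (2:ℝ) ^ (t₀ + 1) ≤ 4 * Real.exp (δ₁ / 4 * m) := by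
        have h1 : (2:ℝ) ^ t₀ ≤ 2 * Real.exp (δ₁ / 4 * m) := by
          rw [← Real.rpow_natCast, Real.rpow_def_of_pos (by norm_num)]
          have h2 : Real.log 2 * t₀ ≤ Real.log 2 + δ₁ / 4 * m := by
            have h3 : Real.log 2 * t₀ ≤ Real.log 2 * (ε₀ * m + 1) :=
              mul_le_mul_of_nonneg_left ht2.le hlog2.le
            have h4 : Real.log 2 * (ε₀ * m) ≤ 1 * (δ₁ / 4 * m) := by
              apply mul_le_mul (by linarith) _ (by positivity) (by norm_num)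
              exact mul_le_mul_of_nonneg_right hε₀δ (by positivity)
            linarith
          calc Real.exp (Real.log 2 * t₀) ≤ Real.exp (Real.log 2 + δ₁ / 4 * m) :=
                Real.exp_le_exp.mpr h2
            _ = 2 * Real.exp (δ₁ / 4 * m) := by rw [Real.exp_add, Real.exp_log (by norm_num)]
        rw [pow_succ]; linarith
      have h1 : Real.exp ((th * Real.log 2 - δ₁) * m) ≤
          Real.exp (g * m) * Real.exp (-(δ₁ / 2 * m)) := by
        rw [← Real.exp_add]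
        apply Real.exp_le_exp.mpr
        have : δ' * m ≤ δ₁ / 2 * m := mul_le_mul_of_nonneg_right hδ'1 (by positivity)
        rw [hg]
        linarith
      have h2 : ((m:ℝ) + 1) ^ 2 ≤ 4 * m ^ 2 := by nlinarith
      have h3 : (((m * 2 ^ (t₀ + 1) : ℕ)) : ℝ) ≤ m * (4 * Real.exp (δ₁ / 4 * m)) := by
        push_cast
        exact mul_le_mul_of_nonneg_left h2t (by positivity)
      have h5 : 16 * K₁ * (m:ℝ) ^ 3 * Real.exp (-(δ₁ / 4 * m)) ≤ 1 := by
        calc 16 * K₁ * (m:ℝ) ^ 3 * Real.exp (-(δ₁ / 4 * m))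
            ≤ Real.exp (δ₁ / 4 * m) * Real.exp (-(δ₁ / 4 * m)) :=
              mul_le_mul_of_nonneg_right e1 (Real.exp_pos _).le
          _ = 1 := by rw [← Real.exp_add]; simp
      have h6 : Real.exp (δ₁ / 4 * m) * Real.exp (-(δ₁ / 2 * m)) = Real.exp (-(δ₁ / 4 * m)) := by
        rw [← Real.exp_add]; congr 1; ring
      calc ((m:ℝ) + 1) ^ 2 * (K₁ * (((m * 2 ^ (t₀ + 1) : ℕ)) : ℝ) *
            Real.exp ((th * Real.log 2 - δ₁) * m))
          ≤ 4 * m ^ 2 * (K₁ * (m * (4 * Real.exp (δ₁ / 4 * m))) *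
            (Real.exp (g * m) * Real.exp (-(δ₁ / 2 * m)))) := by
            apply mul_le_mul h2 _ (by positivity) (by positivity)
            apply mul_le_mul _ h1 (by positivity) (by positivity)
            exact mul_le_mul_of_nonneg_left h3 hK₁.le
        _ = 16 * K₁ * (m:ℝ) ^ 3 * (Real.exp (δ₁ / 4 * m) * Real.exp (-(δ₁ / 2 * m))) *
            Real.exp (g * m) := by ring
        _ = (16 * K₁ * (m:ℝ) ^ 3 * Real.exp (-(δ₁ / 4 * m))) * Real.exp (g * m) := by rw [h6]
        _ ≤ 1 * Real.exp (g * m) := mul_le_mul_of_nonneg_right h5 (Real.exp_pos _).le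
        _ = Real.exp (g * m) := one_mul _
    have hexp := Real.exp_pos (g * m)
    have hXcard : (X.card : ℝ) ≤ (X1.card : ℝ) + X2.card := by
      exact_mod_cast (card_le_card hsub).trans (card_union_le _ _)
    calc (X.card : ℝ) ≤ 3 * Real.exp (g * m) := by linarith
      _ ≤ K * Real.exp (g * m) := mul_le_mul_of_nonneg_right hK1 hexp.le

/-- The main estimate for integers without large descent. -/
theorem nodescent : ∃ ε δ K : ℝ, 0 < ε ∧ 0 < δ ∧ 0 < K ∧ ∀ (A : ℤ) (L : ℕ), 1 ≤ L →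
    (((Ico A (A + L)).filter (fun n =>
      ∀ j ≤ 2 * (Nat.log 2 L + 1), ((|n| : ℤ) : ℝ) ≤ (L:ℝ) ^ ε * ((|T^[j] n| : ℤ) : ℝ))).card : ℝ) ≤
      K * (L:ℝ) ^ (th - δ) := by
  obtain ⟨ε, δ, K, hε, hδ, hδ2, hK, h⟩ := nodescent_dyadic
  have hlog2 := log_two_pos
  set g : ℝ := th * Real.log 2 - δ with hg
  have hgpos : 0 < g := by linarith
  refine ⟨ε / Real.log 2, δ / Real.log 2, K * Real.exp g, by positivity, by positivity,
    by positivity, ?_⟩
  intro A L hL
  set m := Nat.log 2 L + 1 with hm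
  have h1 : L < 2 ^ m := Nat.lt_pow_succ_log_self (by norm_num) L
  have h2 : 2 ^ (m - 1) ≤ L := by
    rw [hm, Nat.add_sub_cancel]
    exact Nat.pow_log_le_self 2 (by omega)
  have hLR : (1:ℝ) ≤ L := by exact_mod_cast hL
  have hlogL : 0 ≤ Real.log L := Real.log_nonneg hLR
  have h3 : ((m:ℝ) - 1) * Real.log 2 ≤ Real.log L := by
    have : Real.log ((2:ℝ) ^ (m - 1)) ≤ Real.log L := by
      apply Real.log_le_log (by positivity)
      exact_mod_cast h2
    rw [Real.log_pow, Nat.cast_sub (by omega)] at this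
    push_cast at this
    exact this
  have h3' : Real.log L ≤ (m:ℝ) * Real.log 2 := by
    have : Real.log L ≤ Real.log ((2:ℝ) ^ m) := by
      apply Real.log_le_log (by positivity)
      exact_mod_cast h1.le
    rw [Real.log_pow] at this
    exact this
  have hmain := h A m
  have hsub : (Ico A (A + L)).filter (fun n =>
      ∀ j ≤ 2 * m, ((|n| : ℤ) : ℝ) ≤ (L:ℝ) ^ (ε / Real.log 2) * ((|T^[j] n| : ℤ) : ℝ)) ⊆
      (Ico A (A + 2 ^ m)).filter (fun n =>
      ∀ j ≤ 2 * m, ((|n| : ℤ) : ℝ) ≤ Real.exp (ε * m) * ((|T^[j] n| : ℤ) : ℝ)) := by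
    intro n hn
    rw [mem_filter, mem_Ico] at hn ⊢
    obtain ⟨⟨a1, a2⟩, a3⟩ := hn
    refine ⟨⟨a1, lt_of_lt_of_le a2 ?_⟩, ?_⟩
    · have : (L:ℤ) < 2 ^ m := by exact_mod_cast h1
      linarith
    · intro j hj
      refine le_trans (a3 j hj) ?_
      apply mul_le_mul_of_nonneg_right
      · rw [Real.rpow_def_of_pos (by linarith)]
        apply Real.exp_le_exp.mpr
        rw [← mul_div_assoc, div_le_iff₀ hlog2]
        calc Real.log L * ε ≤ (m * Real.log 2) * ε := mul_le_mul_of_nonneg_right h3' hε.le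
          _ = ε * m * Real.log 2 := by ring
      · exact_mod_cast abs_nonneg _
  have h4 : Real.exp (g * m) ≤ Real.exp g * (L:ℝ) ^ (th - δ / Real.log 2) := by
    rw [Real.rpow_def_of_pos (by linarith), ← Real.exp_add]
    apply Real.exp_le_exp.mpr
    have e1 : Real.log L * (th - δ / Real.log 2) = g / Real.log 2 * Real.log L := by
      rw [hg]; field_simp
    rw [e1]
    have e2 : g / Real.log 2 * (((m:ℝ) - 1) * Real.log 2) ≤ g / Real.log 2 * Real.log L :=
      mul_le_mul_of_nonneg_left h3 (by positivity)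
    have e3 : g / Real.log 2 * (((m:ℝ) - 1) * Real.log 2) = g * m - g := by
      field_simp
    linarith
  calc _ ≤ (((Ico A (A + 2 ^ m)).filter (fun n =>
      ∀ j ≤ 2 * m, ((|n| : ℤ) : ℝ) ≤ Real.exp (ε * m) * ((|T^[j] n| : ℤ) : ℝ))).card : ℝ) := by
        exact_mod_cast card_le_card hsub
    _ ≤ K * Real.exp (g * m) := hmain
    _ ≤ K * (Real.exp g * (L:ℝ) ^ (th - δ / Real.log 2)) := mul_le_mul_of_nonneg_left h4 hK.le
    _ = K * Real.exp g * (L:ℝ) ^ (th - δ / Real.log 2) := by ring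

end Pool.Agent.H30
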